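import Mathlib

/-!
Completely multiplicative functions with values `1`, `-1`, extended to the rational numbers, and the
algebraic identities between the two families of cubics `F b v n` and `g b s`.
-/

namespace Pool.Agent.Lib_helper11.CUB

/-- Completely multiplicative functions on the positive integers with values `1` and `-1`. -/
structure CM (h : ℕ → ℤ) : Prop where
  values : ∀ m : ℕ, 1 ≤ m → h m = 1 ∨ h m = -1
  mul : ∀ m n : ℕ, 1 ≤ m → 1 ≤ n → h (m * n) = h m * h n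

/-- The extension to the rational numbers. -/
def H (h : ℕ → ℤ) (x : ℚ) : ℤ := h x.num.natAbs * h x.den

theorem CM.one {h : ℕ → ℤ} (hh : CM h) : h 1 = 1 := by
  have h1 := hh.mul 1 1 le_rfl le_rfl
  rcases hh.values 1 le_rfl with h2 | h2
  · exact h2
  · simp only [mul_one] at h1
    rw [h2] at h1; norm_num at h1

theorem CM.sq {h : ℕ → ℤ} (hh : CM h) {m : ℕ} (hm : 1 ≤ m) : h m * h m = 1 := by
  rcases hh.values m hm with h2 | h2 <;> rw [h2] <;> norm_num

theorem H_mul {h : ℕ → ℤ} (hh : CM h) {x y : ℚ} (hx : x ≠ 0) (hy : y ≠ 0) :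
    H h (x * y) = H h x * H h y := by
  have hxn : 1 ≤ x.num.natAbs := Int.natAbs_pos.2 (Rat.num_ne_zero.2 hx)
  have hyn : 1 ≤ y.num.natAbs := Int.natAbs_pos.2 (Rat.num_ne_zero.2 hy)
  have hzn : 1 ≤ (x * y).num.natAbs := Int.natAbs_pos.2 (Rat.num_ne_zero.2 (mul_ne_zero hx hy))
  have hxd : 1 ≤ x.den := x.den_pos
  have hyd : 1 ≤ y.den := y.den_pos
  have hzd : 1 ≤ (x * y).den := (x * y).den_pos
  have key : (x * y).num * x.den * y.den = x.num * y.num * (x * y).den := Rat.mul_num_den' x y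
  have key2 : (x * y).num.natAbs * x.den * y.den = x.num.natAbs * y.num.natAbs * (x * y).den := by
    have := congrArg Int.natAbs key
    simpa [Int.natAbs_mul] using this
  have e := congrArg h key2
  rw [hh.mul _ _ (Nat.mul_pos hzn hxd) hyd, hh.mul _ _ hzn hxd,
    hh.mul _ _ (Nat.mul_pos hxn hyn) hzd, hh.mul _ _ hxn hyn] at e
  unfold H
  have a1 := hh.sq hxd
  have a2 := hh.sq hyd
  have a3 := hh.sq hzd
  linear_combination (h x.den * h y.den * h (x*y).den) * e -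
    h (x * y).num.natAbs * h (x*y).den * (h y.den * h y.den) * a1 -
    h (x * y).num.natAbs * h (x*y).den * a2 +
    h x.num.natAbs * h y.num.natAbs * h x.den * h y.den * a3

theorem H_vals {h : ℕ → ℤ} (hh : CM h) {x : ℚ} (hx : x ≠ 0) : H h x = 1 ∨ H h x = -1 := by
  have hxn : 1 ≤ x.num.natAbs := Int.natAbs_pos.2 (Rat.num_ne_zero.2 hx)
  unfold H
  rcases hh.values _ hxn with h1 | h1 <;>
    rcases hh.values _ (show 1 ≤ x.den from x.den_pos) with h2 | h2 <;>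
    rw [h1, h2] <;> norm_num

theorem H_sq {h : ℕ → ℤ} (hh : CM h) {x : ℚ} (hx : x ≠ 0) : H h x * H h x = 1 := by
  rcases H_vals hh hx with h2 | h2 <;> rw [h2] <;> norm_num

theorem H_int {h : ℕ → ℤ} (hh : CM h) (z : ℤ) : H h (z : ℚ) = h z.natAbs := by
  unfold H; simp [hh.one]

theorem H_nat {h : ℕ → ℤ} (hh : CM h) (z : ℕ) : H h (z : ℚ) = h z := by
  unfold H; simp [hh.one]

theorem H_neg {h : ℕ → ℤ} (x : ℚ) : H h (-x) = H h x := by
  unfold H; simp

theorem H_pow3 {h : ℕ → ℤ} (hh : CM h) {x : ℚ} (hx : x ≠ 0) : H h (x ^ 3) = H h x := by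
  rw [show x ^ 3 = x * x * x by ring, H_mul hh (mul_ne_zero hx hx) hx, H_mul hh hx hx, H_sq hh hx,
    one_mul]

theorem H_pow2 {h : ℕ → ℤ} (hh : CM h) {x : ℚ} (hx : x ≠ 0) : H h (x ^ 2) = 1 := by
  rw [show x ^ 2 = x * x by ring, H_mul hh hx hx, H_sq hh hx]

theorem H_eight {h : ℕ → ℤ} (hh : CM h) : H h 8 = h 2 := by
  rw [show (8 : ℚ) = 2 ^ 3 by norm_num, H_pow3 hh (by norm_num)]
  exact_mod_cast H_nat hh 2

section Identities

variable {K : Type*} [Field K]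

/-- The cubic `g_b`. -/
def g (b s : K) : K := (s - 1) ^ 3 - b * (s - 2)

/-- The cubic `F_{b,v}`. -/
def F (b v n : K) : K :=
  n ^ 3 - v * (2 * b + 3) * n ^ 2 + v ^ 2 * (b ^ 2 + 6 * b + 3) * n - v ^ 3 * (2 * b - 1) ^ 2

theorem id1 (b v s : K) : F b v (v * s ^ 2) = -v ^ 3 * (g b s * g b (-s)) := by
  unfold F g; ring

theorem id_scale (b v n : K) : F b v (v * n) = v ^ 3 * F b 1 n := by
  unfold F; ring

theorem id_nonvanish (b n : K) :
    (3 * n - 2 * b + 1 - (n + 3 - b)) ^ 3 -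
      b * (n + 3 - b) ^ 2 * (3 * n - 2 * b + 1 - 2 * (n + 3 - b)) = (8 - b) * F b 1 n := by
  unfold F; ring

/-- The denominator `W`. -/
def W (b : K) : K := 2 * b ^ 2 - 45 * b + 216

/-- The new parameter `B`. -/
def BB (b : K) : K := 27 * b * (b - 6) ^ 3 / W b ^ 2

/-- The slope of the substitution. -/
def nu (b : K) : K := 9 * (b - 6) / W b

/-- The constant of the substitution. -/
def cc (b : K) : K := (W b - 9 * (b - 6) - 6 * b * (b - 6)) / W b

theorem id4 (b n : K) (hW : W b ≠ 0) :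
    g (BB b) (nu b * n + cc b) = nu b ^ 3 * F b 1 n := by
  unfold BB nu cc
  have e : 9 * (b - 6) / W b * n + (W b - 9 * (b - 6) - 6 * b * (b - 6)) / W b =
      (9 * (b - 6) * n + (W b - 9 * (b - 6) - 6 * b * (b - 6))) / W b := by ring
  rw [e]
  unfold g F
  rw [div_pow, div_sub_one hW, div_pow]
  have e2 : (9 * (b - 6) * n + (W b - 9 * (b - 6) - 6 * b * (b - 6))) / W b - 2 =
    (9 * (b - 6) * n + (W b - 9 * (b - 6) - 6 * b * (b - 6)) - 2 * W b) / W b := by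
    field_simp
  rw [e2, div_mul_div_comm, div_mul_eq_mul_div, ← pow_succ, div_sub_div_same]
  congr 1
  unfold W
  ring

end Identities

theorem id2 (b v s : ℚ) :
    8 * F b v (v * s ^ 2 + v / 2 * g b s) = g b s * F b v (v * (s ^ 2 + 4)) := by
  unfold F g; ring

theorem prod_id (a c d n1 n2 σ π : ℚ) (h1 : n1 + n2 = σ) (h2 : n1 * n2 = π) :
    (n1 ^ 3 + a * n1 ^ 2 + c * n1 + d) * (n2 ^ 3 + a * n2 ^ 2 + c * n2 + d) =
      π ^ 3 + a * π ^ 2 * σ + c * π * (σ ^ 2 - 2 * π) + d * (σ ^ 3 - 3 * π * σ) + a ^ 2 * π ^ 2 +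
        a * c * π * σ + a * d * (σ ^ 2 - 2 * π) + c ^ 2 * π + c * d * σ + d ^ 2 := by
  subst h1; subst h2; ring

theorem id_pell (b q X Y : ℚ) (hq : q ≠ 0) (hXY : X ^ 2 - q * Y ^ 2 = 1) (U V : ℚ)
    (hU : U = -(12 + q - b) * X + (8 + 6 * q - b) * Y)
    (hV : V = (8 + 6 * q - b) / q * X - (12 + q - b) * Y) :
    F b 1 ((6 + b - q + U) / 2) * F b 1 ((6 + b - q - U) / 2) =
      q ^ 3 * (g b (((8 - b) / q + V) / 2) * g b (((8 - b) / q - V) / 2)) := by
  have e : U ^ 2 = q * V ^ 2 + ((12 + q - b) ^ 2 - (8 + 6 * q - b) ^ 2 / q) := by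
    have : U ^ 2 - q * V ^ 2 =
        ((12 + q - b) ^ 2 - (8 + 6 * q - b) ^ 2 / q) * (X ^ 2 - q * Y ^ 2) := by
      rw [hU, hV]; field_simp; ring
    rw [hXY] at this; linarith
  have e1 := prod_id (-(2 * b + 3)) (b ^ 2 + 6 * b + 3) (-(2 * b - 1) ^ 2)
    ((6 + b - q + U) / 2) ((6 + b - q - U) / 2) (6 + b - q) (((6 + b - q) ^ 2 - U ^ 2) / 4)
    (by ring) (by ring)
  have e2 := prod_id (-3) (3 - b) (2 * b - 1)
    (((8 - b) / q + V) / 2) (((8 - b) / q - V) / 2) ((8 - b) / q) ((((8 - b) / q) ^ 2 - V ^ 2) / 4)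
    (by ring) (by ring)
  have hF : ∀ n, F b 1 n = n ^ 3 + (-(2 * b + 3)) * n ^ 2 + (b ^ 2 + 6 * b + 3) * n +
      (-(2 * b - 1) ^ 2) := by intro n; unfold F; ring
  have hg : ∀ n, g b n = n ^ 3 + (-3) * n ^ 2 + (3 - b) * n + (2 * b - 1) := by
    intro n; unfold g; ring
  rw [hF, hF, hg, hg, e1, e2, e]
  generalize V ^ 2 = w
  field_simp
  ring

/-- `g_b` has no rational root. -/
def NR (b : ℚ) : Prop := ∀ s : ℚ, g b s ≠ 0

theorem NR.ne8 {b : ℚ} (hb : NR b) : b ≠ 8 := by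
  rintro rfl
  exact hb 3 (by unfold g; norm_num)

theorem NR.ne0 {b : ℚ} (hb : NR b) : b ≠ 0 := by
  rintro rfl
  exact hb 1 (by unfold g; norm_num)

theorem NR.F_ne {b : ℚ} (hb : NR b) (n : ℚ) : F b 1 n ≠ 0 := by
  intro h0
  have key := id_nonvanish b n
  rw [h0, mul_zero] at key
  by_cases hd : n + 3 - b = 0
  · rw [hd] at key
    have h1 : 3 * n - 2 * b + 1 = 0 := by
      have : (3 * n - 2 * b + 1) ^ 3 = 0 := by linear_combination key
      exact pow_eq_zero_iff (by norm_num) |>.1 this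
    exact hb.ne8 (by linarith)
  · apply hb ((3 * n - 2 * b + 1) / (n + 3 - b))
    unfold g
    field_simp
    linear_combination key

theorem NR.Fv_ne {b : ℚ} (hb : NR b) {v : ℚ} (hv : v ≠ 0) (n : ℚ) : F b v n ≠ 0 := by
  have : n = v * (n / v) := by field_simp
  rw [this, id_scale]
  exact mul_ne_zero (pow_ne_zero _ hv) (hb.F_ne _)

theorem W_ne (b : ℚ) : W b ≠ 0 := by
  intro h
  have h1 : (4 * b - 45) ^ 2 = 297 := by unfold W at h; linear_combination 8 * h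
  have h2 : IsSquare (297 : ℚ) := ⟨4 * b - 45, by rw [← h1]; ring⟩
  rw [Rat.isSquare_iff] at h2
  have h3 : IsSquare (297 : ℤ) := by
    have := h2.1
    simpa using this
  obtain ⟨r, hr⟩ := h3
  have hr2 : r ≤ 17 ∨ 18 ≤ r := by omega
  have h5 : |r| * |r| = 297 := by rw [abs_mul_abs_self]; exact hr.symm
  have h6 : 0 ≤ |r| := abs_nonneg r
  have h7 : |r| ≤ 17 ∨ 18 ≤ |r| := by omega
  rcases h7 with h7 | h7 <;> nlinarith

theorem nu_ne {b : ℚ} (h6 : b ≠ 6) : nu b ≠ 0 := by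
  unfold nu
  have : b - 6 ≠ 0 := sub_ne_zero.2 h6
  have := W_ne b
  positivity

theorem NR.BB {b : ℚ} (hb : NR b) (h6 : b ≠ 6) : NR (BB b) := by
  intro z
  have hn := nu_ne h6
  have e : z = nu b * ((z - cc b) / nu b) + cc b := by field_simp; ring
  rw [e, id4 _ _ (W_ne b)]
  exact mul_ne_zero (pow_ne_zero _ hn) (hb.F_ne _)

end Pool.Agent.Lib_helper11.CUB
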