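import Mathlib
import Pool.Agent.Lib_helper11.CUB.Base

/-!
If `h` is constant along `F_{B,v}` on a long interval of integers, then it is constant on each side
along `g_B`, along `F_{b,1}` and along `g_b`, on rational numbers of bounded denominator.
-/

namespace Pool.Agent.Lib_helper11.CUB

/-- The rational integers inside `ℚ`. -/
abbrev ZZ : Subring ℚ := (Int.castRingHom ℚ).range

theorem mem_ZZ {x : ℚ} : x ∈ ZZ ↔ ∃ m : ℤ, (m : ℚ) = x := by
  simp [ZZ, RingHom.mem_range]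

theorem int_mem (m : ℤ) : (m : ℚ) ∈ ZZ := mem_ZZ.2 ⟨m, rfl⟩

theorem g_lower {B z : ℚ} (hz : 2 + |B| ≤ z) : 0 ≤ g B z := by
  unfold g
  have h1 := abs_nonneg B
  have h2 := le_abs_self B
  have h3 : |B| ≤ (z - 1) ^ 2 := by nlinarith
  have h4 : B * (z - 2) ≤ (z - 1) ^ 2 * (z - 2) :=
    mul_le_mul_of_nonneg_right (h2.trans h3) (by linarith)
  nlinarith [sq_nonneg (z - 1)]

theorem g_upper {B z : ℚ} (hz : 2 + |B| ≤ z) : g B z ≤ 2 * z ^ 3 := by
  unfold g
  have h1 := abs_nonneg B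
  have h2 := neg_abs_le B
  have h4 : -|B| * (z - 2) ≤ B * (z - 2) := mul_le_mul_of_nonneg_right h2 (by linarith)
  have h5 : |B| * (z - 2) ≤ z * z := by nlinarith
  have h6 : z * z ≤ z ^ 3 := by nlinarith [mul_pos (show 0 < z by linarith) (show 0 < z by linarith)]
  have h7 : (z - 1) ^ 3 ≤ z ^ 3 := by
    have : z ^ 3 - (z - 1) ^ 3 = 3 * z * (z - 1) + 1 := by ring
    nlinarith [mul_nonneg (show 0 ≤ z by linarith) (show 0 ≤ z - 1 by linarith)]
  nlinarith

theorem stepA {h : ℕ → ℤ} (hh : CM h) {B v : ℚ} (hv : 0 < v) (hB : NR B) {ε : ℤ} {x X : ℚ}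
    (hf : ∀ n : ℤ, x ≤ n → (n : ℚ) ≤ X → H h (F B v n) = ε) {z : ℚ} (hz : 2 + |B| ≤ z)
    (h0 : v * z ^ 2 ∈ ZZ) (h1 : v * (z ^ 2 + 4) ∈ ZZ) (h2 : v * z ^ 2 + v / 2 * g B z ∈ ZZ)
    (hx : x ≤ v * z ^ 2) (hX : 2 * v * z ^ 3 ≤ X) :
    H h (g B z) = h 2 ∧ H h (g B (-z)) = ε * H h v * h 2 := by
  have hz2 : 2 ≤ z := by have := abs_nonneg B; linarith
  have hz3 : z ^ 2 ≤ z ^ 3 := by nlinarith [sq_nonneg z]
  have hz4 : (4 : ℚ) ≤ z ^ 2 := by nlinarith
  obtain ⟨m0, e0⟩ := mem_ZZ.1 h0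
  obtain ⟨m1, e1⟩ := mem_ZZ.1 h1
  obtain ⟨m2, e2⟩ := mem_ZZ.1 h2
  have gl := g_lower hz
  have gu := g_upper hz
  have H0 : H h (F B v (v * z ^ 2)) = ε := by
    rw [← e0]
    apply hf
    · rw [e0]; exact hx
    · rw [e0]; refine le_trans ?_ hX
      nlinarith
  have H1 : H h (F B v (v * (z ^ 2 + 4))) = ε := by
    rw [← e1]
    apply hf
    · rw [e1]; refine hx.trans ?_
      nlinarith
    · rw [e1]; refine le_trans ?_ hX
      nlinarith
  have H2 : H h (F B v (v * z ^ 2 + v / 2 * g B z)) = ε := by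
    rw [← e2]
    apply hf
    · rw [e2]; refine hx.trans ?_
      have : 0 ≤ v / 2 * g B z := by positivity
      linarith
    · rw [e2]; refine le_trans ?_ hX
      have : v / 2 * g B z ≤ v / 2 * (2 * z ^ 3) := mul_le_mul_of_nonneg_left gu (by positivity)
      nlinarith
  have hvne : v ≠ 0 := hv.ne'
  have ee : ε * ε = 1 := by rw [← H0]; exact H_sq hh (hB.Fv_ne hvne _)
  have c1 : H h 8 * ε = H h (g B z) * ε := by
    have := congrArg (H h) (id2 B v z)
    rw [H_mul hh (by norm_num) (hB.Fv_ne hvne _), H_mul hh (hB z) (hB.Fv_ne hvne _), H2, H1] at this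
    exact this
  have c1' : H h (g B z) = h 2 := by
    rw [H_eight hh] at c1
    linear_combination (-ε) * c1 + (h 2 - H h (g B z)) * ee
  refine ⟨c1', ?_⟩
  have c2 : ε = H h v * (h 2 * H h (g B (-z))) := by
    have := congrArg (H h) (id1 B v z)
    rw [H0, H_mul hh (by simp [hvne]) (mul_ne_zero (hB z) (hB _)), H_mul hh (hB z) (hB _), H_neg,
      H_pow3 hh hvne, c1'] at this
    exact this
  have s1 := H_sq hh hvne
  have s2 := hh.sq (show 1 ≤ 2 by norm_num)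
  rw [c2]
  linear_combination (-H h (g B (-z)) * h 2 * h 2) * s1 - H h (g B (-z)) * s2

theorem stepAB {b v D : ℚ} (hb : NR b) (hb6 : b ≠ 6) (hv : 0 < v)
    (hint : ∀ n : ℚ, D * n ∈ ZZ → ∀ z : ℚ, z = nu b * n + cc b →
      v * z ^ 2 ∈ ZZ ∧ v * 4 ∈ ZZ ∧ v / 2 * g (BB b) z ∈ ZZ ∧ v / 2 * g (BB b) (-z) ∈ ZZ) :
    ∃ N c1 c2 : ℚ, 0 < N ∧ 0 < c1 ∧ 0 < c2 ∧ ∀ h : ℕ → ℤ, CM h → ∀ (x X : ℚ) (ε : ℤ),
      (∀ n : ℤ, x ≤ n → (n : ℚ) ≤ X → H h (F (BB b) v n) = ε) →
      ∃ αp αm : ℤ, ∀ n : ℚ, D * n ∈ ZZ → N ≤ |n| → x ≤ c1 * n ^ 2 → c2 * |n| ^ 3 ≤ X →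
        H h (F b 1 n) = if 0 < n then αp else αm := by
  have hB : NR (BB b) := hb.BB hb6
  have hn := nu_ne hb6
  have hμ : 0 < |nu b| := abs_pos.2 hn
  refine ⟨2 * (|cc b| + 2 + |BB b|) / |nu b|, v * |nu b| ^ 2 / 4, 16 * v * |nu b| ^ 3,
    by positivity, by positivity, by positivity, ?_⟩
  intro h hh x X ε hf
  refine ⟨H h (nu b) * (if 0 < nu b then h 2 else ε * H h v * h 2),
    H h (nu b) * (if 0 < nu b then ε * H h v * h 2 else h 2), ?_⟩
  intro n hDn hN hx hX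
  obtain ⟨z, hz⟩ : ∃ z : ℚ, z = nu b * n + cc b := ⟨_, rfl⟩
  obtain ⟨i1, i2, i3, i4⟩ := hint n hDn z hz
  have hN' : 2 * (|cc b| + 2 + |BB b|) ≤ |nu b| * |n| := by
    rw [div_le_iff₀ hμ] at hN; linarith
  have hmul : |nu b * n| = |nu b| * |n| := abs_mul _ _
  have hBn := abs_nonneg (BB b)
  have hcn := abs_nonneg (cc b)
  have key : H h (nu b) * H h (F b 1 n) = H h (g (BB b) z) := by
    rw [hz, id4 _ _ (W_ne b), H_mul hh (pow_ne_zero _ hn) (hb.F_ne _), H_pow3 hh hn]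
  have hsq := H_sq hh hn
  have key2 : H h (F b 1 n) = H h (nu b) * H h (g (BB b) z) := by
    linear_combination (-H h (F b 1 n)) * hsq + H h (nu b) * key
  -- size of `z`
  have z1 : |z| ≤ 2 * (|nu b| * |n|) := by
    rw [hz]
    calc |nu b * n + cc b| ≤ |nu b * n| + |cc b| := abs_add_le _ _
      _ ≤ _ := by rw [hmul]; linarith
  have z2 : |nu b| * |n| / 2 ≤ |z| := by
    rw [hz]
    have : |nu b * n| - |cc b| ≤ |nu b * n + cc b| := by
      have := abs_sub_abs_le_abs_sub (nu b * n) (-cc b)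
      rw [abs_neg, sub_neg_eq_add] at this
      exact this
    rw [hmul] at this
    linarith
  have z3 : 2 + |BB b| ≤ |z| := by linarith
  have x1 : x ≤ v * |z| ^ 2 := by
    refine hx.trans ?_
    have : (|nu b| * |n| / 2) ^ 2 ≤ |z| ^ 2 := pow_le_pow_left₀ (by positivity) z2 2
    have e : v * |nu b| ^ 2 / 4 * n ^ 2 = v * (|nu b| * |n| / 2) ^ 2 := by
      rw [div_pow, mul_pow, sq_abs n]; ring
    rw [e]
    exact mul_le_mul_of_nonneg_left this hv.le
  have x2 : 2 * v * |z| ^ 3 ≤ X := by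
    refine le_trans ?_ hX
    have : |z| ^ 3 ≤ (2 * (|nu b| * |n|)) ^ 3 := pow_le_pow_left₀ (abs_nonneg _) z1 3
    calc 2 * v * |z| ^ 3 ≤ 2 * v * (2 * (|nu b| * |n|)) ^ 3 :=
          mul_le_mul_of_nonneg_left this (by positivity)
      _ = _ := by ring
  -- sign of `z`
  have hnz : n ≠ 0 := by
    rintro rfl
    rw [abs_zero, mul_zero] at hN'
    linarith
  have sgn : (0 < z ↔ 0 < nu b * n) := by
    have hc : |cc b| < |nu b * n| := by rw [hmul]; linarith
    have hc1 := neg_abs_le (cc b)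
    have hc2 := le_abs_self (cc b)
    constructor
    · intro hp
      by_contra hneg
      have : nu b * n ≤ 0 := not_lt.1 hneg
      rw [abs_of_nonpos this] at hc
      linarith
    · intro hp
      rw [abs_of_pos hp] at hc
      linarith
  rw [key2]
  rcases lt_or_gt_of_ne (show z ≠ 0 by intro h0; rw [h0, abs_zero] at z3; linarith) with hneg | hpos
  · -- `z < 0`
    have e : |z| = -z := abs_of_neg hneg
    have hA := stepA hh hv hB hf (z := -z) (by rw [← e]; exact z3)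
      (by simpa using i1) (by rw [mul_add]; exact add_mem (by simpa using i1) i2)
      (add_mem (by simpa using i1) i4) (by rw [← e]; exact x1) (by rw [← e]; exact x2)
    have hA2 := hA.2
    rw [neg_neg] at hA2
    rw [hA2]
    have hnn : ¬ 0 < nu b * n := fun hp => absurd (sgn.2 hp) (by linarith)
    by_cases hnu : 0 < nu b
    · have : ¬ 0 < n := fun hp => hnn (mul_pos hnu hp)
      simp [hnu, this]
    · have hnu' : nu b < 0 := lt_of_le_of_ne (not_lt.1 hnu) hn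
      have : 0 < n := by
        rcases lt_or_gt_of_ne hnz with h3 | h3
        · exact absurd (mul_pos_of_neg_of_neg hnu' h3) hnn
        · exact h3
      simp [hnu, this]
  · have e : |z| = z := abs_of_pos hpos
    rw [e] at z3 x1 x2
    have hA := stepA hh hv hB hf (z := z) z3 i1 (by rw [mul_add]; exact add_mem i1 i2)
      (add_mem i1 i3) x1 x2
    rw [hA.1]
    have hnn : 0 < nu b * n := sgn.1 hpos
    by_cases hnu : 0 < nu b
    · have : 0 < n := (pos_iff_pos_of_mul_pos hnn).1 hnu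
      simp [hnu, this]
    · have hnu' : nu b < 0 := lt_of_le_of_ne (not_lt.1 hnu) hn
      have : ¬ 0 < n := by
        intro h3
        have := mul_neg_of_neg_of_pos hnu' h3
        linarith
      simp [hnu, this]

theorem stepC {h : ℕ → ℤ} (hh : CM h) {b D A R : ℚ} (hb : NR b) {αp αm : ℤ}
    (hF : ∀ n : ℚ, D * n ∈ ZZ → A ≤ |n| → |n| ≤ R → H h (F b 1 n) = if 0 < n then αp else αm)
    {s : ℚ} (h1 : D * (s ^ 2 + 4) ∈ ZZ) (h2 : D * (s ^ 2 + g b s / 2) ∈ ZZ)
    (h3 : D * (s ^ 2 + g b (-s) / 2) ∈ ZZ) (hs : 2 + |b| ≤ s) (hA : A ≤ s) (hR : 10 * s ^ 3 ≤ R) :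
    H h (g b s) = h 2 ∧ H h (g b (-s)) = h 2 * αm * αp := by
  have hbn := abs_nonneg b
  have hs2 : 2 ≤ s := by linarith
  have hs3 : s ^ 2 ≤ s ^ 3 := by nlinarith [sq_nonneg s]
  have hs4 : s ≤ s ^ 2 := by nlinarith
  have gl := g_lower hs
  have gu := g_upper hs
  have F1 : H h (F b 1 (s ^ 2 + 4)) = αp := by
    have := hF (s ^ 2 + 4) h1 (by rw [abs_of_pos (by positivity)]; linarith)
      (by rw [abs_of_pos (by positivity)]; nlinarith)
    rwa [if_pos (by positivity)] at this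
  have F2 : H h (F b 1 (s ^ 2 + g b s / 2)) = αp := by
    have hp : 0 < s ^ 2 + g b s / 2 := by nlinarith
    have := hF _ h2 (by rw [abs_of_pos hp]; linarith) (by rw [abs_of_pos hp]; linarith)
    rwa [if_pos hp] at this
  have gm : g b (-s) = -((s + 1) ^ 3 - b * (s + 2)) := by unfold g; ring
  have hb1 := le_abs_self b
  have hb2 := neg_abs_le b
  have m1 : b * (s + 2) ≤ |b| * (s + 2) := mul_le_mul_of_nonneg_right hb1 (by linarith)
  have m2 : -|b| * (s + 2) ≤ b * (s + 2) := mul_le_mul_of_nonneg_right hb2 (by linarith)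
  have m3 : |b| * (s + 2) ≤ (s - 2) * (s + 2) := mul_le_mul_of_nonneg_right (by linarith) (by linarith)
  have F3 : H h (F b 1 (s ^ 2 + g b (-s) / 2)) = αm := by
    have hp : s ^ 2 + g b (-s) / 2 ≤ -s := by rw [gm]; nlinarith [sq_nonneg s]
    have hp' : s ^ 2 + g b (-s) / 2 < 0 := by linarith
    have := hF _ h3 (by rw [abs_of_neg hp']; linarith) (by
      rw [abs_of_neg hp', gm]
      nlinarith [sq_nonneg s])
    rwa [if_neg (by linarith)] at this
  have j1 := congrArg (H h) (id2 b 1 s)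
  rw [show (1 : ℚ) * s ^ 2 + 1 / 2 * g b s = s ^ 2 + g b s / 2 by ring, one_mul,
    H_mul hh (by norm_num) (hb.F_ne _), H_mul hh (hb s) (hb.F_ne _), F1, F2, H_eight hh] at j1
  have j2 := congrArg (H h) (id2 b 1 (-s))
  rw [show (1 : ℚ) * (-s) ^ 2 + 1 / 2 * g b (-s) = s ^ 2 + g b (-s) / 2 by ring, one_mul,
    show (-s) ^ 2 + 4 = s ^ 2 + 4 by ring,
    H_mul hh (by norm_num) (hb.F_ne _), H_mul hh (hb _) (hb.F_ne _), F1, F3, H_eight hh] at j2
  have p1 : αp * αp = 1 := by rw [← F1]; exact H_sq hh (hb.F_ne _)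
  have k1 : H h (g b s) = h 2 := by linear_combination (-αp) * j1 + (h 2 - H h (g b s)) * p1
  have k2 : H h (g b (-s)) = h 2 * αm * αp := by
    linear_combination (-αp) * j2 - (H h (g b (-s))) * p1
  exact ⟨k1, k2⟩

end Pool.Agent.Lib_helper11.CUB
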