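import Mathlib
import Pool.Agent.Lib_helper11.CUB.Steps
import Pool.Agent.Lib_helper3.CYC.Unit

/-!
Rational solutions, at every scale and with bounded denominators, of
`F_{b,1}(s₁) F_{b,1}(s₂) = q³ g_b(s₃) g_b(s₄)`, with `s₁, s₃ > 0 > s₂, s₄`.
-/

namespace Pool.Agent.Lib_helper11.CUB

/-- Lower bound for a linear form at solutions of Pell's equation. -/
theorem pell_form {a c q : ℚ} (hq : 1 ≤ q) (hM : q * a ^ 2 - c ^ 2 ≠ 0) :
    ∃ δ X0 : ℚ, 0 < δ ∧ ∀ X Y : ℚ, X ^ 2 - q * Y ^ 2 = 1 → 1 ≤ X → 1 ≤ Y → X0 ≤ X →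
      δ * X ≤ |a * X + c * Y| ∧ |a * X + c * Y| ≤ (|a| + |c|) * X := by
  have hac : 0 < |a| + |c| := by
    rcases eq_or_ne a 0 with h | h
    · rcases eq_or_ne c 0 with h' | h'
      · exfalso; apply hM; rw [h, h']; ring
      · have := abs_pos.2 h'; have := abs_nonneg a; linarith
    · have := abs_pos.2 h; have := abs_nonneg c; linarith
  have hM' : 0 < |q * a ^ 2 - c ^ 2| := abs_pos.2 hM
  refine ⟨|q * a ^ 2 - c ^ 2| / (2 * q * (|a| + |c|)), 2 * c ^ 2 / |q * a ^ 2 - c ^ 2|,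
    by positivity, ?_⟩
  intro X Y hXY hX hY hX0
  have hYX : Y ≤ X := by
    have : Y ^ 2 ≤ X ^ 2 := by nlinarith [sq_nonneg Y]
    exact abs_le_of_sq_le_sq' this (by linarith) |>.2
  have up : ∀ c' : ℚ, |a * X + c' * Y| ≤ (|a| + |c'|) * X := by
    intro c'
    calc |a * X + c' * Y| ≤ |a * X| + |c' * Y| := abs_add_le _ _
      _ = |a| * X + |c'| * Y := by
        rw [abs_mul, abs_mul, abs_of_pos (show 0 < X by linarith),
          abs_of_pos (show 0 < Y by linarith)]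
      _ ≤ |a| * X + |c'| * X := by
        have := mul_le_mul_of_nonneg_left hYX (abs_nonneg c')
        linarith
      _ = _ := by ring
  refine ⟨?_, up c⟩
  have e : q * ((a * X + c * Y) * (a * X + -c * Y)) = (q * a ^ 2 - c ^ 2) * X ^ 2 + c ^ 2 := by
    linear_combination (c ^ 2) * hXY
  have h1 : q * (|a * X + c * Y| * |a * X + -c * Y|) = |(q * a ^ 2 - c ^ 2) * X ^ 2 + c ^ 2| := by
    rw [← e, abs_mul, abs_mul, abs_of_pos (show 0 < q by linarith)]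
  have h2 : |q * a ^ 2 - c ^ 2| * X ^ 2 - c ^ 2 ≤ |(q * a ^ 2 - c ^ 2) * X ^ 2 + c ^ 2| := by
    have h3 := abs_sub_abs_le_abs_sub ((q * a ^ 2 - c ^ 2) * X ^ 2) (-c ^ 2)
    rw [abs_mul, abs_neg, abs_of_nonneg (sq_nonneg c), abs_of_nonneg (sq_nonneg X),
      sub_neg_eq_add] at h3
    exact h3
  have h3 : 2 * c ^ 2 ≤ |q * a ^ 2 - c ^ 2| * X ^ 2 := by
    rw [div_le_iff₀ hM'] at hX0
    have : X * |q * a ^ 2 - c ^ 2| ≤ X ^ 2 * |q * a ^ 2 - c ^ 2| := by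
      apply mul_le_mul_of_nonneg_right _ hM'.le
      nlinarith
    linarith
  have h4 := up (-c)
  rw [abs_neg] at h4
  have h5 : |q * a ^ 2 - c ^ 2| * X ^ 2 / 2 ≤ q * (|a * X + c * Y| * ((|a| + |c|) * X)) := by
    have : q * (|a * X + c * Y| * |a * X + -c * Y|) ≤ q * (|a * X + c * Y| * ((|a| + |c|) * X)) :=
      mul_le_mul_of_nonneg_left (mul_le_mul_of_nonneg_left h4 (abs_nonneg _)) (by linarith)
    linarith
  have h6 : |q * a ^ 2 - c ^ 2| * X ≤ |a * X + c * Y| * (2 * q * (|a| + |c|)) := by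
    have hXp : 0 < X := by linarith
    have : X * (|q * a ^ 2 - c ^ 2| * X) ≤ X * (|a * X + c * Y| * (2 * q * (|a| + |c|))) := by
      nlinarith
    exact le_of_mul_le_mul_left this hXp
  rw [div_mul_eq_mul_div, div_le_iff₀ (by positivity)]
  exact h6

theorem not_isSquare_prime {q : ℕ} (hq : q.Prime) : ¬ IsSquare (q : ℤ) := by
  rintro ⟨r, hr⟩
  have h1 : Prime (q : ℤ) := Nat.prime_iff_prime_int.1 hq
  exact h1.irreducible.not_isSquare ⟨r, hr⟩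

theorem quad_ne {q : ℕ} (hq : q.Prime) (b : ℚ) :
    (8 + 6 * q - b) ^ 2 - q * (12 + q - b) ^ 2 ≠ 0 := by
  intro h
  by_cases h1 : (12 + q - b : ℚ) = 0
  · rw [h1] at h
    have h2 : (8 + 6 * q - b : ℚ) = 0 := by
      have : (8 + 6 * q - b : ℚ) ^ 2 = 0 := by linear_combination h
      exact pow_eq_zero_iff (by norm_num) |>.1 this
    have h3 : (5 : ℚ) * q = 4 := by linarith
    have h4 : 5 * q = 4 := by exact_mod_cast h3
    omega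
  · have h2 : IsSquare (q : ℚ) := by
      refine ⟨(8 + 6 * q - b) / (12 + q - b), ?_⟩
      field_simp
      linear_combination -h
    have h3 : IsSquare (q : ℤ) := by
      have : IsSquare ((q : ℤ) : ℚ) := by exact_mod_cast h2
      rwa [Rat.isSquare_intCast_iff] at this
    exact not_isSquare_prime hq h3

theorem abs_pair (f : ℚ → ℚ) (σ u : ℚ) :
    f ((σ + |u|) / 2) * f ((σ - |u|) / 2) = f ((σ + u) / 2) * f ((σ - u) / 2) := by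
  rcases le_total 0 u with h | h
  · rw [abs_of_nonneg h]
  · rw [abs_of_nonpos h, mul_comm, sub_neg_eq_add, ← sub_eq_add_neg]

theorem abs_lat {D σ u : ℚ} (h1 : D * ((σ + u) / 2) ∈ ZZ) (h2 : D * ((σ - u) / 2) ∈ ZZ) :
    D * ((σ + |u|) / 2) ∈ ZZ ∧ D * ((σ - |u|) / 2) ∈ ZZ := by
  rcases le_total 0 u with h | h
  · rw [abs_of_nonneg h]; exact ⟨h1, h2⟩
  · rw [abs_of_nonpos h, sub_neg_eq_add, ← sub_eq_add_neg]; exact ⟨h2, h1⟩

theorem abs_size {σ u T K : ℚ} (h1 : |σ| + 2 * T ≤ |u|) (h2 : |u| + |σ| ≤ 2 * (K * T)) :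
    (T ≤ (σ + |u|) / 2 ∧ (σ + |u|) / 2 ≤ K * T) ∧
      (T ≤ -((σ - |u|) / 2) ∧ -((σ - |u|) / 2) ≤ K * T) := by
  have h3 := le_abs_self σ
  have h4 := neg_abs_le σ
  refine ⟨⟨?_, ?_⟩, ?_, ?_⟩ <;> linarith

theorem size_aux {σ L T δ k X C C' E u : ℚ} (hT : 1 ≤ T) (hσ : |σ| + 2 ≤ L) (hδ : 0 < δ)
    (hk : L ≤ k * δ) (b1 : k * T ≤ X) (b2 : X ≤ E * T) (lu : δ * X ≤ |u|) (uu : |u| ≤ C * X)
    (hC : 0 ≤ C) (hC' : 0 ≤ C') (hE : 0 ≤ E) :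
    |σ| + 2 * T ≤ |u| ∧ |u| + |σ| ≤ 2 * ((1 + L + (C + C') * E) * T) := by
  have hσn := abs_nonneg σ
  have h1 : L * T ≤ δ * X := by
    calc L * T ≤ (k * δ) * T := mul_le_mul_of_nonneg_right hk (by linarith)
      _ = δ * (k * T) := by ring
      _ ≤ δ * X := mul_le_mul_of_nonneg_left b1 hδ.le
  have h5 : |σ| + 2 * T ≤ L * T := by
    have h6 : (|σ| + 2) * T ≤ L * T := mul_le_mul_of_nonneg_right hσ (by linarith)
    have h7 : |σ| * 1 ≤ |σ| * T := mul_le_mul_of_nonneg_left hT hσn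
    linarith
  refine ⟨by linarith, ?_⟩
  have h2 : C * X ≤ C * (E * T) := mul_le_mul_of_nonneg_left b2 hC
  have h3 : 0 ≤ C' * E * T := by positivity
  have h4 : 0 ≤ C * E * T := by positivity
  have h6 : 0 ≤ L * T := by
    have : 0 ≤ L := by linarith
    positivity
  linarith

/-- Bounded denominators. -/
theorem pell_lat {q S : ℤ} {b : ℚ} (hq0 : (q : ℚ) ≠ 0) (hbS : b * S ^ 2 ∈ ZZ) {X Y : ℤ}
    (hX : 2 * q * S ^ 2 ∣ X - 1) (hY : 2 * S ^ 2 ∣ Y) {u w : ℚ}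
    (hu : u = -(12 + q - b) * X + (8 + 6 * q - b) * Y)
    (hw : w = (8 + 6 * q - b) / q * X - (12 + q - b) * Y) :
    (q * S ^ 2 * ((6 + b - q + u) / 2) ∈ ZZ ∧ q * S ^ 2 * ((6 + b - q - u) / 2) ∈ ZZ) ∧
    (q * S ^ 2 * (((8 - b) / q + w) / 2) ∈ ZZ ∧ q * S ^ 2 * (((8 - b) / q - w) / 2) ∈ ZZ) := by
  obtain ⟨k, hk⟩ := hX
  obtain ⟨l, hl⟩ := hY
  obtain ⟨m, hm⟩ := mem_ZZ.1 hbS
  have hX' : (X : ℚ) = 1 + 2 * q * S ^ 2 * k := by
    have : X = 1 + 2 * q * S ^ 2 * k := by linear_combination hk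
    rw [this]; push_cast; ring
  have hY' : (Y : ℚ) = 2 * S ^ 2 * l := by rw [hl]; push_cast; ring
  have hw' : w * q = (8 + 6 * q - b) * X - q * (12 + q - b) * Y := by
    rw [hw]; field_simp
  refine ⟨⟨?_, ?_⟩, ?_, ?_⟩
  · refine mem_ZZ.2 ⟨q * (m - (3 + q) * S ^ 2) +
        q * S ^ 2 * (-(12 + q) * q * S ^ 2 * k + q * k * m + (8 + 6 * q) * S ^ 2 * l - m * l), ?_⟩
    rw [hu, hX', hY']; push_cast
    linear_combination (q + q ^ 2 * S ^ 2 * k - q * S ^ 2 * l : ℚ) * hm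
  · refine mem_ZZ.2 ⟨9 * q * S ^ 2 -
        q * S ^ 2 * (-(12 + q) * q * S ^ 2 * k + q * k * m + (8 + 6 * q) * S ^ 2 * l - m * l), ?_⟩
    rw [hu, hX', hY']; push_cast
    linear_combination (- q ^ 2 * S ^ 2 * k + q * S ^ 2 * l : ℚ) * hm
  · refine mem_ZZ.2 ⟨S ^ 2 * (8 + 3 * q) - m +
        q * S ^ 2 * ((8 + 6 * q) * S ^ 2 * k - m * k - (12 + q) * S ^ 2 * l + m * l), ?_⟩
    have e : (q : ℚ) * S ^ 2 * (((8 - b) / q + w) / 2) = S ^ 2 * ((8 - b) + w * q) / 2 := by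
      field_simp
    rw [e, hw', hX', hY']; push_cast
    linear_combination (-1 - q * S ^ 2 * k + q * S ^ 2 * l : ℚ) * hm
  · refine mem_ZZ.2 ⟨-3 * q * S ^ 2 -
        q * S ^ 2 * ((8 + 6 * q) * S ^ 2 * k - m * k - (12 + q) * S ^ 2 * l + m * l), ?_⟩
    have e : (q : ℚ) * S ^ 2 * (((8 - b) / q - w) / 2) = S ^ 2 * ((8 - b) - w * q) / 2 := by
      field_simp
    rw [e, hw', hX', hY']; push_cast
    linear_combination (q * S ^ 2 * k - q * S ^ 2 * l : ℚ) * hm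

/-- The solutions. -/
theorem pell_points {q : ℕ} (hq : q.Prime) {b : ℚ} {S : ℤ} (hS : S ≠ 0)
    (hbS : b * S ^ 2 ∈ ZZ) :
    ∃ K1 : ℚ, 1 ≤ K1 ∧ ∀ T : ℚ, 1 ≤ T → ∃ s1 s2 s3 s4 : ℚ,
      F b 1 s1 * F b 1 s2 = q ^ 3 * (g b s3 * g b s4) ∧
      (q * S ^ 2 * s1 ∈ ZZ ∧ q * S ^ 2 * s2 ∈ ZZ ∧ q * S ^ 2 * s3 ∈ ZZ ∧ q * S ^ 2 * s4 ∈ ZZ) ∧
      (T ≤ s1 ∧ s1 ≤ K1 * T) ∧ (T ≤ -s2 ∧ -s2 ≤ K1 * T) ∧
      (T ≤ s3 ∧ s3 ≤ K1 * T) ∧ (T ≤ -s4 ∧ -s4 ≤ K1 * T) := by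
  have hq1 : (1 : ℚ) ≤ q := by exact_mod_cast hq.one_lt.le
  have hq0 : (q : ℚ) ≠ 0 := by linarith
  have hne := quad_ne hq b
  obtain ⟨δU, XU, hδU, hU⟩ := pell_form (a := -(12 + q - b)) (c := 8 + 6 * q - b) hq1
    (by intro h; apply hne; linear_combination -h)
  obtain ⟨δV, XV, hδV, hV⟩ := pell_form (a := (8 + 6 * q - b) / q) (c := -(12 + q - b)) hq1
    (by
      intro h; apply hne
      have : q * ((8 + 6 * q - b) / q) ^ 2 = (8 + 6 * q - b) ^ 2 / q := by field_simp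
      rw [this] at h
      field_simp at h
      linear_combination h)
  obtain ⟨Uc, hUc, hunits⟩ := Pool.Agent.Lib_helper3.CYC.units (d := q) (W := S ^ 2)
    (by exact_mod_cast hq.pos) (not_isSquare_prime hq) (by positivity)
  obtain ⟨CU, hCU⟩ : ∃ C : ℚ, C = |(-(12 + q - b) : ℚ)| + |(8 + 6 * q - b : ℚ)| := ⟨_, rfl⟩
  obtain ⟨CV, hCV⟩ : ∃ C : ℚ, C = |((8 + 6 * q - b) / q : ℚ)| + |(-(12 + q - b) : ℚ)| := ⟨_, rfl⟩
  obtain ⟨σ1, hσ1⟩ : ∃ x : ℚ, x = 6 + b - q := ⟨_, rfl⟩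
  obtain ⟨σ2, hσ2⟩ : ∃ x : ℚ, x = (8 - b) / q := ⟨_, rfl⟩
  obtain ⟨L, hL⟩ : ∃ L : ℚ, L = |σ1| + |σ2| + 2 := ⟨_, rfl⟩
  have hσ1n := abs_nonneg σ1
  have hσ2n := abs_nonneg σ2
  have hL0 : 0 < L := by linarith
  obtain ⟨κ, hκ⟩ := exists_nat_ge (max (max XU XV) (max (L / δU) (L / δV)))
  have k1 : XU ≤ κ + 1 := by
    have := (le_max_left XU XV).trans ((le_max_left _ _).trans hκ); linarith
  have k2 : XV ≤ κ + 1 := by
    have := (le_max_right XU XV).trans ((le_max_left _ _).trans hκ); linarith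
  have k3 : L / δU ≤ κ + 1 := by
    have := (le_max_left (L / δU) (L / δV)).trans ((le_max_right _ _).trans hκ); linarith
  have k4 : L / δV ≤ κ + 1 := by
    have := (le_max_right (L / δU) (L / δV)).trans ((le_max_right _ _).trans hκ); linarith
  rw [div_le_iff₀ hδU] at k3
  rw [div_le_iff₀ hδV] at k4
  have hκ0 : (0 : ℚ) ≤ κ := Nat.cast_nonneg κ
  have hCU0 : 0 ≤ CU := by rw [hCU]; positivity
  have hCV0 : 0 ≤ CV := by rw [hCV]; positivity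
  have hUcq : (1 : ℚ) ≤ (Uc : ℚ) := by exact_mod_cast hUc
  refine ⟨1 + L + (CU + CV) * (Uc * (2 * (κ + 1))), ?_, ?_⟩
  · have : 0 ≤ (CU + CV) * (Uc * (2 * (κ + 1))) := by positivity
    linarith
  intro T hT
  obtain ⟨X, Y, hXY, hX1, hX2⟩ := hunits ⌈((κ : ℚ) + 1) * T⌉ (by
    rw [Int.one_le_ceil_iff]; positivity)
  obtain ⟨e1, e2, e2', e3, e4⟩ := hXY
  have b1 : ((κ : ℚ) + 1) * T ≤ X := (Int.le_ceil _).trans (by exact_mod_cast hX1)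
  have b2 : (X : ℚ) ≤ Uc * (2 * (κ + 1)) * T := by
    have h1 : (X : ℚ) ≤ Uc * (⌈((κ : ℚ) + 1) * T⌉ : ℤ) := by exact_mod_cast hX2
    have h2 : ((⌈((κ : ℚ) + 1) * T⌉ : ℤ) : ℚ) ≤ ((κ : ℚ) + 1) * T + 1 := (Int.ceil_lt_add_one _).le
    have h3 : (1 : ℚ) ≤ ((κ : ℚ) + 1) * T := by nlinarith
    calc (X : ℚ) ≤ Uc * (⌈((κ : ℚ) + 1) * T⌉ : ℤ) := h1
      _ ≤ Uc * (2 * (((κ : ℚ) + 1) * T)) := by
        apply mul_le_mul_of_nonneg_left _ (by linarith)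
        linarith
      _ = _ := by ring
  have hXYq : (X : ℚ) ^ 2 - q * (Y : ℚ) ^ 2 = 1 := by exact_mod_cast e1
  have hXq : (1 : ℚ) ≤ X := by exact_mod_cast e2
  have hYq : (1 : ℚ) ≤ Y := by exact_mod_cast e2'
  have hκT : (κ : ℚ) + 1 ≤ ((κ : ℚ) + 1) * T := by nlinarith
  obtain ⟨u, hu⟩ : ∃ u : ℚ, u = -(12 + q - b) * X + (8 + 6 * q - b) * Y := ⟨_, rfl⟩
  obtain ⟨w, hw⟩ : ∃ w : ℚ, w = (8 + 6 * q - b) / q * X - (12 + q - b) * Y := ⟨_, rfl⟩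
  obtain ⟨lu, uu⟩ := hU X Y hXYq hXq hYq (by linarith)
  obtain ⟨lw, uw⟩ := hV X Y hXYq hXq hYq (by linarith)
  rw [← hu, ← hCU] at uu
  rw [← hu] at lu
  have hw' : (8 + 6 * q - b) / q * (X : ℚ) + -(12 + q - b) * Y = w := by rw [hw]; ring
  rw [hw', ← hCV] at uw
  rw [hw'] at lw
  have hid := id_pell b q X Y hq0 hXYq u w hu hw
  rw [← hσ1, ← hσ2] at hid
  -- sizes
  have hE : (0 : ℚ) ≤ Uc * (2 * (κ + 1)) := by positivity
  have su' := size_aux (σ := σ1) (u := u) hT (by linarith) hδU k3 b1 b2 lu uu hCU0 hCV0 hE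
  have sw' := size_aux (σ := σ2) (u := w) hT (by linarith) hδV k4 b1 b2 lw uw hCV0 hCU0 hE
  rw [add_comm CV CU] at sw'
  have su := abs_size su'.1 su'.2
  have sw := abs_size sw'.1 sw'.2
  -- lattices
  have hlat := pell_lat (q := q) (S := S) (b := b) (by exact_mod_cast hq0) hbS e3 e4 (u := u)
    (w := w) (by rw [hu]; push_cast; ring) (by rw [hw]; push_cast; ring)
  rw [Int.cast_natCast, ← hσ1, ← hσ2] at hlat
  have L1 := abs_lat hlat.1.1 hlat.1.2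
  have L2 := abs_lat hlat.2.1 hlat.2.2
  refine ⟨_, _, _, _, ?_, ⟨L1.1, L1.2, L2.1, L2.2⟩, su.1, su.2, sw.1, sw.2⟩
  rw [abs_pair (F b 1) σ1 u, abs_pair (g b) σ2 w]
  exact hid

end Pool.Agent.Lib_helper11.CUB
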