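import Mathlib
import Pool.Agent.Lib_helper11.CUB.Pell

/-!
`h` is not constant along `F_{B,v}` on `[x, K x^5]`, `B = 27 b (b - 6)^3 / W(b)^2`, if `h(q) = -1`.
-/

namespace Pool.Agent.Lib_helper11.CUB

/-- `S^4 W(P^3/S^2)`. -/
def W0 (P S : ℤ) : ℤ := 2 * P ^ 6 - 45 * P ^ 3 * S ^ 2 + 216 * S ^ 4

theorem W0_eq {P S : ℤ} (hS : S ≠ 0) :
    (W0 P S : ℚ) = (S : ℚ) ^ 4 * W ((P : ℚ) ^ 3 / (S : ℚ) ^ 2) := by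
  have hS' : (S : ℚ) ≠ 0 := by exact_mod_cast hS
  unfold W0 W
  push_cast
  field_simp

theorem W0_ne {P S : ℤ} (hS : S ≠ 0) : (W0 P S : ℚ) ≠ 0 := by
  have hS' : (S : ℚ) ≠ 0 := by exact_mod_cast hS
  rw [W0_eq hS]
  exact mul_ne_zero (pow_ne_zero _ hS') (W_ne _)

theorem nu_eq {P S : ℤ} (hS : S ≠ 0) :
    W0 P S * nu ((P : ℚ) ^ 3 / (S : ℚ) ^ 2) = (9 * (P ^ 3 - 6 * S ^ 2) * S ^ 2 : ℤ) := by
  have hS' : (S : ℚ) ≠ 0 := by exact_mod_cast hS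
  have hW := W_ne ((P : ℚ) ^ 3 / (S : ℚ) ^ 2)
  rw [W0_eq hS]
  unfold nu
  rw [mul_assoc, mul_div_cancel₀ _ hW]
  push_cast
  field_simp

theorem cc_eq {P S : ℤ} (hS : S ≠ 0) :
    W0 P S * cc ((P : ℚ) ^ 3 / (S : ℚ) ^ 2) =
      (W0 P S - 9 * (P ^ 3 - 6 * S ^ 2) * S ^ 2 - 6 * P ^ 3 * (P ^ 3 - 6 * S ^ 2) : ℤ) := by
  have hS' : (S : ℚ) ≠ 0 := by exact_mod_cast hS
  have hW := W_ne ((P : ℚ) ^ 3 / (S : ℚ) ^ 2)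
  push_cast
  rw [W0_eq hS]
  unfold cc
  rw [mul_assoc, mul_div_cancel₀ _ hW]
  field_simp

theorem BB_eq {P S : ℤ} (hS : S ≠ 0) :
    (W0 P S : ℚ) ^ 2 * BB ((P : ℚ) ^ 3 / (S : ℚ) ^ 2) =
      (27 * P ^ 3 * (P ^ 3 - 6 * S ^ 2) ^ 3 : ℤ) := by
  have hS' : (S : ℚ) ≠ 0 := by exact_mod_cast hS
  have hW := W_ne ((P : ℚ) ^ 3 / (S : ℚ) ^ 2)
  rw [W0_eq hS]
  unfold BB
  rw [mul_pow, mul_assoc, mul_div_cancel₀ _ (pow_ne_zero 2 hW)]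
  push_cast
  field_simp

/-- Integrality along the first chain. -/
theorem lat_main {P S D1 j : ℤ} (hS : S ≠ 0) {v : ℚ}
    (hv : v = 2 * (W0 P S : ℚ) ^ 3 * (D1 : ℚ) ^ 3 * j) {n : ℚ} (hn : (D1 : ℚ) * n ∈ ZZ) {z : ℚ}
    (hz : z = nu ((P : ℚ) ^ 3 / (S : ℚ) ^ 2) * n + cc ((P : ℚ) ^ 3 / (S : ℚ) ^ 2)) :
    v * z ^ 2 ∈ ZZ ∧ v * 4 ∈ ZZ ∧ v / 2 * g (BB ((P : ℚ) ^ 3 / (S : ℚ) ^ 2)) z ∈ ZZ ∧
      v / 2 * g (BB ((P : ℚ) ^ 3 / (S : ℚ) ^ 2)) (-z) ∈ ZZ := by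
  obtain ⟨m, hm⟩ := mem_ZZ.1 hn
  have e1 := nu_eq (P := P) hS
  have e2 := cc_eq (P := P) hS
  have e3 := BB_eq (P := P) hS
  obtain ⟨y, hy⟩ : ∃ y : ℤ, (y : ℚ) = W0 P S * D1 * z := by
    refine ⟨(9 * (P ^ 3 - 6 * S ^ 2) * S ^ 2) * m +
      (W0 P S - 9 * (P ^ 3 - 6 * S ^ 2) * S ^ 2 - 6 * P ^ 3 * (P ^ 3 - 6 * S ^ 2)) * D1, ?_⟩
    rw [hz]
    push_cast at e1 e2 ⊢
    linear_combination (9 * ((P : ℚ) ^ 3 - 6 * S ^ 2) * S ^ 2) * hm - (D1 * n) * e1 - D1 * e2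
  generalize BB ((P : ℚ) ^ 3 / (S : ℚ) ^ 2) = B at e3 ⊢
  generalize (27 * P ^ 3 * (P ^ 3 - 6 * S ^ 2) ^ 3 : ℤ) = E at e3
  generalize W0 P S = w at *
  clear hm e1 e2 hz hn
  refine ⟨mem_ZZ.2 ⟨2 * w * D1 * j * y ^ 2, ?_⟩, mem_ZZ.2 ⟨8 * w ^ 3 * D1 ^ 3 * j, ?_⟩,
    mem_ZZ.2 ⟨j * (y - w * D1) ^ 3 - j * D1 ^ 2 * E * (y - 2 * w * D1), ?_⟩,
    mem_ZZ.2 ⟨j * (-y - w * D1) ^ 3 - j * D1 ^ 2 * E * (-y - 2 * w * D1), ?_⟩⟩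
  · push_cast; rw [hy, hv]; ring
  · push_cast; rw [hv]; ring
  · push_cast; rw [hy, hv, ← e3]; unfold g; ring
  · push_cast; rw [hy, hv, ← e3]; unfold g; ring

/-- Integrality along the second chain. -/
theorem lat_two {q S : ℤ} {b s : ℚ} (hbS : b * S ^ 2 ∈ ZZ) (hs : q * S ^ 2 * s ∈ ZZ) :
    ((2 * (q * S ^ 2) ^ 3 : ℤ) : ℚ) * s ∈ ZZ ∧
    ((2 * (q * S ^ 2) ^ 3 : ℤ) : ℚ) * (s ^ 2 + 4) ∈ ZZ ∧
    ((2 * (q * S ^ 2) ^ 3 : ℤ) : ℚ) * (s ^ 2 + g b s / 2) ∈ ZZ ∧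
    ((2 * (q * S ^ 2) ^ 3 : ℤ) : ℚ) * (s ^ 2 + g b (-s) / 2) ∈ ZZ := by
  obtain ⟨m, hm⟩ := mem_ZZ.1 hbS
  obtain ⟨y, hy⟩ := mem_ZZ.1 hs
  refine ⟨mem_ZZ.2 ⟨2 * (q * S ^ 2) ^ 2 * y, ?_⟩,
    mem_ZZ.2 ⟨2 * (q * S ^ 2) * y ^ 2 + 8 * (q * S ^ 2) ^ 3, ?_⟩,
    mem_ZZ.2 ⟨2 * (q * S ^ 2) * y ^ 2 + (y - q * S ^ 2) ^ 3 -
      (q * S ^ 2) * q * m * (y - 2 * (q * S ^ 2)), ?_⟩,
    mem_ZZ.2 ⟨2 * (q * S ^ 2) * y ^ 2 + (-y - q * S ^ 2) ^ 3 -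
      (q * S ^ 2) * q * m * (-y - 2 * (q * S ^ 2)), ?_⟩⟩
  · push_cast; rw [hy]; ring
  · push_cast; rw [hy]; ring
  · push_cast; rw [hy, hm]; unfold g; ring
  · push_cast; rw [hy, hm]; unfold g; ring

/-- Growth. -/
theorem scale_T (x : ℕ) (hx : 1 ≤ x) :
    (x : ℚ) ≤ ((Nat.sqrt x + 1 : ℕ) : ℚ) ^ 2 ∧
      ((Nat.sqrt x + 1 : ℕ) : ℚ) ^ 9 ≤ 512 * (x : ℚ) ^ 5 := by
  have h1 : x ≤ (Nat.sqrt x + 1) ^ 2 := by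
    have := Nat.lt_succ_sqrt x
    rw [pow_two]; exact this.le
  have h2 : 1 ≤ Nat.sqrt x := Nat.sqrt_pos.2 hx
  have h3 : Nat.sqrt x ^ 2 ≤ x := Nat.sqrt_le' x
  have h4 : (Nat.sqrt x + 1) ^ 9 ≤ 512 * x ^ 5 := by
    calc (Nat.sqrt x + 1) ^ 9 ≤ (2 * Nat.sqrt x) ^ 9 := Nat.pow_le_pow_left (by omega) 9
      _ = 512 * Nat.sqrt x ^ 9 := by rw [mul_pow]; norm_num
      _ ≤ 512 * Nat.sqrt x ^ 10 :=
        Nat.mul_le_mul_left _ (Nat.pow_le_pow_right h2 (by norm_num))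
      _ = 512 * (Nat.sqrt x ^ 2) ^ 5 := by rw [← pow_mul]
      _ ≤ 512 * x ^ 5 := Nat.mul_le_mul_left _ (Nat.pow_le_pow_left h3 5)
  exact ⟨by exact_mod_cast h1, by exact_mod_cast h4⟩

theorem main {P S : ℤ} {q : ℕ} (hq : q.Prime) (hS : S ≠ 0)
    (hb : NR ((P : ℚ) ^ 3 / (S : ℚ) ^ 2)) (h6 : P ^ 3 ≠ 6 * S ^ 2) {κ : ℤ} (hκ : 0 < κ)
    (hd : 16 * (q : ℤ) ^ 9 * S ^ 18 * W0 P S ∣ κ) :
    ∃ K : ℕ, ∀ h : ℕ → ℤ, CM h → h q = -1 → ∀ x : ℕ, 1 ≤ x → ∀ ε : ℤ,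
      ¬ ∀ n : ℤ, (x : ℚ) ≤ n → (n : ℚ) ≤ K * (x : ℚ) ^ 5 →
        H h (F (BB ((P : ℚ) ^ 3 / (S : ℚ) ^ 2)) (κ * (W0 P S : ℚ) ^ 2) n) = ε := by
  have hSq : (S : ℚ) ≠ 0 := by exact_mod_cast hS
  have hW0 := W0_ne (P := P) hS
  obtain ⟨j, hj⟩ := hd
  obtain ⟨b, hbdef⟩ : ∃ b : ℚ, b = (P : ℚ) ^ 3 / (S : ℚ) ^ 2 := ⟨_, rfl⟩
  have hbS : b * (S : ℚ) ^ 2 ∈ ZZ := mem_ZZ.2 ⟨P ^ 3, by rw [hbdef]; push_cast; field_simp⟩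
  have hb6 : b ≠ 6 := by
    intro h
    apply h6
    rw [hbdef] at h
    field_simp at h
    have h' : P ^ 3 = S ^ 2 * 6 := by exact_mod_cast h
    rw [h']; ring
  have hv : 0 < (κ : ℚ) * (W0 P S : ℚ) ^ 2 := by
    have : (0 : ℚ) < κ := by exact_mod_cast hκ
    positivity
  have hveq : (κ : ℚ) * (W0 P S : ℚ) ^ 2 =
      2 * (W0 P S : ℚ) ^ 3 * ((2 * (q * S ^ 2) ^ 3 : ℤ) : ℚ) ^ 3 * j := by
    rw [hj]; push_cast; ring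
  rw [← hbdef] at hb ⊢
  obtain ⟨N, c1, c2, hN, hc1, hc2, hAB⟩ := stepAB (b := b) (v := κ * (W0 P S : ℚ) ^ 2)
    (D := ((2 * (q * S ^ 2) ^ 3 : ℤ) : ℚ)) hb hb6 hv (by
      intro n hn z hz
      rw [hbdef] at hz ⊢
      exact lat_main hS hveq hn hz)
  obtain ⟨K1, hK1, hpell⟩ := pell_points hq (b := b) (S := S) hS hbS
  obtain ⟨T0, hT0⟩ := exists_nat_ge (max (max N (2 + |b|)) (1 / c1 + 1))
  have t1 : N ≤ T0 := (le_max_left _ _).trans ((le_max_left _ _).trans hT0)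
  have t2 : 2 + |b| ≤ T0 := (le_max_right _ _).trans ((le_max_left _ _).trans hT0)
  have t3 : 1 / c1 + 1 ≤ T0 := (le_max_right _ _).trans hT0
  have t4 : (1 : ℚ) ≤ T0 := by have := abs_nonneg b; linarith
  have t5 : 1 ≤ c1 * (T0 : ℚ) ^ 2 := by
    have : 1 / c1 ≤ (T0 : ℚ) ^ 2 := by nlinarith
    rw [div_le_iff₀ hc1] at this
    linarith
  obtain ⟨K, hK⟩ := exists_nat_ge (c2 * 1000 * K1 ^ 9 * (T0 : ℚ) ^ 9 * 512)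
  refine ⟨K, fun h hh hhq x hx ε hcon => ?_⟩
  obtain ⟨αp, αm, hα⟩ := hAB h hh x (K * (x : ℚ) ^ 5) ε hcon
  obtain ⟨sc1, sc2⟩ := scale_T x hx
  obtain ⟨T, hT⟩ : ∃ T : ℚ, T = T0 * ((Nat.sqrt x + 1 : ℕ) : ℚ) := ⟨_, rfl⟩
  have hr1 : (1 : ℚ) ≤ ((Nat.sqrt x + 1 : ℕ) : ℚ) := by push_cast; linarith [Nat.cast_nonneg (α := ℚ) (Nat.sqrt x)]
  have hTT0 : (T0 : ℚ) ≤ T := by rw [hT]; nlinarith
  have hT1 : 1 ≤ T := by linarith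
  have hxT : (x : ℚ) ≤ c1 * T ^ 2 := by
    rw [hT, mul_pow]
    calc (x : ℚ) ≤ 1 * ((Nat.sqrt x + 1 : ℕ) : ℚ) ^ 2 := by rw [one_mul]; exact sc1
      _ ≤ (c1 * (T0 : ℚ) ^ 2) * ((Nat.sqrt x + 1 : ℕ) : ℚ) ^ 2 :=
        mul_le_mul_of_nonneg_right t5 (by positivity)
      _ = _ := by ring
  have hTX : c2 * (10 * (K1 * T) ^ 3) ^ 3 ≤ K * (x : ℚ) ^ 5 := by
    have hK1n : (0 : ℚ) ≤ K1 := by linarith
    calc c2 * (10 * (K1 * T) ^ 3) ^ 3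
        = (c2 * 1000 * K1 ^ 9 * (T0 : ℚ) ^ 9) * ((Nat.sqrt x + 1 : ℕ) : ℚ) ^ 9 := by
          rw [hT]; ring
      _ ≤ (c2 * 1000 * K1 ^ 9 * (T0 : ℚ) ^ 9) * (512 * (x : ℚ) ^ 5) :=
        mul_le_mul_of_nonneg_left sc2 (by positivity)
      _ = (c2 * 1000 * K1 ^ 9 * (T0 : ℚ) ^ 9 * 512) * (x : ℚ) ^ 5 := by ring
      _ ≤ K * (x : ℚ) ^ 5 := mul_le_mul_of_nonneg_right hK (by positivity)
  have hF : ∀ n : ℚ, ((2 * (q * S ^ 2) ^ 3 : ℤ) : ℚ) * n ∈ ZZ → T ≤ |n| →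
      |n| ≤ 10 * (K1 * T) ^ 3 → H h (F b 1 n) = if 0 < n then αp else αm := by
    intro n hn h1 h2
    apply hα n hn (by linarith)
    · refine hxT.trans ?_
      have : T ^ 2 ≤ |n| ^ 2 := pow_le_pow_left₀ (by linarith) h1 2
      rw [sq_abs] at this
      exact mul_le_mul_of_nonneg_left this hc1.le
    · refine le_trans ?_ hTX
      exact mul_le_mul_of_nonneg_left (pow_le_pow_left₀ (abs_nonneg n) h2 3) hc2.le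
  obtain ⟨s1, s2, s3, s4, hid, ⟨l1, l2, l3, l4⟩, ⟨a1, a1'⟩, ⟨a2, a2'⟩, ⟨a3, a3'⟩, ⟨a4, a4'⟩⟩ :=
    hpell T hT1
  have l4' : (q : ℚ) * S ^ 2 * (-s4) ∈ ZZ := by
    rw [mul_neg]; exact neg_mem l4
  have m1 := lat_two (q := q) (b := b) hbS (by simpa using l1)
  have m2 := lat_two (q := q) (b := b) hbS (by simpa using l2)
  have m3 := lat_two (q := q) (b := b) hbS (by simpa using l3)
  have m4 := lat_two (q := q) (b := b) hbS (s := -s4) (by simpa using l4')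
  have hKT : 1 ≤ K1 * T := by nlinarith
  have hKT3 : K1 * T ≤ 10 * (K1 * T) ^ 3 := by
    have : K1 * T ≤ (K1 * T) ^ 3 := le_self_pow₀ hKT (by norm_num)
    have h0 : 0 ≤ (K1 * T) ^ 3 := by positivity
    linarith
  have F1 : H h (F b 1 s1) = αp := by
    have hp : 0 < s1 := by linarith
    have := hF s1 m1.1 (by rw [abs_of_pos hp]; exact a1) (by rw [abs_of_pos hp]; linarith)
    rwa [if_pos hp] at this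
  have F2 : H h (F b 1 s2) = αm := by
    have hp : s2 < 0 := by linarith
    have := hF s2 m2.1 (by rw [abs_of_neg hp]; exact a2) (by rw [abs_of_neg hp]; linarith)
    rwa [if_neg (by linarith)] at this
  have C3 := stepC hh hb hF m3.2.1 m3.2.2.1 m3.2.2.2 (by linarith) a3
    (mul_le_mul_of_nonneg_left (pow_le_pow_left₀ (by linarith) a3' 3) (by norm_num))
  have C4 := stepC hh hb hF m4.2.1 m4.2.2.1 m4.2.2.2 (by linarith) a4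
    (mul_le_mul_of_nonneg_left (pow_le_pow_left₀ (by linarith) a4' 3) (by norm_num))
  have C4' := C4.2
  rw [neg_neg] at C4'
  have hq0 : (q : ℚ) ≠ 0 := by exact_mod_cast hq.ne_zero
  have fin := congrArg (H h) hid
  rw [H_mul hh (hb.F_ne _) (hb.F_ne _), H_mul hh (pow_ne_zero _ hq0) (mul_ne_zero (hb _) (hb _)),
    H_mul hh (hb _) (hb _), H_pow3 hh hq0, H_nat hh, F1, F2, C3.1, C4', hhq] at fin
  have p1 : αp * αp = 1 := by rw [← F1]; exact H_sq hh (hb.F_ne _)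
  have p2 : αm * αm = 1 := by rw [← F2]; exact H_sq hh (hb.F_ne _)
  have s2 := hh.sq (show 1 ≤ 2 by norm_num)
  have e : αp * αm = -(αp * αm) := by linear_combination fin - αp * αm * s2
  have e2 : αp * αm = 0 := by linarith
  rcases mul_eq_zero.1 e2 with h0 | h0
  · rw [h0] at p1; norm_num at p1
  · rw [h0] at p2; norm_num at p2

end Pool.Agent.Lib_helper11.CUB
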