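import Mathlib
import Pool.Agent.Lib_helper11.CUB.Main

/-!
Every cubic number field contains a generator whose minimal polynomial is one of our cubics.
-/

namespace Pool.Agent.Lib_helper11.CUB

open Polynomial

/-- The cubic polynomial. -/
noncomputable def cub (P S κ : ℤ) : ℤ[X] :=
  X ^ 3 - C (κ * (54 * P ^ 3 * (P ^ 3 - 6 * S ^ 2) ^ 3 + 3 * W0 P S ^ 2)) * X ^ 2 +
    C (κ ^ 2 * (729 * P ^ 6 * (P ^ 3 - 6 * S ^ 2) ^ 6 +
      162 * P ^ 3 * (P ^ 3 - 6 * S ^ 2) ^ 3 * W0 P S ^ 2 + 3 * W0 P S ^ 4)) * X -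
    C (κ ^ 3 * W0 P S ^ 2 * (54 * P ^ 3 * (P ^ 3 - 6 * S ^ 2) ^ 3 - W0 P S ^ 2) ^ 2)

theorem cub_natDegree (P S κ : ℤ) : (cub P S κ).natDegree = 3 := by
  unfold cub; compute_degree!

theorem cub_monic (P S κ : ℤ) : (cub P S κ).Monic := by
  unfold cub; monicity!

/-- Values of `cub` in a field. -/
theorem cub_aeval {K : Type*} [Field K] [CharZero K] {P S : ℤ} (hS : S ≠ 0) (κ : ℤ) (y : K) :
    aeval y (cub P S κ) =
      F (((27 * P ^ 3 * (P ^ 3 - 6 * S ^ 2) ^ 3 : ℤ) : K) / ((W0 P S : ℤ) : K) ^ 2)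
        (κ * ((W0 P S : ℤ) : K) ^ 2) y := by
  have hW : ((W0 P S : ℤ) : K) ≠ 0 := by
    have := W0_ne (P := P) hS
    exact_mod_cast this
  unfold cub F
  simp only [map_sub, map_add, map_mul, map_pow, aeval_X, eq_intCast, map_intCast, map_ofNat]
  push_cast
  field_simp
  ring

theorem cub_eval {P S : ℤ} (hS : S ≠ 0) (κ n : ℤ) :
    (((cub P S κ).eval n : ℤ) : ℚ) =
      F (BB ((P : ℚ) ^ 3 / (S : ℚ) ^ 2)) (κ * (W0 P S : ℚ) ^ 2) n := by
  have h1 := cub_aeval (K := ℚ) hS (P := P) κ (n : ℚ)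
  have h2 : aeval (n : ℚ) (cub P S κ) = (((cub P S κ).eval n : ℤ) : ℚ) := by
    rw [aeval_def, algebraMap_int_eq, eval₂_at_intCast]
    simp
  rw [← h2, h1]
  congr 1
  have hW := W0_ne (P := P) hS
  rw [eq_comm, eq_div_iff (pow_ne_zero 2 hW), mul_comm, BB_eq hS]

/-- Rational roots of `X^3 - P X + S` and of `g_b`. -/
theorem NR_of {P S : ℤ} (hP : P ≠ 0) (hS : S ≠ 0)
    (h : ∀ y : ℚ, y ^ 3 - P * y + S ≠ 0) : NR ((P : ℚ) ^ 3 / (S : ℚ) ^ 2) := by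
  have hP' : (P : ℚ) ≠ 0 := by exact_mod_cast hP
  have hS' : (S : ℚ) ≠ 0 := by exact_mod_cast hS
  intro s hs
  apply h (S * (s - 1) / P)
  unfold g at hs
  field_simp at hs ⊢
  linear_combination (S : ℚ) * hs

theorem S_ne {P S : ℤ} (h : ∀ y : ℚ, y ^ 3 - P * y + S ≠ 0) : S ≠ 0 := by
  rintro rfl
  exact h 0 (by simp)

theorem cub_no_root {P S : ℤ} (hP : P ≠ 0) (h6 : P ^ 3 ≠ 6 * S ^ 2)
    (h : ∀ y : ℚ, y ^ 3 - P * y + S ≠ 0) {κ : ℤ} (hκ : κ ≠ 0) (y : ℚ) :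
    aeval y (cub P S κ) ≠ 0 := by
  have hS := S_ne h
  have hb := NR_of hP hS h
  have hS' : (S : ℚ) ≠ 0 := by exact_mod_cast hS
  have hb6 : (P : ℚ) ^ 3 / (S : ℚ) ^ 2 ≠ 6 := by
    intro h
    apply h6
    field_simp at h
    have h' : P ^ 3 = S ^ 2 * 6 := by exact_mod_cast h
    rw [h']; ring
  intro hy
  rw [cub_aeval hS] at hy
  have hW := W0_ne (P := P) hS
  have e : ((27 * P ^ 3 * (P ^ 3 - 6 * S ^ 2) ^ 3 : ℤ) : ℚ) / ((W0 P S : ℤ) : ℚ) ^ 2 =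
      BB ((P : ℚ) ^ 3 / (S : ℚ) ^ 2) := by
    rw [div_eq_iff (pow_ne_zero 2 hW), ← BB_eq hS, mul_comm]
  rw [e] at hy
  exact (hb.BB hb6).Fv_ne (mul_ne_zero (by exact_mod_cast hκ) (pow_ne_zero 2 hW)) y hy

/-- Irreducibility. -/
theorem cub_irreducible {P S : ℤ} (hP : P ≠ 0) (h6 : P ^ 3 ≠ 6 * S ^ 2)
    (h : ∀ y : ℚ, y ^ 3 - P * y + S ≠ 0) {κ : ℤ} (hκ : κ ≠ 0) :
    Irreducible ((cub P S κ).map (Int.castRingHom ℚ)) := by
  apply irreducible_of_degree_le_three_of_not_isRoot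
  · rw [(cub_monic P S κ).natDegree_map, cub_natDegree]; decide
  · intro y hy
    rw [IsRoot.def, eval_map, ← algebraMap_int_eq, ← aeval_def] at hy
    exact cub_no_root hP h6 h hκ y hy

section Field

variable {K : Type*} [Field K] [NumberField K]

theorem adjoin_top (h3 : Module.finrank ℚ K = 3) {x : K}
    (hx : x ∉ (⊥ : IntermediateField ℚ K)) :
    IntermediateField.adjoin ℚ {x} = (⊤ : IntermediateField ℚ K) := by
  have := IntermediateField.isSimpleOrder_of_finrank_prime ℚ K (by rw [h3]; exact Nat.prime_three)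
  rcases eq_bot_or_eq_top (IntermediateField.adjoin ℚ {x} : IntermediateField ℚ K) with h | h
  · exact absurd (h ▸ IntermediateField.mem_adjoin_simple_self ℚ x) hx
  · exact h

theorem deg_three (h3 : Module.finrank ℚ K = 3) {x : K}
    (hx : x ∉ (⊥ : IntermediateField ℚ K)) : (minpoly ℚ x).natDegree = 3 := by
  rw [← IntermediateField.adjoin.finrank (Algebra.IsIntegral.isIntegral x), adjoin_top h3 hx,
    IntermediateField.finrank_top', h3]

/-- `1, x, x^2` are independent. -/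
theorem indep (h3 : Module.finrank ℚ K = 3) {x : K} (hx : x ∉ (⊥ : IntermediateField ℚ K))
    {u v w : ℚ} (h : (u : K) * x ^ 2 + v * x + w = 0) : u = 0 ∧ v = 0 := by
  obtain ⟨p, hp⟩ : ∃ p : ℚ[X], p = C u * X ^ 2 + C v * X + C w := ⟨_, rfl⟩
  have h0 : aeval x p = 0 := by
    rw [hp]
    simp only [map_add, map_mul, map_pow, aeval_X, aeval_C, eq_ratCast]
    exact h
  have hpz : p = 0 := by
    by_contra hne
    have h1 := natDegree_le_of_dvd (minpoly.dvd ℚ x h0) hne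
    rw [deg_three h3 hx] at h1
    have h2 : p.natDegree ≤ 2 := by
      rw [hp]; compute_degree
    omega
  have c2 := congrArg (fun r => coeff r 2) hpz
  have c1 := congrArg (fun r => coeff r 1) hpz
  simp only [hp, coeff_add, coeff_C_mul, coeff_X_pow, coeff_X, coeff_C, coeff_zero] at c1 c2
  norm_num at c1 c2
  exact ⟨c2, c1⟩

theorem mem_bot_iff {x : K} : x ∈ (⊥ : IntermediateField ℚ K) ↔ ∃ r : ℚ, (r : K) = x := by
  rw [IntermediateField.mem_bot]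
  constructor
  · rintro ⟨r, hr⟩; exact ⟨r, by rw [← hr]; simp⟩
  · rintro ⟨r, hr⟩; exact ⟨r, by rw [← hr]; simp⟩

theorem no_root (h3 : Module.finrank ℚ K = 3) {x : K} (hx : x ∉ (⊥ : IntermediateField ℚ K))
    {P S : ℤ} (h : x ^ 3 - P * x + S = 0) (y : ℚ) : y ^ 3 - P * y + S ≠ 0 := by
  intro hy
  have hy' : (y : K) ^ 3 - P * y + S = 0 := by exact_mod_cast congrArg (fun r : ℚ => (r : K)) hy
  have hne : x - y ≠ 0 := by
    intro h0
    exact hx (mem_bot_iff.2 ⟨y, (sub_eq_zero.1 h0).symm⟩)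
  have e : (x - y) * (((1 : ℚ) : K) * x ^ 2 + y * x + ((y ^ 2 - P : ℚ) : K)) = 0 := by
    push_cast
    linear_combination h - hy'
  have := (indep h3 hx ((mul_eq_zero.1 e).resolve_left hne)).1
  norm_num at this

/-- A generator with an equation `x^3 = P x - S`. -/
theorem exists_depressed (h3 : Module.finrank ℚ K = 3) :
    ∃ (P S : ℤ) (x : K), x ^ 3 - P * x + S = 0 ∧ x ∉ (⊥ : IntermediateField ℚ K) := by
  obtain ⟨θ, hθ⟩ : ∃ θ : K, θ ∉ (⊥ : IntermediateField ℚ K) := by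
    by_contra hcon
    push Not at hcon
    have h1 : (⊥ : IntermediateField ℚ K) = ⊤ := by
      rw [eq_top_iff]; intro y _; exact hcon y
    have h2 : Module.finrank ℚ (⊥ : IntermediateField ℚ K) = 1 := IntermediateField.finrank_bot
    rw [h1, IntermediateField.finrank_top', h3] at h2
    norm_num at h2
  have hm := minpoly.aeval ℚ θ
  have hmon := minpoly.monic (Algebra.IsIntegral.isIntegral (R := ℚ) θ)
  have hd := deg_three h3 hθ
  obtain ⟨a, ha⟩ : ∃ a : ℚ, a = (minpoly ℚ θ).coeff 2 := ⟨_, rfl⟩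
  obtain ⟨b, hb⟩ : ∃ b : ℚ, b = (minpoly ℚ θ).coeff 1 := ⟨_, rfl⟩
  obtain ⟨c, hc⟩ : ∃ c : ℚ, c = (minpoly ℚ θ).coeff 0 := ⟨_, rfl⟩
  have h1 : (minpoly ℚ θ).coeff 3 = 1 := by
    have := hmon.coeff_natDegree
    rwa [hd] at this
  rw [aeval_eq_sum_range, hd] at hm
  simp only [Finset.sum_range_succ, Finset.sum_range_zero, h1, ← ha, ← hb, ← hc, Algebra.smul_def,
    eq_ratCast] at hm
  obtain ⟨p, hp⟩ : ∃ p : ℚ, p = b - a ^ 2 / 3 := ⟨_, rfl⟩
  obtain ⟨r, hr⟩ : ∃ r : ℚ, r = c - a * b / 3 + 2 * a ^ 3 / 27 := ⟨_, rfl⟩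
  obtain ⟨y, hy⟩ : ∃ y : K, y = θ + a / 3 := ⟨_, rfl⟩
  have ey : y ^ 3 + p * y + r = 0 := by
    rw [hy, hp, hr]; push_cast
    linear_combination hm
  have hy0 : y ∉ (⊥ : IntermediateField ℚ K) := by
    intro h
    obtain ⟨t, ht⟩ := mem_bot_iff.1 h
    apply hθ
    refine mem_bot_iff.2 ⟨t - a / 3, ?_⟩
    push_cast
    rw [ht, hy]; ring
  obtain ⟨N, hN⟩ : ∃ N : ℕ, N = p.den * r.den := ⟨_, rfl⟩
  have hNz : (N : ℚ) ≠ 0 := by
    rw [hN]; exact_mod_cast Nat.mul_ne_zero p.den_ne_zero r.den_ne_zero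
  have hNz' : (N : K) ≠ 0 := by exact_mod_cast hNz
  have hp' : (p : ℚ) * p.den = p.num := Rat.mul_den_eq_num p
  have hr' : (r : ℚ) * r.den = r.num := Rat.mul_den_eq_num r
  refine ⟨-(N * r.den * p.num), N ^ 2 * p.den * r.num, N * y, ?_, ?_⟩
  · have e1 : ((-(N * r.den * p.num) : ℤ) : K) = ((-(N : ℚ) ^ 2 * p : ℚ) : K) := by
      have : ((-(N * r.den * p.num) : ℤ) : ℚ) = -(N : ℚ) ^ 2 * p := by
        push_cast
        rw [← hp', hN]; push_cast; ring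
      exact_mod_cast congrArg (fun t : ℚ => (t : K)) this
    have e2 : ((N ^ 2 * p.den * r.num : ℤ) : K) = (((N : ℚ) ^ 3 * r : ℚ) : K) := by
      have : ((N ^ 2 * p.den * r.num : ℤ) : ℚ) = (N : ℚ) ^ 3 * r := by
        push_cast
        rw [← hr', hN]; push_cast; ring
      exact_mod_cast congrArg (fun t : ℚ => (t : K)) this
    rw [e1, e2]
    push_cast
    linear_combination ((N : K) ^ 3) * ey
  · intro h
    obtain ⟨t, ht⟩ := mem_bot_iff.1 h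
    apply hy0
    refine mem_bot_iff.2 ⟨t / N, ?_⟩
    push_cast
    rw [ht]; field_simp

/-- A generator with an equation `x^3 = P x - S`, `P ≠ 0`, `P^3 ≠ 6 S^2`. -/
theorem exists_good (h3 : Module.finrank ℚ K = 3) :
    ∃ (P S : ℤ) (x : K), x ^ 3 - P * x + S = 0 ∧ x ∉ (⊥ : IntermediateField ℚ K) ∧ P ≠ 0 ∧
      P ^ 3 ≠ 6 * S ^ 2 := by
  -- first make `P ≠ 0`
  obtain ⟨P, S, x, hx, hx0, hP⟩ : ∃ (P S : ℤ) (x : K), x ^ 3 - P * x + S = 0 ∧
      x ∉ (⊥ : IntermediateField ℚ K) ∧ P ≠ 0 := by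
    obtain ⟨P, S, x, hx, hx0⟩ := exists_depressed h3
    by_cases hP : P = 0
    · subst hP
      have hS := S_ne (no_root h3 hx0 hx)
      refine ⟨-3 * S, S * (1 - S), x + x ^ 2, ?_, ?_, by simpa using hS⟩
      · push_cast at hx ⊢
        linear_combination (1 + 3 * x + 3 * x ^ 2 + x ^ 3 - S) * hx
      · intro h
        obtain ⟨t, ht⟩ := mem_bot_iff.1 h
        have := (indep h3 hx0 (u := 1) (v := 1) (w := -t) (by push_cast; rw [ht]; ring)).1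
        norm_num at this
    · exact ⟨P, S, x, hx, hx0, hP⟩
  by_cases h6 : P ^ 3 = 6 * S ^ 2
  · have hS := S_ne (no_root h3 hx0 hx)
    refine ⟨3 * P ^ 2, 2 * P ^ 3 - 27 * S ^ 2, 3 * x ^ 2 - 2 * P, ?_, ?_, ?_, ?_⟩
    · push_cast at hx ⊢
      linear_combination (27 * x ^ 3 - 27 * P * x - 27 * S) * hx
    · intro h
      obtain ⟨t, ht⟩ := mem_bot_iff.1 h
      have := (indep h3 hx0 (u := 3) (v := 0) (w := -t - 2 * P) (by push_cast; rw [ht]; ring)).1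
      norm_num at this
    · positivity
    · have e1 : (3 * P ^ 2) ^ 3 = 972 * S ^ 4 := by
        have : (3 * P ^ 2) ^ 3 = 27 * (P ^ 3) ^ 2 := by ring
        rw [this, h6]; ring
      have e2 : 2 * P ^ 3 - 27 * S ^ 2 = -15 * S ^ 2 := by rw [h6]; ring
      rw [e1, e2]
      have : 0 < S ^ 4 := by positivity
      intro h
      nlinarith
  · exact ⟨P, S, x, hx, hx0, hP, h6⟩

/-- The generator with minimal polynomial `cub P S κ`. -/
theorem exists_rho (h3 : Module.finrank ℚ K = 3) {P S : ℤ} {x : K} (hx : x ^ 3 - P * x + S = 0)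
    (hx0 : x ∉ (⊥ : IntermediateField ℚ K)) (hP : P ≠ 0) (h6 : P ^ 3 ≠ 6 * S ^ 2) {κ : ℤ}
    (hκ : κ ≠ 0) :
    ∃ ρ : K, minpoly ℤ ρ = cub P S κ ∧
      IntermediateField.adjoin ℚ {ρ} = (⊤ : IntermediateField ℚ K) := by
  have hnr := no_root h3 hx0 hx
  have hS := S_ne hnr
  have hSK : (S : K) ≠ 0 := by exact_mod_cast hS
  have hWQ := W_ne ((P : ℚ) ^ 3 / (S : ℚ) ^ 2)
  have hWK : W ((P : K) ^ 3 / (S : K) ^ 2) ≠ 0 := by
    have : W ((P : K) ^ 3 / (S : K) ^ 2) = ((W ((P : ℚ) ^ 3 / (S : ℚ) ^ 2) : ℚ) : K) := by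
      unfold W; push_cast; ring
    rw [this]; exact_mod_cast hWQ
  obtain ⟨b, hb⟩ : ∃ b : K, b = (P : K) ^ 3 / (S : K) ^ 2 := ⟨_, rfl⟩
  have hW0K : ((W0 P S : ℤ) : K) = S ^ 4 * W b := by
    rw [hb]; unfold W0 W; push_cast; field_simp
  rw [← hb] at hWK
  have hBK : ((27 * P ^ 3 * (P ^ 3 - 6 * S ^ 2) ^ 3 : ℤ) : K) / ((W0 P S : ℤ) : K) ^ 2 = BB b := by
    rw [hW0K]
    unfold BB
    rw [div_eq_div_iff (pow_ne_zero 2 (mul_ne_zero (pow_ne_zero 4 hSK) hWK)) (pow_ne_zero 2 hWK)]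
    have : ((27 * P ^ 3 * (P ^ 3 - 6 * S ^ 2) ^ 3 : ℤ) : K) = 27 * b * (b - 6) ^ 3 * S ^ 8 := by
      rw [hb]; push_cast; field_simp
    rw [this]; ring
  obtain ⟨s, hs⟩ : ∃ s : K, s = 1 + P * x / S := ⟨_, rfl⟩
  have g1 : g b s = 0 := by
    rw [hs, hb]; unfold g
    field_simp
    linear_combination (P : K) ^ 3 * hx
  have g2 : F b 1 (s ^ 2) = 0 := by
    have := id1 b 1 s
    rw [g1, zero_mul, mul_zero, one_mul] at this
    exact this
  obtain ⟨z, hz⟩ : ∃ z : K, z = nu b * s ^ 2 + cc b := ⟨_, rfl⟩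
  have g3 : g (BB b) z = 0 := by
    rw [hz, id4 _ _ hWK, g2, mul_zero]
  obtain ⟨v, hv⟩ : ∃ v : K, v = κ * ((W0 P S : ℤ) : K) ^ 2 := ⟨_, rfl⟩
  have hroot : aeval (v * z ^ 2) (cub P S κ) = 0 := by
    rw [cub_aeval hS, hBK, ← hv, id1, g3, zero_mul, mul_zero]
  have hint : IsIntegral ℤ (v * z ^ 2) := ⟨_, cub_monic _ _ _, hroot⟩
  have hρ0 : v * z ^ 2 ∉ (⊥ : IntermediateField ℚ K) := by
    intro h
    obtain ⟨t, ht⟩ := mem_bot_iff.1 h
    rw [← ht] at hroot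
    have h1 : aeval (t : K) (cub P S κ) = ((aeval t (cub P S κ) : ℚ) : K) := by
      have := aeval_algebraMap_apply K t (cub P S κ)
      simpa using this
    rw [h1] at hroot
    exact cub_no_root hP h6 hnr hκ t (by exact_mod_cast hroot)
  refine ⟨v * z ^ 2, ?_, adjoin_top h3 hρ0⟩
  have hdeg : (minpoly ℤ (v * z ^ 2)).natDegree = 3 := by
    have e1 : minpoly ℚ (v * z ^ 2) = (minpoly ℤ (v * z ^ 2)).map (algebraMap ℤ ℚ) :=
      minpoly.isIntegrallyClosed_eq_field_fractions' ℚ hint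
    have e2 := deg_three h3 hρ0
    rw [e1, (minpoly.monic hint).natDegree_map] at e2
    exact e2
  have hdvd : minpoly ℤ (v * z ^ 2) ∣ cub P S κ := minpoly.isIntegrallyClosed_dvd hint hroot
  exact (eq_of_monic_of_dvd_of_natDegree_le (minpoly.monic hint) (cub_monic _ _ _) hdvd
    (by rw [cub_natDegree, hdeg])).symm

end Field

end Pool.Agent.Lib_helper11.CUB
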