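import Mathlib
import Pool.Agent.Lib_helper11.CUB.Base

/-!
Two multiplicative relations between the values of linear forms in a cubic ring.
-/

namespace Pool.Agent.Lib_helper11.CUB

variable {K : Type*} [Field K] [CharZero K]

/-- The multiplication table of Delone and Faddeev. -/
structure DF (a b c d : ℚ) (w t : K) : Prop where
  ww : w ^ 2 = -(a * c) + b * w - a * t
  tt : t ^ 2 = -(b * d) + d * w - c * t
  wt : w * t = -(a * d)

/-- The first relation, rational part. -/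
theorem relII_rat {a b c d q X Y σ U : ℚ} (hq : q ≠ 0) (hq4 : q ≠ 4)
    (hXY : X ^ 2 - q * (q - 4) * Y ^ 2 = 1)
    (hσ : (q - 4) * σ = (2 * (b - d) + (q - 2) * (d * (q - 2) - a - c)) * X +
      q * (q - 4) * (d * (q - 2) + a - c) * Y - 2 * (b + d - a - c))
    (hU : U = (d * (q - 2) + a - c) * X + (2 * (b - d) + (q - 2) * (d * (q - 2) - a - c)) * Y) :
    (σ ^ 2 - U ^ 2) / 4 =
      q * ((σ + a + c) / q) * ((σ - b - d) / q) - q * a * d + a * c + b * d + 2 * a * d := by
  have h4 : q - 4 ≠ 0 := sub_ne_zero.2 hq4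
  have e : q * ((σ + a + c) / q) * ((σ - b - d) / q) = (σ + a + c) * (σ - b - d) / q := by
    field_simp
  rw [e]
  have key : (q - 4) * (q * (σ ^ 2 - U ^ 2) - 4 * (σ + a + c) * (σ - b - d) -
      4 * q * (- q * a * d + a * c + b * d + 2 * a * d)) = 0 := by
    have h1 : ((q - 4) * σ + 2 * (b + d - a - c)) ^ 2 - q * (q - 4) * U ^ 2 =
        (2 * (b - d) + (q - 2) * (d * (q - 2) - a - c)) ^ 2 -
          q * (q - 4) * (d * (q - 2) + a - c) ^ 2 := by
      rw [hσ, hU]
      linear_combination ((2 * (b - d) + (q - 2) * (d * (q - 2) - a - c)) ^ 2 -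
          q * (q - 4) * (d * (q - 2) + a - c) ^ 2) * hXY
    linear_combination h1
  have key2 := (mul_eq_zero.1 key).resolve_left h4
  field_simp
  linear_combination key2

/-- The first relation. -/
theorem relII {a b c d q X Y σ U : ℚ} {w t : K} (h : DF a b c d w t) (hq : q ≠ 0) (hq4 : q ≠ 4)
    (hXY : X ^ 2 - q * (q - 4) * Y ^ 2 = 1)
    (hσ : (q - 4) * σ = (2 * (b - d) + (q - 2) * (d * (q - 2) - a - c)) * X +
      q * (q - 4) * (d * (q - 2) + a - c) * Y - 2 * (b + d - a - c))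
    (hU : U = (d * (q - 2) + a - c) * X + (2 * (b - d) + (q - 2) * (d * (q - 2) - a - c)) * Y) :
    ((((σ + U) / 2 : ℚ) : K) - (w + t)) * ((((σ - U) / 2 : ℚ) : K) - (w + t)) =
      q * (((((σ + a + c) / q : ℚ) : K) - w) * ((((σ - b - d) / q : ℚ) : K) - t)) := by
  have h1 := relII_rat hq hq4 hXY hσ hU
  have h2 : (((σ ^ 2 - U ^ 2) / 4 : ℚ) : K) = ((q * ((σ + a + c) / q) * ((σ - b - d) / q) -
      q * a * d + a * c + b * d + 2 * a * d : ℚ) : K) := by rw [h1]
  have hqK : (q : K) ≠ 0 := by exact_mod_cast hq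
  obtain ⟨h3, h4, h5⟩ := h
  have e1 : (q : K) * (((σ + a + c) / q : ℚ) : K) = σ + a + c := by push_cast; field_simp
  have e2 : (q : K) * (((σ - b - d) / q : ℚ) : K) = σ - b - d := by push_cast; field_simp
  generalize ((σ + a + c) / q : ℚ) = m at *
  generalize ((σ - b - d) / q : ℚ) = r at *
  push_cast at h2 ⊢
  linear_combination h2 + h3 + h4 + (2 - (q : K)) * h5 + w * e2 + t * e1

/-- The second relation. -/
theorem relI {a b c d q X Y U V : ℚ} {w t : K} (h : DF a b c d w t) (hq : q ≠ 0)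
    (hXY : X ^ 2 - q * Y ^ 2 = 1)
    (hU : U = (b + q * d) * X + (a + q * c) * Y)
    (hV : V = (a + q * c) / q * X + (b + q * d) * Y) :
    ((((b - q * d + U) / 2 : ℚ) : K) - w) * ((((b - q * d - U) / 2 : ℚ) : K) - w) =
      q * (((((a / q - c) + V) / 2 : ℚ) : K) - t) * (((((a / q - c) - V) / 2 : ℚ) : K) - t) := by
  have h1 : U ^ 2 - q * V ^ 2 = (b + q * d) ^ 2 - (a + q * c) ^ 2 / q := by
    rw [hU, hV]
    field_simp
    linear_combination (q * (b + q * d) ^ 2 - (a + q * c) ^ 2) * hXY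
  have h2 : ((b - q * d) ^ 2 - U ^ 2) / 4 =
      q * (((a / q - c) ^ 2 - V ^ 2) / 4) + a * c - q * (b * d) := by
    have : q * (a / q - c) ^ 2 = (a - q * c) ^ 2 / q := by field_simp
    have h3 : (a + q * c) ^ 2 / q - (a - q * c) ^ 2 / q = 4 * a * c := by field_simp; ring
    linear_combination (-1 / 4) * h1 - (1 / 4) * this + (1 / 4) * h3
  have h3 : ((((b - q * d) ^ 2 - U ^ 2) / 4 : ℚ) : K) =
      ((q * (((a / q - c) ^ 2 - V ^ 2) / 4) + a * c - q * (b * d) : ℚ) : K) := by rw [h2]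
  have hqK : (q : K) ≠ 0 := by exact_mod_cast hq
  have e1 : (q : K) * ((a / q - c : ℚ) : K) = a - q * c := by push_cast; field_simp
  obtain ⟨h4, h5, h6⟩ := h
  generalize (a / q - c : ℚ) = m at *
  push_cast at h3 ⊢
  linear_combination h3 + h4 - (q : K) * h5 + t * e1

end Pool.Agent.Lib_helper11.CUB
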