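import Mathlib
import Pool.Agent.Lib_helper11.CUB.Ring
import Pool.Agent.Lib_helper11.CUB.Field

/-!
Cubic fields: norms of linear forms, the multiplication table of a pair of generators.
-/

namespace Pool.Agent.Lib_helper11.CUB

open Polynomial

variable {K : Type*} [Field K] [NumberField K]

/-- The sign of `N(x - u)`. -/
noncomputable def G (h : ℕ → ℤ) (u : K) (x : ℚ) : ℤ := H h (Algebra.norm ℚ ((x : K) - u))

/-- `1, α, β` are independent over `ℚ`. -/
def Ind (α β : K) : Prop := ∀ u v w : ℚ, (u : K) + v * α + w * β = 0 → u = 0 ∧ v = 0 ∧ w = 0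

theorem sub_ne_zero_of {u : K} (hu : u ∉ (⊥ : IntermediateField ℚ K)) (x : ℚ) : (x : K) - u ≠ 0 := by
  intro h
  exact hu (mem_bot_iff.2 ⟨x, sub_eq_zero.1 h⟩)

theorem norm_ne {z : K} (hz : z ≠ 0) : Algebra.norm ℚ z ≠ 0 := Algebra.norm_ne_zero_iff.2 hz

theorem norm_rat (h3 : Module.finrank ℚ K = 3) (q : ℚ) : Algebra.norm ℚ (q : K) = q ^ 3 := by
  have := Algebra.norm_algebraMap (S := K) q
  rw [h3] at this
  simpa using this

theorem norm_neg' (h3 : Module.finrank ℚ K = 3) (z : K) :
    Algebra.norm ℚ (-z) = -Algebra.norm ℚ z := by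
  have : -z = ((-1 : ℚ) : K) * z := by push_cast; ring
  rw [this, map_mul, norm_rat h3]; ring

theorem neg_not_mem {u : K} (hu : u ∉ (⊥ : IntermediateField ℚ K)) :
    -u ∉ (⊥ : IntermediateField ℚ K) := by
  intro h
  apply hu
  have := neg_mem h
  rwa [neg_neg] at this

theorem G_neg (h3 : Module.finrank ℚ K = 3) (h : ℕ → ℤ) (u : K) (x : ℚ) :
    G h (-u) (-x) = G h u x := by
  unfold G
  have : ((-x : ℚ) : K) - -u = -((x : K) - u) := by push_cast; ring
  rw [this, norm_neg' h3, H_neg]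

theorem G_sq {h : ℕ → ℤ} (hh : CM h) {u : K} (hu : u ∉ (⊥ : IntermediateField ℚ K)) (x : ℚ) :
    G h u x * G h u x = 1 := H_sq hh (norm_ne (sub_ne_zero_of hu x))

/-- Scaling. -/
theorem G_scale (h3 : Module.finrank ℚ K = 3) {h : ℕ → ℤ} (hh : CM h) {u : K}
    (hu : u ∉ (⊥ : IntermediateField ℚ K)) {r : ℚ} (hr : r ≠ 0) (x : ℚ) :
    G h ((r : K) * u) (r * x) = H h r * G h u x := by
  unfold G
  have : ((r * x : ℚ) : K) - (r : K) * u = (r : K) * ((x : K) - u) := by push_cast; ring
  rw [this, map_mul, norm_rat h3, H_mul hh (pow_ne_zero _ hr) (norm_ne (sub_ne_zero_of hu x)),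
    H_pow3 hh hr]

/-- Translation. -/
theorem G_trans (h : ℕ → ℤ) (u : K) (w x : ℚ) : G h (u + w) (x + w) = G h u x := by
  unfold G
  have : ((x + w : ℚ) : K) - (u + w) = (x : K) - u := by push_cast; ring
  rw [this]

/-- The relation of a quadratic substitution. -/
theorem relR (h3 : Module.finrank ℚ K = 3) {h : ℕ → ℤ} (hh : CM h) {α β : K}
    (hα : α ∉ (⊥ : IntermediateField ℚ K)) (hβ : β ∉ (⊥ : IntermediateField ℚ K)) {a y z : ℚ}
    (ha : a ≠ 0) (e : α ^ 2 = a * β + y * α + z) (n : ℚ) :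
    G h α (n + y) * G h (-α) n = H h a * G h β ((n ^ 2 + y * n - z) / a) := by
  have haK : (a : K) ≠ 0 := by exact_mod_cast ha
  have key : (((n + y : ℚ) : K) - α) * ((n : K) - -α) =
      (a : K) * ((((n ^ 2 + y * n - z) / a : ℚ) : K) - β) := by
    have e1 : (a : K) * (((n ^ 2 + y * n - z) / a : ℚ) : K) = n ^ 2 + y * n - z := by
      push_cast; field_simp
    push_cast at e1 ⊢
    linear_combination -e - e1
  have := congrArg (fun t : K => H h (Algebra.norm ℚ t)) key
  simp only [map_mul] at this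
  rw [H_mul hh (norm_ne (sub_ne_zero_of hα _)) (norm_ne (sub_ne_zero_of (neg_not_mem hα) _)),
    H_mul hh (norm_ne haK) (norm_ne (sub_ne_zero_of hβ _)), norm_rat h3, H_pow3 hh ha] at this
  exact this

theorem Ind.left {α β : K} (h : Ind α β) : α ∉ (⊥ : IntermediateField ℚ K) := by
  intro hm
  obtain ⟨r, hr⟩ := mem_bot_iff.1 hm
  have := h (-r) 1 0 (by push_cast; rw [hr]; ring)
  exact one_ne_zero this.2.1

theorem Ind.right {α β : K} (h : Ind α β) : β ∉ (⊥ : IntermediateField ℚ K) := by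
  intro hm
  obtain ⟨r, hr⟩ := mem_bot_iff.1 hm
  have := h (-r) 0 1 (by push_cast; rw [hr]; ring)
  exact one_ne_zero this.2.2

theorem Ind.symm {α β : K} (h : Ind α β) : Ind β α := by
  intro u v w e
  have := h u w v (by linear_combination e)
  exact ⟨this.1, this.2.2, this.2.1⟩

theorem Ind.neg {α β : K} (h : Ind α β) : Ind α (-β) := by
  intro u v w e
  have := h u v (-w) (by push_cast; linear_combination e)
  exact ⟨this.1, this.2.1, by linarith [this.2.2]⟩

theorem Ind.shift {α β : K} (h : Ind α β) (r s : ℚ) : Ind (α - r) (β - s) := by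
  intro u v w e
  have := h (u - v * r - w * s) v w (by push_cast; linear_combination e)
  refine ⟨?_, this.2.1, this.2.2⟩
  have h1 := this.1
  rw [this.2.1, this.2.2] at h1
  linarith

/-- Coordinates. -/
theorem Ind.span (h3 : Module.finrank ℚ K = 3) {α β : K} (h : Ind α β) (x : K) :
    ∃ u v w : ℚ, x = u + v * α + w * β := by
  have hli : LinearIndependent ℚ ![(1 : K), α, β] := by
    rw [Fintype.linearIndependent_iff]
    intro c hc
    rw [Fin.sum_univ_three] at hc
    simp only [Matrix.cons_val_zero, Matrix.cons_val_one, Matrix.cons_val, Algebra.smul_def,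
      eq_ratCast, mul_one] at hc
    have := h (c 0) (c 1) (c 2) hc
    intro i
    fin_cases i
    · exact this.1
    · exact this.2.1
    · exact this.2.2
  have htop := hli.span_eq_top_of_card_eq_finrank' (by rw [h3]; rfl)
  have hx : x ∈ Submodule.span ℚ (Set.range ![(1 : K), α, β]) := by rw [htop]; trivial
  obtain ⟨c, hc⟩ := (Submodule.mem_span_range_iff_exists_fun ℚ).1 hx
  rw [Fin.sum_univ_three] at hc
  simp only [Matrix.cons_val_zero, Matrix.cons_val_one, Matrix.cons_val, Algebra.smul_def,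
    eq_ratCast, mul_one] at hc
  exact ⟨c 0, c 1, c 2, hc.symm⟩

/-- After a translation the pair has a multiplication table of Delone and Faddeev. -/
theorem exists_DF (h3 : Module.finrank ℚ K = 3) {α β : K} (h : Ind α β) :
    ∃ a b c d r s : ℚ, DF a b c d (α - r) (β - s) := by
  obtain ⟨C', A', B', e⟩ := h.span h3 (α * β)
  have hI := h.shift B' A'
  obtain ⟨z1, x1, y1, e1⟩ := hI.span h3 ((α - B') ^ 2)
  obtain ⟨z2, x2, y2, e2⟩ := hI.span h3 ((β - A') ^ 2)
  have e0 : (α - B') * (β - A') = ((C' + A' * B' : ℚ) : K) := by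
    push_cast; linear_combination e
  obtain ⟨γ, hγ⟩ : ∃ γ : ℚ, γ = C' + A' * B' := ⟨_, rfl⟩
  rw [← hγ] at e0
  generalize hw : α - (B' : K) = w at *
  generalize ht : β - (A' : K) = t at *
  -- `w (w t) = γ w`
  have r1 := hI (x1 * γ + y1 * z2) (y1 * x2 - γ) (y1 * y2 + z1) (by
    push_cast
    linear_combination (-t) * e1 + (w - x1) * e0 - y1 * e2)
  have r2 := hI (x2 * z1 + y2 * γ) (x2 * x1 + z2) (x2 * y1 - γ) (by
    push_cast
    linear_combination (-w) * e2 + (t - y2) * e0 - x2 * e1)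
  refine ⟨-y1, x1, -y2, x2, B', A', ?_⟩
  rw [hw, ht]
  have q1 : z1 = -(y1 * y2) := by linarith [r1.2.2]
  have q2 : z2 = -(x2 * x1) := by linarith [r2.2.1]
  have q3 : γ = y1 * x2 := by linarith [r1.2.1]
  refine ⟨?_, ?_, ?_⟩
  · rw [e1, q1]; push_cast; ring
  · rw [e2, q2]; push_cast; ring
  · rw [e0, q3]; push_cast; ring

/-- Nondegeneracy of the table. -/
theorem DF.nondeg {a b c d q : ℚ} {w t : K} (h : DF a b c d w t) (hI : Ind w t) :
    a ≠ 0 ∧ d ≠ 0 ∧ ¬ (b + q * d = 0 ∧ a + q * c = 0) := by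
  obtain ⟨e1, e2, e3⟩ := h
  have ha : a ≠ 0 := by
    rintro rfl
    -- `w t = 0`
    push_cast at e3
    have : w * t = 0 := by rw [e3]; ring
    rcases mul_eq_zero.1 this with h | h
    · exact one_ne_zero (hI 0 1 0 (by push_cast; rw [h]; ring)).2.1
    · exact one_ne_zero (hI 0 0 1 (by push_cast; rw [h]; ring)).2.2
  have hd : d ≠ 0 := by
    rintro rfl
    push_cast at e3
    have : w * t = 0 := by rw [e3]; ring
    rcases mul_eq_zero.1 this with h | h
    · exact one_ne_zero (hI 0 1 0 (by push_cast; rw [h]; ring)).2.1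
    · exact one_ne_zero (hI 0 0 1 (by push_cast; rw [h]; ring)).2.2
  refine ⟨ha, hd, ?_⟩
  rintro ⟨hb, ha'⟩
  -- `(c w - d a)(a^2 - q w^2) = 0`
  have hb' : b = -(q * d) := by linarith
  have ha2 : a = -(q * c) := by linarith
  have key : ((c : K) * w - d * a) * ((a : K) ^ 2 - q * w ^ 2) = 0 := by
    have e4 : w ^ 3 = b * w ^ 2 - a * c * w + a ^ 2 * d := by
      linear_combination w * e1 - a * e3
    have hbK : (b : K) = -(q * d) := by rw [hb']; push_cast; ring
    have haK : (a : K) = -(q * c) := by exact_mod_cast congrArg (fun x : ℚ => (x : K)) ha2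
    rw [hbK] at e4
    linear_combination (-(q * c) : K) * e4 + (c * a * w - d * a ^ 2 + d * q * w ^ 2) * haK
  rcases mul_eq_zero.1 key with h | h
  · have h1 := hI (-(d * a)) c 0 (by push_cast; linear_combination h)
    exact hd (by
      have := h1.1
      have h2 : d * a = 0 := by linarith
      exact (mul_eq_zero.1 h2).resolve_right ha)
  · -- `q w^2 = a^2`
    have h1 := hI (a ^ 2 + q * a * c) (-(q * b)) (q * a) (by
      push_cast; linear_combination h + (q : K) * e1)
    have h2 : q = 0 := (mul_eq_zero.1 h1.2.2).resolve_right ha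
    rw [h2] at ha2
    exact ha (by linarith)

end Pool.Agent.Lib_helper11.CUB
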