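import Mathlib
import Pool.Agent.Lib_helper11.CUB.Alg
import Pool.Agent.Lib_helper11.CUB.Pell

/-!
The Pell relation between two generators of a cubic field, at every scale.
-/

namespace Pool.Agent.Lib_helper11.CUB

variable {K : Type*} [Field K] [NumberField K]

theorem mul_mem_ZZ_of_dvd {D E : ℕ} (h : D ∣ E) {x : ℚ} (hx : (D : ℚ) * x ∈ ZZ) :
    (E : ℚ) * x ∈ ZZ := by
  obtain ⟨k, rfl⟩ := h
  have : ((D * k : ℕ) : ℚ) * x = ((k : ℤ) : ℚ) * (D * x) := by push_cast; ring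
  rw [this]
  exact mul_mem (int_mem _) hx

/-- A common denominator. -/
theorem common_den (l : List ℚ) : ∃ D : ℕ, 1 ≤ D ∧ ∀ x ∈ l, (D : ℚ) * x ∈ ZZ := by
  induction l with
  | nil => exact ⟨1, le_rfl, by simp⟩
  | cons y l ih =>
    obtain ⟨D, hD, h⟩ := ih
    refine ⟨D * y.den, Nat.mul_pos hD y.den_pos, ?_⟩
    intro x hx
    rcases List.mem_cons.1 hx with rfl | hx
    · refine mem_ZZ.2 ⟨D * x.num, ?_⟩
      push_cast
      have := Rat.mul_den_eq_num x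
      rw [mul_assoc, mul_comm (x.den : ℚ) x, this]
    · exact mul_mem_ZZ_of_dvd (dvd_mul_right _ _) (h x hx)

theorem abs_pair' {M : Type*} [CommMonoid M] (f : ℚ → M) (σ u : ℚ) :
    f ((σ + |u|) / 2) * f ((σ - |u|) / 2) = f ((σ + u) / 2) * f ((σ - u) / 2) := by
  rcases le_total 0 u with h | h
  · rw [abs_of_nonneg h]
  · rw [abs_of_nonpos h, mul_comm, sub_neg_eq_add, ← sub_eq_add_neg]

theorem lat_abs {D : ℕ} {σ u0 u1 : ℚ} (h : (D : ℚ) * (σ / 2) ∈ ZZ) (h0 : (D : ℚ) * (u0 / 2) ∈ ZZ)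
    (h1 : (D : ℚ) * (u1 / 2) ∈ ZZ) (X Y : ℤ) :
    (D : ℚ) * ((σ + |u0 * X + u1 * Y|) / 2) ∈ ZZ ∧
      (D : ℚ) * ((σ - |u0 * X + u1 * Y|) / 2) ∈ ZZ := by
  have h2 : (D : ℚ) * ((u0 * X + u1 * Y) / 2) ∈ ZZ := by
    have : (D : ℚ) * ((u0 * X + u1 * Y) / 2) = D * (u0 / 2) * X + D * (u1 / 2) * Y := by ring
    rw [this]
    exact add_mem (mul_mem h0 (int_mem _)) (mul_mem h1 (int_mem _))
  have h3 : (D : ℚ) * (|u0 * X + u1 * Y| / 2) ∈ ZZ := by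
    rcases abs_choice (u0 * X + u1 * Y) with h | h <;> rw [h]
    · exact h2
    · have : (D : ℚ) * (-(u0 * X + u1 * Y) / 2) = -(D * ((u0 * X + u1 * Y) / 2)) := by ring
      rw [this]; exact neg_mem h2
  constructor
  · have : (D : ℚ) * ((σ + |u0 * X + u1 * Y|) / 2) = D * (σ / 2) + D * (|u0 * X + u1 * Y| / 2) := by
      ring
    rw [this]; exact add_mem h h3
  · have : (D : ℚ) * ((σ - |u0 * X + u1 * Y|) / 2) = D * (σ / 2) - D * (|u0 * X + u1 * Y| / 2) := by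
      ring
    rw [this]; exact sub_mem h h3

theorem not_sq_rat {q : ℕ} (hq : ¬ IsSquare (q : ℤ)) : ¬ IsSquare (q : ℚ) := by
  intro h
  apply hq
  have : IsSquare ((q : ℤ) : ℚ) := by exact_mod_cast h
  rwa [Rat.isSquare_intCast_iff] at this

theorem typeI (h3 : Module.finrank ℚ K = 3) {α β : K} (hI : Ind α β) {q : ℕ}
    (hq : ¬ IsSquare (q : ℤ)) :
    ∃ D : ℕ, 1 ≤ D ∧ ∃ C : ℚ, 1 ≤ C ∧ ∀ T : ℚ, 1 ≤ T → ∃ n n' m m' : ℚ,
      ((D : ℚ) * n ∈ ZZ ∧ (D : ℚ) * n' ∈ ZZ ∧ (D : ℚ) * m ∈ ZZ ∧ (D : ℚ) * m' ∈ ZZ) ∧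
      (T ≤ n ∧ n ≤ C * T) ∧ (T ≤ n' ∧ n' ≤ C * T) ∧ (T ≤ m ∧ m ≤ C * T) ∧
      (T ≤ m' ∧ m' ≤ C * T) ∧
      ∀ h : ℕ → ℤ, CM h → G h α n * G h (-α) n' = h q * (G h β m * G h (-β) m') := by
  have hq1 : 1 ≤ q := by
    rcases Nat.eq_zero_or_pos q with h | h
    · exfalso; apply hq; rw [h]; exact ⟨0, by norm_num⟩
    · exact h
  have hq1q : (1 : ℚ) ≤ q := by exact_mod_cast hq1
  have hq0 : (q : ℚ) ≠ 0 := by linarith
  obtain ⟨a, b, c, d, r, s, hDF⟩ := exists_DF h3 hI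
  have hI' := hI.shift r s
  obtain ⟨ha, hd, hnd⟩ := hDF.nondeg hI' (q := (q : ℚ))
  have hM : (q : ℚ) * (b + q * d) ^ 2 - (a + q * c) ^ 2 ≠ 0 := by
    intro h
    by_cases h1 : (b + q * d : ℚ) = 0
    · apply hnd
      refine ⟨h1, ?_⟩
      rw [h1] at h
      have : (a + q * c : ℚ) ^ 2 = 0 := by linear_combination -h
      exact pow_eq_zero_iff (by norm_num) |>.1 this
    · apply not_sq_rat hq
      refine ⟨(a + q * c) / (b + q * d), ?_⟩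
      field_simp
      linear_combination h
  obtain ⟨δU, XU, hδU, hU⟩ := pell_form (a := b + q * d) (c := a + q * c) hq1q hM
  obtain ⟨δV, XV, hδV, hV⟩ := pell_form (a := (a + q * c) / q) (c := b + q * d) hq1q
    (by
      intro h; apply hM
      have : q * ((a + q * c) / q) ^ 2 = (a + q * c) ^ 2 / q := by field_simp
      rw [this] at h
      field_simp at h
      linear_combination -h)
  obtain ⟨Uc, hUc, hunits⟩ := Pool.Agent.Lib_helper3.CYC.units (d := q) (W := 1)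
    (by exact_mod_cast hq1) hq (by norm_num)
  obtain ⟨CU, hCU⟩ : ∃ C : ℚ, C = |(b + q * d : ℚ)| + |(a + q * c : ℚ)| := ⟨_, rfl⟩
  obtain ⟨CV, hCV⟩ : ∃ C : ℚ, C = |((a + q * c) / q : ℚ)| + |(b + q * d : ℚ)| := ⟨_, rfl⟩
  obtain ⟨σ1, hσ1⟩ : ∃ x : ℚ, x = b - q * d + 2 * r := ⟨_, rfl⟩
  obtain ⟨σ2, hσ2⟩ : ∃ x : ℚ, x = a / q - c + 2 * s := ⟨_, rfl⟩
  obtain ⟨L, hL⟩ : ∃ L : ℚ, L = |σ1| + |σ2| + 2 := ⟨_, rfl⟩
  have hσ1n := abs_nonneg σ1
  have hσ2n := abs_nonneg σ2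
  have hL0 : 0 < L := by linarith
  obtain ⟨κ, hκ⟩ := exists_nat_ge (max (max XU XV) (max (L / δU) (L / δV)))
  have k1 : XU ≤ κ + 1 := by
    have := (le_max_left XU XV).trans ((le_max_left _ _).trans hκ); linarith
  have k2 : XV ≤ κ + 1 := by
    have := (le_max_right XU XV).trans ((le_max_left _ _).trans hκ); linarith
  have k3 : L / δU ≤ κ + 1 := by
    have := (le_max_left (L / δU) (L / δV)).trans ((le_max_right _ _).trans hκ); linarith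
  have k4 : L / δV ≤ κ + 1 := by
    have := (le_max_right (L / δU) (L / δV)).trans ((le_max_right _ _).trans hκ); linarith
  rw [div_le_iff₀ hδU] at k3
  rw [div_le_iff₀ hδV] at k4
  have hκ0 : (0 : ℚ) ≤ κ := Nat.cast_nonneg κ
  have hCU0 : 0 ≤ CU := by rw [hCU]; positivity
  have hCV0 : 0 ≤ CV := by rw [hCV]; positivity
  have hUcq : (1 : ℚ) ≤ (Uc : ℚ) := by exact_mod_cast hUc
  obtain ⟨D, hD, hDl⟩ := common_den [σ1 / 2, (b + q * d) / 2, (a + q * c) / 2, σ2 / 2,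
    ((a + q * c) / q) / 2]
  refine ⟨D, hD, 1 + L + (CU + CV) * (Uc * (2 * (κ + 1))), ?_, ?_⟩
  · have : 0 ≤ (CU + CV) * (Uc * (2 * (κ + 1))) := by positivity
    linarith
  intro T hT
  obtain ⟨X, Y, hXY, hX1, hX2⟩ := hunits ⌈((κ : ℚ) + 1) * T⌉ (by
    rw [Int.one_le_ceil_iff]; positivity)
  obtain ⟨e1, e2, e2', -, -⟩ := hXY
  have b1 : ((κ : ℚ) + 1) * T ≤ X := (Int.le_ceil _).trans (by exact_mod_cast hX1)
  have b2 : (X : ℚ) ≤ Uc * (2 * (κ + 1)) * T := by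
    have h1 : (X : ℚ) ≤ Uc * (⌈((κ : ℚ) + 1) * T⌉ : ℤ) := by exact_mod_cast hX2
    have h2 : ((⌈((κ : ℚ) + 1) * T⌉ : ℤ) : ℚ) ≤ ((κ : ℚ) + 1) * T + 1 := (Int.ceil_lt_add_one _).le
    have h3 : (1 : ℚ) ≤ ((κ : ℚ) + 1) * T := by nlinarith
    calc (X : ℚ) ≤ Uc * (⌈((κ : ℚ) + 1) * T⌉ : ℤ) := h1
      _ ≤ Uc * (2 * (((κ : ℚ) + 1) * T)) := by
        apply mul_le_mul_of_nonneg_left _ (by linarith)
        linarith
      _ = _ := by ring
  have hXYq : (X : ℚ) ^ 2 - q * (Y : ℚ) ^ 2 = 1 := by exact_mod_cast e1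
  have hXq : (1 : ℚ) ≤ X := by exact_mod_cast e2
  have hYq : (1 : ℚ) ≤ Y := by exact_mod_cast e2'
  have hκT : (κ : ℚ) + 1 ≤ ((κ : ℚ) + 1) * T := by nlinarith
  obtain ⟨u, hu⟩ : ∃ u : ℚ, u = (b + q * d) * X + (a + q * c) * Y := ⟨_, rfl⟩
  obtain ⟨w, hw⟩ : ∃ w : ℚ, w = (a + q * c) / q * X + (b + q * d) * Y := ⟨_, rfl⟩
  obtain ⟨lu, uu⟩ := hU X Y hXYq hXq hYq (by linarith)
  obtain ⟨lw, uw⟩ := hV X Y hXYq hXq hYq (by linarith)
  rw [← hu, ← hCU] at uu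
  rw [← hu] at lu
  rw [← hw, ← hCV] at uw
  rw [← hw] at lw
  have hid := relI hDF hq0 hXYq hu hw
  -- sizes
  have hE : (0 : ℚ) ≤ Uc * (2 * (κ + 1)) := by positivity
  have su' := size_aux (σ := σ1) (u := u) hT (by linarith) hδU k3 b1 b2 lu uu hCU0 hCV0 hE
  have sw' := size_aux (σ := σ2) (u := w) hT (by linarith) hδV k4 b1 b2 lw uw hCV0 hCU0 hE
  rw [add_comm CV CU] at sw'
  have su := abs_size su'.1 su'.2
  have sw := abs_size sw'.1 sw'.2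
  -- lattices
  have L1 := lat_abs (D := D) (σ := σ1) (u0 := b + q * d) (u1 := a + q * c)
    (hDl _ (by simp)) (hDl _ (by simp)) (hDl _ (by simp)) X Y
  have L2 := lat_abs (D := D) (σ := σ2) (u0 := (a + q * c) / q) (u1 := b + q * d)
    (hDl _ (by simp)) (hDl _ (by simp)) (hDl _ (by simp)) X Y
  rw [← hu] at L1
  rw [← hw] at L2
  refine ⟨(σ1 + |u|) / 2, -((σ1 - |u|) / 2), (σ2 + |w|) / 2, -((σ2 - |w|) / 2),
    ⟨L1.1, by rw [mul_neg]; exact neg_mem L1.2, L2.1, by rw [mul_neg]; exact neg_mem L2.2⟩,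
    su.1, su.2, sw.1, sw.2, ?_⟩
  intro h hh
  rw [G_neg h3, G_neg h3, abs_pair' (G h α) σ1 u, abs_pair' (G h β) σ2 w]
  have f1 : ∀ x : ℚ, G h α (x + r) = H h (Algebra.norm ℚ ((x : K) - (α - r))) := by
    intro x; unfold G; congr 2; push_cast; ring
  have f2 : ∀ x : ℚ, G h β (x + s) = H h (Algebra.norm ℚ ((x : K) - (β - s))) := by
    intro x; unfold G; congr 2; push_cast; ring
  have g1 : (σ1 + u) / 2 = (b - q * d + u) / 2 + r := by rw [hσ1]; ring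
  have g2 : (σ1 - u) / 2 = (b - q * d - u) / 2 + r := by rw [hσ1]; ring
  have g3 : (σ2 + w) / 2 = ((a / q - c) + w) / 2 + s := by rw [hσ2]; ring
  have g4 : (σ2 - w) / 2 = ((a / q - c) - w) / 2 + s := by rw [hσ2]; ring
  rw [g1, g2, g3, g4, f1, f1, f2, f2]
  have hwn := hI'.left
  have htn := hI'.right
  have fin := congrArg (fun z : K => H h (Algebra.norm ℚ z)) hid
  simp only [map_mul] at fin
  rw [H_mul hh (norm_ne (sub_ne_zero_of hwn _)) (norm_ne (sub_ne_zero_of hwn _)),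
    H_mul hh (mul_ne_zero (norm_ne (by exact_mod_cast hq0)) (norm_ne (sub_ne_zero_of htn _)))
      (norm_ne (sub_ne_zero_of htn _)),
    H_mul hh (norm_ne (by exact_mod_cast hq0)) (norm_ne (sub_ne_zero_of htn _)),
    norm_rat h3, H_pow3 hh hq0, H_nat hh] at fin
  rw [fin, mul_assoc]

end Pool.Agent.Lib_helper11.CUB
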