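import Mathlib
import Pool.Agent.Lib_helper11.CUB.TypeI

/-!
Constancy of the sign along one generator on the positive side, and along a generator on the side of
its square, gives constancy on the negative side; the Pell relation then gives a contradiction.
-/

namespace Pool.Agent.Lib_helper11.CUB

variable {K : Type*} [Field K] [NumberField K]

/-- The sign of `N(n - u)` is `ε` for all `n ∈ (1/D)ℤ ∩ [x, X]`. -/
def ConstOn (h : ℕ → ℤ) (D : ℕ) (u : K) (ε : ℤ) (x X : ℚ) : Prop :=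
  ∀ n : ℚ, (D : ℚ) * n ∈ ZZ → x ≤ n → n ≤ X → G h u n = ε

theorem stepR (h3 : Module.finrank ℚ K = 3) {α β : K} (hI : Ind α β) {a y z : ℚ} (ha : 0 < a)
    (e : α ^ 2 = a * β + y * α + z) {D : ℕ} (hD : 1 ≤ D) :
    ∃ D' : ℕ, 1 ≤ D' ∧ D ∣ D' ∧ ∃ C : ℚ, 1 ≤ C ∧ ∀ h : ℕ → ℤ, CM h → ∀ x X : ℚ, 1 ≤ x →
      ∀ ε ε' : ℤ, ConstOn h D' α ε x X → ConstOn h D' β ε' x X →
        ∀ n : ℚ, (D : ℚ) * n ∈ ZZ → C * x ≤ n → C * n ^ 2 ≤ X →
          G h (-α) n = H h a * ε * ε' := by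
  obtain ⟨D2, hD2, hl⟩ := common_den [y, y / a, z / a, 1 / a]
  obtain ⟨M, hM⟩ : ∃ M : ℚ, M = 1 + |y| + |z| := ⟨_, rfl⟩
  have hy := abs_nonneg y
  have hz := abs_nonneg z
  have hM1 : 1 ≤ M := by linarith
  have hia : 0 < 1 / a := by positivity
  obtain ⟨C, hC⟩ : ∃ C : ℚ, C = 2 * M * (1 + a + 1 / a) := ⟨_, rfl⟩
  have hC1 : 2 * M ≤ C := by
    rw [hC]; have : 0 ≤ 2 * M * (a + 1 / a) := by positivity
    linarith
  have hC2 : 2 * M * a ≤ C := by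
    rw [hC]; have : 0 ≤ 2 * M * (1 + 1 / a) := by positivity
    linarith
  have hC3 : M / a ≤ C := by
    rw [hC]
    have h1 : M / a = M * (1 / a) := by ring
    have : 0 ≤ M * (2 * (1 + a) + 1 / a) := by positivity
    rw [h1]; linarith
  refine ⟨D * D * D2, Nat.mul_pos (Nat.mul_pos hD hD) hD2, ⟨D * D2, by ring⟩, C, by linarith, ?_⟩
  intro h hh x X hx ε ε' hA hB n hn h1 h2
  have l1 := hl y (by simp)
  have l2 := hl (y / a) (by simp)
  have l3 := hl (z / a) (by simp)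
  have l4 := hl (1 / a) (by simp)
  have hDD : ((D : ℤ) : ℚ) ∈ ZZ := int_mem _
  have hDD2 : ((D2 : ℤ) : ℚ) ∈ ZZ := int_mem _
  rw [Int.cast_natCast] at hDD hDD2
  have m1 : ((D * D * D2 : ℕ) : ℚ) * (n + y) ∈ ZZ := by
    have : ((D * D * D2 : ℕ) : ℚ) * (n + y) = D * D2 * (D * n) + D * D * (D2 * y) := by
      push_cast; ring
    rw [this]
    exact add_mem (mul_mem (mul_mem hDD hDD2) hn) (mul_mem (mul_mem hDD hDD) l1)
  have m2 : ((D * D * D2 : ℕ) : ℚ) * ((n ^ 2 + y * n - z) / a) ∈ ZZ := by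
    have : ((D * D * D2 : ℕ) : ℚ) * ((n ^ 2 + y * n - z) / a) =
        (D2 * (1 / a)) * (D * n) ^ 2 + D * (D2 * (y / a)) * (D * n) - D * D * (D2 * (z / a)) := by
      push_cast; ring
    rw [this]
    exact sub_mem (add_mem (mul_mem l4 (pow_mem hn 2)) (mul_mem (mul_mem hDD l2) hn))
      (mul_mem (mul_mem hDD hDD) l3)
  have hn1 : 2 * M * x ≤ n := by
    have : 2 * M * x ≤ C * x := mul_le_mul_of_nonneg_right hC1 (by linarith)
    linarith
  have hnM : 2 * M ≤ n := by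
    have : 2 * M * 1 ≤ 2 * M * x := mul_le_mul_of_nonneg_left hx (by linarith)
    linarith
  have hn0 : 1 ≤ n := by linarith
  have hnn : n ≤ n ^ 2 := by nlinarith
  have y1 := neg_abs_le y
  have y2 := le_abs_self y
  have z1 := neg_abs_le z
  have z2 := le_abs_self z
  have yn1 : -|y| * n ≤ y * n := mul_le_mul_of_nonneg_right y1 (by linarith)
  have yn2 : y * n ≤ |y| * n := mul_le_mul_of_nonneg_right y2 (by linarith)
  have zn : |z| ≤ |z| * n := by nlinarith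
  have k1 : G h α (n + y) = ε := by
    apply hA _ m1
    · have : x + |y| ≤ 2 * M * x := by
        rw [hM]; nlinarith [mul_nonneg hy (show 0 ≤ x - 1 by linarith), mul_nonneg hz (show 0 ≤ x by linarith)]
      linarith
    · refine le_trans ?_ h2
      have : (1 + |y|) * n ^ 2 ≤ C * n ^ 2 :=
        mul_le_mul_of_nonneg_right (by linarith) (by positivity)
      have h4 : |y| ≤ |y| * n ^ 2 := by nlinarith
      linarith
  have k2 : G h β ((n ^ 2 + y * n - z) / a) = ε' := by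
    apply hB _ m2
    · rw [le_div_iff₀ ha]
      have h4 : (M - 1) * n ≤ n / 2 * n := mul_le_mul_of_nonneg_right (by linarith) (by linarith)
      have h5 : M * a * x ≤ n / 2 := by
        have : 2 * M * a * x ≤ C * x := mul_le_mul_of_nonneg_right hC2 (by linarith)
        linarith
      have h6 : x * a ≤ M * a * x := by
        have : 1 * (a * x) ≤ M * (a * x) := mul_le_mul_of_nonneg_right hM1 (by positivity)
        linarith
      have h7 : n / 2 * 1 ≤ n / 2 * n := mul_le_mul_of_nonneg_left hn0 (by linarith)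
      have h8 : (M - 1) * n = |y| * n + |z| * n := by rw [hM]; ring
      nlinarith
    · refine le_trans ?_ h2
      have h4 : (n ^ 2 + y * n - z) / a ≤ M * n ^ 2 / a := by
        apply div_le_div_of_nonneg_right _ ha.le
        have h5 : |y| * n ≤ |y| * n ^ 2 := mul_le_mul_of_nonneg_left hnn hy
        have h6 : |z| * n ≤ |z| * n ^ 2 := mul_le_mul_of_nonneg_left hnn hz
        rw [hM]
        linarith
      have h5 : M * n ^ 2 / a = M / a * n ^ 2 := by ring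
      have h6 : M / a * n ^ 2 ≤ C * n ^ 2 := mul_le_mul_of_nonneg_right hC3 (by positivity)
      linarith
  have key := relR h3 hh hI.left hI.right ha.ne' e n
  rw [k1, k2] at key
  have hε : ε * ε = 1 := by rw [← k1]; exact G_sq hh hI.left _
  linear_combination ε * key - G h (-α) n * hε

theorem ConstOn.mono {h : ℕ → ℤ} {D E : ℕ} {u : K} {ε : ℤ} {x X x' X' : ℚ} (hDE : D ∣ E)
    (h1 : x ≤ x') (h2 : X' ≤ X) (hc : ConstOn h E u ε x X) : ConstOn h D u ε x' X' :=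
  fun n hn a b => hc n (mul_mem_ZZ_of_dvd hDE hn) (h1.trans a) (b.trans h2)

/-- The case of a generator and a conjugate of it in the field. -/
theorem conj_main (h3 : Module.finrank ℚ K = 3) {α β : K} (hI : Ind α β) {a y z : ℚ} (ha : 0 < a)
    (e : α ^ 2 = a * β + y * α + z) (hconj : ∀ (h : ℕ → ℤ) (n : ℚ), G h β n = G h α n)
    {q : ℕ} (hq : ¬ IsSquare (q : ℤ)) :
    ∃ D : ℕ, 1 ≤ D ∧ ∃ C : ℚ, 1 ≤ C ∧ ∀ h : ℕ → ℤ, CM h → h q = -1 → ∀ x : ℚ, 1 ≤ x → ∀ ε : ℤ,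
      ¬ ConstOn h D α ε x (C * x ^ 2) := by
  obtain ⟨D1, hD1, C1, hC1, hT⟩ := typeI h3 hI hq
  obtain ⟨D', hD', hdvd, C2, hC2, hR⟩ := stepR h3 hI ha e hD1
  refine ⟨D', hD', C2 ^ 3 * C1 ^ 2 + C1 * C2, by nlinarith [mul_pos (show 0 < C1 by linarith) (show 0 < C2 by linarith), pow_pos (show 0 < C2 by linarith) 3, pow_pos (show 0 < C1 by linarith) 2, mul_pos (pow_pos (show 0 < C2 by linarith) 3) (pow_pos (show 0 < C1 by linarith) 2), mul_le_mul hC1 hC2 (by norm_num) (by linarith)], ?_⟩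
  intro h hh hhq x hx ε hc
  obtain ⟨n, n', m, m', ⟨l1, l2, l3, l4⟩, ⟨a1, a2⟩, ⟨b1, b2⟩, ⟨c1, c2⟩, ⟨d1, d2⟩, hrel⟩ :=
    hT (C2 * x) (by nlinarith)
  have hcβ : ConstOn h D' β ε x ((C2 ^ 3 * C1 ^ 2 + C1 * C2) * x ^ 2) := by
    intro k hk h1 h2; rw [hconj]; exact hc k hk h1 h2
  have hx2 : x ≤ x ^ 2 := by nlinarith
  have hxC : x ≤ C2 * x := by nlinarith
  have hp3 : 0 ≤ C2 ^ 3 * C1 ^ 2 * x ^ 2 := by positivity
  have hp4 : C1 * C2 * x ≤ C1 * C2 * x ^ 2 := mul_le_mul_of_nonneg_left hx2 (by positivity)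
  have hp5 : 0 ≤ C1 * C2 * x ^ 2 := by positivity
  have up : ∀ k : ℚ, k ≤ C1 * (C2 * x) → k ≤ (C2 ^ 3 * C1 ^ 2 + C1 * C2) * x ^ 2 := by
    intro k hk; linarith
  have up2 : ∀ k : ℚ, 0 ≤ k → k ≤ C1 * (C2 * x) →
      C2 * k ^ 2 ≤ (C2 ^ 3 * C1 ^ 2 + C1 * C2) * x ^ 2 := by
    intro k hk0 hk
    have h1 : k ^ 2 ≤ (C1 * (C2 * x)) ^ 2 := pow_le_pow_left₀ hk0 hk 2
    have h2 : C2 * k ^ 2 ≤ C2 * (C1 * (C2 * x)) ^ 2 := mul_le_mul_of_nonneg_left h1 (by linarith)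
    have h3 : C2 * (C1 * (C2 * x)) ^ 2 = C2 ^ 3 * C1 ^ 2 * x ^ 2 := by ring
    linarith
  have g1 : G h α n = ε := hc n (mul_mem_ZZ_of_dvd hdvd l1) (by linarith) (up n a2)
  have g2 : G h β m = ε := hcβ m (mul_mem_ZZ_of_dvd hdvd l3) (by linarith) (up m c2)
  have g3 : G h (-α) n' = H h a * ε * ε := hR h hh x _ hx ε ε hc hcβ n' l2 b1
    (up2 n' (by linarith) b2)
  have g4 : G h (-α) m' = H h a * ε * ε := hR h hh x _ hx ε ε hc hcβ m' l4 d1
    (up2 m' (by linarith) d2)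
  have g5 : G h (-β) m' = G h (-α) m' := by
    have e1 := G_neg h3 h β (-m')
    have e2 := G_neg h3 h α (-m')
    rw [neg_neg] at e1 e2
    rw [e1, e2, hconj]
  have key := hrel h hh
  rw [g1, g2, g3, g5, g4, hhq] at key
  have hε : ε * ε = 1 := by rw [← g1]; exact G_sq hh hI.left _
  have ha2 := H_sq hh ha.ne'
  have h6 : ε * (H h a * ε * ε) = 0 := by linarith
  have h7 : ε * H h a = 0 := by linear_combination h6 - ε * H h a * hε
  have h8 : (1 : ℤ) = 0 := by linear_combination ε * H h a * h7 - hε * (H h a * H h a) - ha2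
  norm_num at h8

theorem pair_main (h3 : Module.finrank ℚ K = 3) {α β : K} (hI : Ind α β) {a y z : ℚ} (ha : 0 < a)
    (e : α ^ 2 = a * β + y * α + z) {a' y' z' : ℚ} (ha' : 0 < a')
    (e' : β ^ 2 = a' * α + y' * β + z') {q q' : ℕ} (hq : ¬ IsSquare (q : ℤ))
    (hq' : ¬ IsSquare (q' : ℤ)) :
    ∃ D : ℕ, 1 ≤ D ∧ ∃ C : ℚ, 1 ≤ C ∧ ∀ h : ℕ → ℤ, CM h → h q ≠ h q' → ∀ x : ℚ, 1 ≤ x →
      ∀ ε ε' : ℤ, ¬ (ConstOn h D α ε x (C * x ^ 2) ∧ ConstOn h D β ε' x (C * x ^ 2)) := by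
  obtain ⟨D1, hD1, C1, hC1, hT1⟩ := typeI h3 hI hq
  obtain ⟨D2, hD2, C2, hC2, hT2⟩ := typeI h3 hI hq'
  obtain ⟨D3, hD3, hdvd3, C3, hC3, hR3⟩ := stepR h3 hI ha e (Nat.mul_pos hD1 hD2)
  obtain ⟨D4, hD4, hdvd4, C4, hC4, hR4⟩ := stepR h3 hI.symm ha' e' (Nat.mul_pos hD1 hD2)
  have hd31 : D1 ∣ D3 * D4 := (dvd_mul_right D1 D2).trans (hdvd3.trans (dvd_mul_right _ _))
  have hd32 : D2 ∣ D3 * D4 := (dvd_mul_left D2 D1).trans (hdvd3.trans (dvd_mul_right _ _))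
  obtain ⟨B, hB⟩ : ∃ B : ℚ, B = C1 * C2 * (C3 * C4) := ⟨_, rfl⟩
  have h34 : 1 ≤ C3 * C4 := by nlinarith
  have h12 : 1 ≤ C1 * C2 := by nlinarith
  have hB1 : 1 ≤ B := by rw [hB]; nlinarith
  have hB0 : 0 < B := by linarith
  refine ⟨D3 * D4, Nat.mul_pos hD3 hD4, B ^ 3, one_le_pow₀ hB1, ?_⟩
  intro h hh hne x hx ε ε' ⟨hcα, hcβ⟩
  have hx2 : x ≤ x ^ 2 := by nlinarith
  have hx0 : 0 ≤ x := by linarith
  -- one relation
  have one : ∀ (q : ℕ) (D C : ℚ) (E : ℕ), (E : ℚ) = D → E ∣ D1 * D2 → 1 ≤ C → C ≤ C1 * C2 →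
      (∀ T : ℚ, 1 ≤ T → ∃ n n' m m' : ℚ,
      (D * n ∈ ZZ ∧ D * n' ∈ ZZ ∧ D * m ∈ ZZ ∧ D * m' ∈ ZZ) ∧
      (T ≤ n ∧ n ≤ C * T) ∧ (T ≤ n' ∧ n' ≤ C * T) ∧ (T ≤ m ∧ m ≤ C * T) ∧
      (T ≤ m' ∧ m' ≤ C * T) ∧
      ∀ h : ℕ → ℤ, CM h → G h α n * G h (-α) n' = h q * (G h β m * G h (-β) m')) →
      h q = H h a * H h a' * (ε * ε') := by
    intro q D C E hE hdE hC hC12 hT
    obtain ⟨n, n', m, m', ⟨l1, l2, l3, l4⟩, ⟨a1, a2⟩, ⟨b1, b2⟩, ⟨c1, c2⟩, ⟨d1, d2⟩, hrel⟩ :=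
      hT (C3 * C4 * x) (by nlinarith)
    rw [← hE] at l1 l2 l3 l4
    have hCB : C * (C3 * C4 * x) ≤ B * x := by
      have : C * (C3 * C4) ≤ C1 * C2 * (C3 * C4) :=
        mul_le_mul_of_nonneg_right hC12 (by linarith)
      have h5 := mul_le_mul_of_nonneg_right this hx0
      rw [hB]; linarith
    have hB3 : B ≤ B ^ 3 := le_self_pow₀ hB1 (by norm_num)
    have hBx : B * x ≤ B ^ 3 * x ^ 2 := by
      calc B * x ≤ B ^ 3 * x := mul_le_mul_of_nonneg_right hB3 hx0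
        _ ≤ B ^ 3 * x ^ 2 := mul_le_mul_of_nonneg_left hx2 (by positivity)
    have hlow : x ≤ C3 * C4 * x := by nlinarith
    have hC3x : C3 * x ≤ C3 * C4 * x := by
      have : C3 * 1 ≤ C3 * C4 := mul_le_mul_of_nonneg_left hC4 (by linarith)
      have := mul_le_mul_of_nonneg_right this hx0
      linarith
    have hC4x : C4 * x ≤ C3 * C4 * x := by
      have : 1 * C4 ≤ C3 * C4 := mul_le_mul_of_nonneg_right hC3 (by linarith)
      have := mul_le_mul_of_nonneg_right this hx0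
      linarith
    have up : ∀ k : ℚ, k ≤ C * (C3 * C4 * x) → k ≤ B ^ 3 * x ^ 2 := fun k hk => by linarith
    have hC3B : C3 ≤ B := by
      rw [hB]
      have : C3 ≤ C3 * C4 := by nlinarith
      have : 1 * (C3 * C4) ≤ C1 * C2 * (C3 * C4) := mul_le_mul_of_nonneg_right h12 (by linarith)
      linarith
    have hC4B : C4 ≤ B := by
      rw [hB]
      have : C4 ≤ C3 * C4 := by nlinarith
      have : 1 * (C3 * C4) ≤ C1 * C2 * (C3 * C4) := mul_le_mul_of_nonneg_right h12 (by linarith)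
      linarith
    have up2 : ∀ k C' : ℚ, 0 ≤ k → k ≤ C * (C3 * C4 * x) → 0 ≤ C' → C' ≤ B →
        C' * k ^ 2 ≤ B ^ 3 * x ^ 2 := by
      intro k C' hk0 hk hC'0 hC'
      have h1 : k ^ 2 ≤ (B * x) ^ 2 := pow_le_pow_left₀ hk0 (hk.trans hCB) 2
      calc C' * k ^ 2 ≤ B * (B * x) ^ 2 := mul_le_mul hC' h1 (by positivity) hB0.le
        _ = B ^ 3 * x ^ 2 := by ring
    have hdE' : E ∣ D3 * D4 := hdE.trans (hdvd3.trans (dvd_mul_right _ _))
    have g1 : G h α n = ε := hcα n (mul_mem_ZZ_of_dvd hdE' l1) (by linarith) (up n a2)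
    have g2 : G h β m = ε' := hcβ m (mul_mem_ZZ_of_dvd hdE' l3) (by linarith) (up m c2)
    have g3 : G h (-α) n' = H h a * ε * ε' :=
      hR3 h hh x _ hx ε ε' (hcα.mono (dvd_mul_right _ _) le_rfl le_rfl)
        (hcβ.mono (dvd_mul_right _ _) le_rfl le_rfl) n' (mul_mem_ZZ_of_dvd hdE l2) (by linarith)
        (up2 n' C3 (by linarith) b2 (by linarith) hC3B)
    have g4 : G h (-β) m' = H h a' * ε' * ε :=
      hR4 h hh x _ hx ε' ε (hcβ.mono (dvd_mul_left _ _) le_rfl le_rfl)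
        (hcα.mono (dvd_mul_left _ _) le_rfl le_rfl) m' (mul_mem_ZZ_of_dvd hdE l4) (by linarith)
        (up2 m' C4 (by linarith) d2 (by linarith) hC4B)
    have key := hrel h hh
    rw [g1, g2, g3, g4] at key
    have hε : ε * ε = 1 := by rw [← g1]; exact G_sq hh hI.left _
    have hε' : ε' * ε' = 1 := by rw [← g2]; exact G_sq hh hI.right _
    have ha2 := H_sq hh ha.ne'
    have ha2' := H_sq hh ha'.ne'
    -- `Ha ε ε ε' = hq Ha' ε' ε' ε`
    have k1 : H h a * ε' = h q * H h a' * ε := by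
      linear_combination key - H h a * ε' * hε + h q * H h a' * ε * hε'
    linear_combination (-(H h a' * ε)) * k1 - h q * H h a' * H h a' * hε - h q * ha2'
  have o1 := one q D1 C1 D1 rfl (dvd_mul_right _ _) hC1 (by nlinarith) hT1
  have o2 := one q' D2 C2 D2 rfl (dvd_mul_left _ _) hC2 (by nlinarith) hT2
  exact hne (by rw [o1, o2])

end Pool.Agent.Lib_helper11.CUB
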