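import Mathlib
import Pool.Agent.Lib_helper11.CUB.Chain

/-!
Exceptional generators: at most two classes in every cubic field.
-/

namespace Pool.Agent.Lib_helper11.CUB

variable {K : Type*} [Field K] [NumberField K]

/-- The sign of `N(n - u)` is eventually constant along every lattice `(1/D)ℤ`. -/
def Exc (h : ℕ → ℤ) (u : K) : Prop :=
  ∃ ε : ℤ, ∀ D : ℕ, 1 ≤ D → ∃ N : ℚ, ∀ n : ℚ, (D : ℚ) * n ∈ ZZ → N ≤ n → G h u n = ε

theorem Exc.scale (h3 : Module.finrank ℚ K = 3) {h : ℕ → ℤ} (hh : CM h) {u : K}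
    (hu : u ∉ (⊥ : IntermediateField ℚ K)) (he : Exc h u) {r : ℚ} (hr : 0 < r) (w : ℚ) :
    Exc h ((r : K) * u + w) := by
  obtain ⟨ε, he⟩ := he
  refine ⟨H h r * ε, fun D hD => ?_⟩
  obtain ⟨E, hE, hl⟩ := common_den [1 / r, w / r]
  obtain ⟨N, hN⟩ := he (D * E) (Nat.mul_pos hD hE)
  refine ⟨r * N + w, fun n hn hn2 => ?_⟩
  have hr0 : r ≠ 0 := hr.ne'
  have e1 : n = r * ((n - w) / r) + w := by field_simp; ring
  rw [e1, G_trans, G_scale h3 hh hu hr0]
  congr 1
  apply hN
  · have : ((D * E : ℕ) : ℚ) * ((n - w) / r) = (E * (1 / r)) * (D * n) - D * (E * (w / r)) := by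
      push_cast; ring
    rw [this]
    have hDD : ((D : ℤ) : ℚ) ∈ ZZ := int_mem _
    rw [Int.cast_natCast] at hDD
    exact sub_mem (mul_mem (hl _ (by simp)) hn) (mul_mem hDD (hl _ (by simp)))
  · rw [le_div_iff₀ hr]; linarith

theorem Exc.neg_of (h3 : Module.finrank ℚ K = 3) {h : ℕ → ℤ} (hh : CM h) {α β : K}
    (hI : Ind α β) {a y z : ℚ} (ha : 0 < a) (e : α ^ 2 = a * β + y * α + z) (hα : Exc h α)
    (hβ : Exc h β) : Exc h (-α) := by
  obtain ⟨ε, hα⟩ := hα
  obtain ⟨ε', hβ⟩ := hβ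
  refine ⟨H h a * ε * ε', fun D hD => ?_⟩
  obtain ⟨D', hD', -, C, hC, hR⟩ := stepR h3 hI ha e hD
  obtain ⟨N1, hN1⟩ := hα D' hD'
  obtain ⟨N2, hN2⟩ := hβ D' hD'
  refine ⟨C * max 1 (max N1 N2), fun n hn hn2 => ?_⟩
  refine hR h hh (max 1 (max N1 N2)) (C * n ^ 2) (le_max_left _ _) ε ε' ?_ ?_ n hn hn2 le_rfl
  · intro k hk h1 _
    exact hN1 k hk (((le_max_left _ _).trans (le_max_right _ _)).trans h1)
  · intro k hk h1 _
    exact hN2 k hk (((le_max_right _ _).trans (le_max_right _ _)).trans h1)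

theorem not_square_of_prime_mul {p r : ℕ} (hp : p.Prime) (hr : r.Prime) (hpr : p ≠ r) :
    ¬ IsSquare ((p * r : ℕ) : ℤ) := by
  intro h
  have h1 : IsSquare (p * r : ℕ) := by
    obtain ⟨k, hk⟩ := h
    refine ⟨k.natAbs, ?_⟩
    have := congrArg Int.natAbs hk
    rwa [Int.natAbs_mul, Int.natAbs_natCast] at this
  obtain ⟨k, hk⟩ := h1
  have h2 : p ∣ k := by
    have : p ∣ k * k := ⟨r, hk.symm⟩
    rcases hp.dvd_mul.1 this with h | h <;> exact h
  obtain ⟨l, rfl⟩ := h2
  have h3 : r = p * (l * l) := by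
    have : p * r = p * (p * (l * l)) := by rw [hk]; ring
    exact Nat.eq_of_mul_eq_mul_left hp.pos this
  have h4 : p ∣ r := ⟨l * l, h3⟩
  exact hpr ((Nat.prime_dvd_prime_iff_eq hp hr).1 h4)

theorem exists_other_prime (p : ℕ) : ∃ r : ℕ, r.Prime ∧ p ≠ r := by
  by_cases h : p = 2
  · exact ⟨3, Nat.prime_three, by omega⟩
  · exact ⟨2, Nat.prime_two, h⟩

/-- Two generators are never exceptional in both directions. -/
theorem exc_four (h3 : Module.finrank ℚ K = 3) {h : ℕ → ℤ} (hh : CM h) {p : ℕ} (hp : p.Prime)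
    (hhp : h p = -1) {α β : K} (hI : Ind α β) (h1 : Exc h α) (h2 : Exc h (-α)) (h3' : Exc h β)
    (h4 : Exc h (-β)) : False := by
  obtain ⟨r, hr, hpr⟩ := exists_other_prime p
  obtain ⟨ε1, h1⟩ := h1
  obtain ⟨ε2, h2⟩ := h2
  obtain ⟨ε3, h3'⟩ := h3'
  obtain ⟨ε4, h4⟩ := h4
  have one : ∀ q : ℕ, ¬ IsSquare (q : ℤ) → ε1 * ε2 = h q * (ε3 * ε4) ∧
      (ε3 * ε4) * (ε3 * ε4) = 1 := by
    intro q hq
    obtain ⟨D, hD, C, hC, hT⟩ := typeI h3 hI hq
    obtain ⟨N1, hN1⟩ := h1 D hD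
    obtain ⟨N2, hN2⟩ := h2 D hD
    obtain ⟨N3, hN3⟩ := h3' D hD
    obtain ⟨N4, hN4⟩ := h4 D hD
    obtain ⟨n, n', m, m', ⟨l1, l2, l3, l4⟩, ⟨a1, -⟩, ⟨b1, -⟩, ⟨c1, -⟩, ⟨d1, -⟩, hrel⟩ :=
      hT (max 1 (max (max N1 N2) (max N3 N4))) (le_max_left _ _)
    have k := le_max_right (1 : ℚ) (max (max N1 N2) (max N3 N4))
    have k1 := (le_max_left N1 N2).trans ((le_max_left _ _).trans k)
    have k2 := (le_max_right N1 N2).trans ((le_max_left _ _).trans k)
    have k3 := (le_max_left N3 N4).trans ((le_max_right _ _).trans k)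
    have k4 := (le_max_right N3 N4).trans ((le_max_right _ _).trans k)
    have g1 := hN1 n l1 (k1.trans a1)
    have g2 := hN2 n' l2 (k2.trans b1)
    have g3 := hN3 m l3 (k3.trans c1)
    have g4 := hN4 m' l4 (k4.trans d1)
    have key := hrel h hh
    rw [g1, g2, g3, g4] at key
    have s3 : ε3 * ε3 = 1 := by rw [← g3]; exact G_sq hh hI.right _
    have s4 : ε4 * ε4 = 1 := by rw [← g4]; exact G_sq hh (neg_not_mem hI.right) _
    exact ⟨key, by linear_combination ε4 * ε4 * s3 + s4⟩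
  have hr' := one r (not_isSquare_prime hr)
  have hpr' := one (p * r) (not_square_of_prime_mul hp hr hpr)
  rw [hh.mul p r hp.one_lt.le hr.one_lt.le, hhp] at hpr'
  have hrr := hh.sq hr.one_lt.le
  have e1 : 2 * (h r * (ε3 * ε4)) = 0 := by linear_combination hpr'.1 - hr'.1
  have e2 : h r * (ε3 * ε4) = 0 := by linarith
  have e3 : (1 : ℤ) = 0 := by
    linear_combination h r * (ε3 * ε4) * e2 - hrr - h r * h r * (hr'.2)
  norm_num at e3

/-- The square of a generator in terms of the generator and a second one. -/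
theorem exists_side (h3 : Module.finrank ℚ K = 3) {α β : K} (hI : Ind α β) :
    ∃ a y z : ℚ, a ≠ 0 ∧ α ^ 2 = a * β + y * α + z := by
  obtain ⟨z, y, a, e⟩ := hI.span h3 (α ^ 2)
  refine ⟨a, y, z, ?_, by rw [e]; ring⟩
  rintro rfl
  have := (indep h3 hI.left (u := 1) (v := -y) (w := -z) (by
    push_cast at e ⊢; linear_combination e)).1
  norm_num at this

/-- If a line is exceptional in both directions, no other generator is exceptional. -/
theorem exc_three (h3 : Module.finrank ℚ K = 3) {h : ℕ → ℤ} (hh : CM h) {p : ℕ} (hp : p.Prime)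
    (hhp : h p = -1) {α β : K} (hI : Ind α β) (h1 : Exc h α) (h2 : Exc h (-α)) (h4 : Exc h β) :
    False := by
  obtain ⟨a, y, z, ha, e⟩ := exists_side h3 hI.symm
  refine exc_four h3 hh hp hhp hI h1 h2 h4 ?_
  rcases lt_or_gt_of_ne ha with hneg | hpos
  · exact Exc.neg_of h3 hh hI.symm.neg (a := -a) (y := y) (z := z) (by linarith)
      (by rw [e]; push_cast; ring) h4 h2
  · exact Exc.neg_of h3 hh hI.symm hpos e h4 h1

/-- The class of a generator: `u ↦ r u + w`, `r > 0`. -/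
def Same (u v : K) : Prop := ∃ r w : ℚ, 0 < r ∧ v = r * u + w

theorem Same.symm {u v : K} (h : Same u v) : Same v u := by
  obtain ⟨r, w, hr, e⟩ := h
  have hrK : (r : K) ≠ 0 := by exact_mod_cast hr.ne'
  exact ⟨1 / r, -w / r, by positivity, by rw [e]; push_cast; field_simp; ring⟩

/-- Three pairwise inequivalent generators are not all exceptional. -/
theorem exc_classes (h3 : Module.finrank ℚ K = 3) {h : ℕ → ℤ} (hh : CM h) {p : ℕ} (hp : p.Prime)
    (hhp : h p = -1) {u1 u2 u3 : K} (n1 : u1 ∉ (⊥ : IntermediateField ℚ K))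
    (n2 : u2 ∉ (⊥ : IntermediateField ℚ K)) (n3 : u3 ∉ (⊥ : IntermediateField ℚ K))
    (s12 : ¬ Same u1 u2) (s13 : ¬ Same u1 u3) (s23 : ¬ Same u2 u3)
    (e1 : Exc h u1) (e2 : Exc h u2) (e3 : Exc h u3) : False := by
  -- dependent pairs are opposite
  have dep : ∀ u v : K, u ∉ (⊥ : IntermediateField ℚ K) → v ∉ (⊥ : IntermediateField ℚ K) →
      ¬ Ind u v → ¬ Same u v → ∃ r w : ℚ, 0 < r ∧ v = r * (-u) + w := by
    intro u v hu hv hI hS
    unfold Ind at hI
    push Not at hI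
    obtain ⟨x, y, z, he, hne⟩ := hI
    have hz : z ≠ 0 := by
      intro hz
      rw [hz] at he
      have h1 := indep h3 hu (u := 0) (v := y) (w := x) (by push_cast at he ⊢; linear_combination he)
      have hx : (x : K) = 0 := by
        rw [h1.2] at he; push_cast at he; linear_combination he
      exact hne (by exact_mod_cast hx) h1.2 hz
    have hzK : (z : K) ≠ 0 := by exact_mod_cast hz
    have ev : v = ((-y / z : ℚ) : K) * u + ((-x / z : ℚ) : K) := by
      push_cast; field_simp; linear_combination he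
    have hyz : -y / z ≤ 0 := by
      by_contra hcon
      exact hS ⟨-y / z, -x / z, not_le.1 hcon, ev⟩
    have hyz' : -y / z ≠ 0 := by
      intro h0
      rw [h0] at ev
      apply hv
      refine mem_bot_iff.2 ⟨-x / z, ?_⟩
      rw [ev]; push_cast; ring
    refine ⟨-(-y / z), -x / z, by
      have := lt_of_le_of_ne hyz hyz'; linarith, ?_⟩
    rw [ev]; push_cast; ring
  -- an opposite pair and a third class
  have opp : ∀ u v w : K, u ∉ (⊥ : IntermediateField ℚ K) → w ∉ (⊥ : IntermediateField ℚ K) →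
      (∃ r s : ℚ, 0 < r ∧ v = r * (-u) + s) → ¬ Same u w → ¬ Same v w →
      Exc h u → Exc h v → Exc h w → False := by
    intro u v w hu hw ⟨r, s, hr, hv⟩ h1 h2 eu ev ew
    have hrK : (r : K) ≠ 0 := by exact_mod_cast hr.ne'
    have eu' : Exc h (-u) := by
      have hv0 : v ∉ (⊥ : IntermediateField ℚ K) := by
        intro hm
        obtain ⟨t, ht⟩ := mem_bot_iff.1 hm
        apply hu
        refine mem_bot_iff.2 ⟨(s - t) / r, ?_⟩
        push_cast; rw [ht, hv]; field_simp; ring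
      have := ev.scale h3 hh hv0 (r := 1 / r) (by positivity) (-s / r)
      have e : ((1 / r : ℚ) : K) * v + ((-s / r : ℚ) : K) = -u := by
        rw [hv]; push_cast; field_simp; ring
      rwa [e] at this
    by_cases hI : Ind u w
    · exact exc_three h3 hh hp hhp hI eu eu' ew
    · obtain ⟨r', s', hr', hw'⟩ := dep u w hu hw hI h1
      apply h2
      refine ⟨r' / r, s' - r' * s / r, by positivity, ?_⟩
      rw [hw', hv]; push_cast; field_simp; ring
  by_cases i12 : Ind u1 u2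
  swap
  · exact opp u1 u2 u3 n1 n3 (dep u1 u2 n1 n2 i12 s12) s13 s23 e1 e2 e3
  by_cases i13 : Ind u1 u3
  swap
  · exact opp u1 u3 u2 n1 n2 (dep u1 u3 n1 n3 i13 s13) s12 (fun h => s23 h.symm) e1 e3 e2
  by_cases i23 : Ind u2 u3
  swap
  · exact opp u2 u3 u1 n2 n1 (dep u2 u3 n2 n3 i23 s23) (fun h => s12 h.symm)
      (fun h => s13 h.symm) e2 e3 e1
  -- all pairs independent
  obtain ⟨z, x, y, e⟩ := i12.span h3 u3
  have hx : x ≠ 0 := by
    rintro rfl
    exact (by
      have := i23 (-z) (-y) 1 (by rw [e]; push_cast; ring)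
      exact one_ne_zero this.2.2)
  have hy : y ≠ 0 := by
    rintro rfl
    exact (by
      have := i13 (-z) (-x) 1 (by rw [e]; push_cast; ring)
      exact one_ne_zero this.2.2)
  have hxK : (x : K) ≠ 0 := by exact_mod_cast hx
  have hyK : (y : K) ≠ 0 := by exact_mod_cast hy
  -- if both signs occur around `v`, we are done
  have fin : ∀ v s t : K, Ind v s → Ind v t → Exc h v → Exc h s → Exc h t →
      (∃ a b y1 y2 z1 z2 : ℚ, v ^ 2 = a * s + y1 * v + z1 ∧ v ^ 2 = b * t + y2 * v + z2 ∧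
        0 < -(a * b)) → False := by
    intro v s t hs ht ev es et ⟨a, b, y1, y2, z1, z2, f1, f2, hab⟩
    have : Exc h (-v) := by
      rcases lt_trichotomy a 0 with ha | ha | ha
      · have hb : 0 < b := by
          by_contra hcon
          nlinarith [mul_nonneg_of_nonpos_of_nonpos ha.le (not_lt.1 hcon)]
        exact Exc.neg_of h3 hh ht hb f2 ev et
      · rw [ha] at hab; norm_num at hab
      · exact Exc.neg_of h3 hh hs ha f1 ev es
    exact exc_three h3 hh hp hhp hs ev this es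
  obtain ⟨a1, y1, z1, ha1, f1⟩ := exists_side h3 i12
  obtain ⟨a2, y2, z2, ha2, f2⟩ := exists_side h3 i12.symm
  obtain ⟨a3, y3, z3, ha3, f3⟩ := exists_side h3 i13.symm
  rcases lt_or_gt_of_ne hy with hyn | hyp
  · -- around `u1`
    refine fin u1 u2 u3 i12 i13 e1 e2 e3 ⟨a1, a1 / y, y1, y1 - a1 * x / y, z1, z1 - a1 * z / y,
      f1, ?_, ?_⟩
    · rw [f1, e]; push_cast; field_simp; ring
    · have : 0 < -(1 / y) := by
        have := one_div_neg.2 hyn; linarith
      have h2 : 0 < a1 * a1 := mul_self_pos.2 ha1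
      have h4 : -(a1 * (a1 / y)) = (a1 * a1) * -(1 / y) := by ring
      rw [h4]; positivity
  rcases lt_or_gt_of_ne hx with hxn | hxp
  · refine fin u2 u1 u3 i12.symm i23 e2 e1 e3 ⟨a2, a2 / x, y2, y2 - a2 * y / x, z2,
      z2 - a2 * z / x, f2, ?_, ?_⟩
    · rw [f2, e]; push_cast; field_simp; ring
    · have : 0 < -(1 / x) := by
        have := one_div_neg.2 hxn; linarith
      have h2 : 0 < a2 * a2 := mul_self_pos.2 ha2
      have h4 : -(a2 * (a2 / x)) = (a2 * a2) * -(1 / x) := by ring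
      rw [h4]; positivity
  · -- `u3` lies between
    refine fin u3 u1 u2 i13.symm i23.symm e3 e1 e2 ⟨a3, -(a3 * y / x), y3, y3 + a3 / x, z3,
      z3 - a3 * z / x, f3, ?_, ?_⟩
    · rw [f3, e]; push_cast; field_simp; ring
    · have h2 : 0 < a3 * a3 := mul_self_pos.2 ha3
      have h4 : -(a3 * -(a3 * y / x)) = (a3 * a3) * (y / x) := by ring
      rw [h4]; positivity

end Pool.Agent.Lib_helper11.CUB
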