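import Mathlib
import Pool.Agent.Lib_helper11.CUB.Exc

/-!
Norms of linear forms are values of minimal polynomials.
-/

namespace Pool.Agent.Lib_helper11.CUB

open Polynomial

variable {K : Type*} [Field K] [NumberField K]

/-- `N(x - u)` is the value of the minimal polynomial. -/
theorem norm_sub_eq (h3 : Module.finrank ℚ K = 3) {u : K}
    (hu : u ∉ (⊥ : IntermediateField ℚ K)) (x : ℚ) :
    Algebra.norm ℚ ((x : K) - u) = (minpoly ℚ u).eval x := by
  have e1 : Algebra.norm ℚ ((x : K) - u) = ((Algebra.lmul ℚ K u).charpoly).eval x := by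
    rw [LinearMap.eval_charpoly, Algebra.norm_apply]
    congr 1
    ext z
    simp [Algebra.smul_def]
  rw [e1]
  congr 1
  have hroot : aeval u (Algebra.lmul ℚ K u).charpoly = 0 := by
    have h1 := LinearMap.aeval_self_charpoly (Algebra.lmul ℚ K u)
    have h2 : Algebra.lmul ℚ K (aeval u (Algebra.lmul ℚ K u).charpoly) = 0 := by
      rw [← Polynomial.aeval_algHom_apply] 
      exact h1
    have h3 := congrArg (fun f : Module.End ℚ K => f 1) h2
    simpa using h3
  have hdvd := minpoly.dvd ℚ u hroot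
  have hm := minpoly.monic (Algebra.IsIntegral.isIntegral (R := ℚ) u)
  have hd : ((Algebra.lmul ℚ K u).charpoly).natDegree = 3 := by
    rw [LinearMap.charpoly_natDegree, h3]
  exact (eq_of_monic_of_dvd_of_natDegree_le hm (LinearMap.charpoly_monic _) hdvd
    (by rw [hd, deg_three h3 hu]))

/-- Integral version. -/
theorem norm_sub_int (h3 : Module.finrank ℚ K = 3) {u : K}
    (hu : u ∉ (⊥ : IntermediateField ℚ K)) (hint : IsIntegral ℤ u) (n : ℤ) :
    Algebra.norm ℚ (((n : ℚ) : K) - u) = (((minpoly ℤ u).eval n : ℤ) : ℚ) := by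
  rw [norm_sub_eq h3 hu, minpoly.isIntegrallyClosed_eq_field_fractions' ℚ hint, eval_map,
    algebraMap_int_eq, eval₂_at_intCast]
  simp

theorem G_int (h3 : Module.finrank ℚ K = 3) {h : ℕ → ℤ} (hh : CM h) {u : K}
    (hu : u ∉ (⊥ : IntermediateField ℚ K)) (hint : IsIntegral ℤ u) (n : ℤ) :
    G h u n = h ((minpoly ℤ u).eval n).natAbs := by
  unfold G
  rw [norm_sub_int h3 hu hint, H_int hh]

theorem nsmul_not_mem {u : K} (hu : u ∉ (⊥ : IntermediateField ℚ K)) {v : ℕ} (hv : 1 ≤ v) :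
    (v : K) * u ∉ (⊥ : IntermediateField ℚ K) := by
  intro hm
  obtain ⟨t, ht⟩ := mem_bot_iff.1 hm
  have hvK : (v : K) ≠ 0 := by exact_mod_cast (by omega : v ≠ 0)
  apply hu
  refine mem_bot_iff.2 ⟨t / v, ?_⟩
  push_cast; rw [ht]; field_simp

theorem nsmul_integral {u : K} (hint : IsIntegral ℤ u) (v : ℕ) : IsIntegral ℤ ((v : K) * u) := by
  have h1 : IsIntegral ℤ (v : K) := by
    have := isIntegral_algebraMap (R := ℤ) (A := K) (x := (v : ℤ))
    simpa using this
  exact h1.mul hint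

/-- Scaled arguments. -/
theorem G_scaled (h3 : Module.finrank ℚ K = 3) {h : ℕ → ℤ} (hh : CM h) {u : K}
    (hu : u ∉ (⊥ : IntermediateField ℚ K)) (hint : IsIntegral ℤ u) {v : ℕ} (hv : 1 ≤ v) {k : ℚ}
    {n : ℤ} (hn : (n : ℚ) = v * k) :
    h ((minpoly ℤ ((v : K) * u)).eval n).natAbs = h v * G h u k := by
  have hvq : (v : ℚ) ≠ 0 := by exact_mod_cast (by omega : v ≠ 0)
  rw [← G_int h3 hh (nsmul_not_mem hu hv) (nsmul_integral hint v) n]
  have := G_scale h3 hh hu hvq k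
  rw [H_nat hh] at this
  rw [← this, hn]
  congr 1
  push_cast; rfl

theorem G_vals {h : ℕ → ℤ} (hh : CM h) {u : K} (hu : u ∉ (⊥ : IntermediateField ℚ K)) (x : ℚ) :
    G h u x = 1 ∨ G h u x = -1 := H_vals hh (norm_ne (sub_ne_zero_of hu x))

/-- From values at fractions to values of the minimal polynomial of `v u`. -/
theorem take_value (h3 : Module.finrank ℚ K = 3) {h : ℕ → ℤ} (hh : CM h) {u : K}
    (hu : u ∉ (⊥ : IntermediateField ℚ K)) (hint : IsIntegral ℤ u) {v D : ℕ} (hv : 1 ≤ v)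
    (hD : D ∣ v) {x : ℕ} (hx : 1 ≤ x) {X : ℚ} {s : ℤ} (hs : s = 1 ∨ s = -1)
    (hne : ¬ ConstOn h D u (-(h v * s)) x X) :
    ∃ n : ℕ, x ≤ n ∧ (n : ℚ) ≤ v * X ∧ h ((minpoly ℤ ((v : K) * u)).eval (n : ℤ)).natAbs = s := by
  unfold ConstOn at hne
  push Not at hne
  obtain ⟨k, hk, h1, h2, hG⟩ := hne
  obtain ⟨m, hm⟩ := mem_ZZ.1 (mul_mem_ZZ_of_dvd hD hk)
  have hvq : (1 : ℚ) ≤ v := by exact_mod_cast hv
  have hxq : (1 : ℚ) ≤ x := by exact_mod_cast hx
  have hk0 : 0 ≤ k := by linarith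
  have hmx : (x : ℚ) ≤ m := by rw [hm]; nlinarith
  have hm0 : 0 ≤ m := by
    have : (0 : ℚ) ≤ m := by linarith
    exact_mod_cast this
  obtain ⟨n, rfl⟩ := Int.eq_ofNat_of_zero_le hm0
  refine ⟨n, by exact_mod_cast hmx, ?_, ?_⟩
  · have : ((n : ℤ) : ℚ) = v * k := hm
    rw [Int.cast_natCast] at this
    rw [this]
    exact mul_le_mul_of_nonneg_left h2 (by linarith)
  · rw [G_scaled h3 hh hu hint hv hm]
    have hv2 := hh.sq hv
    have hv3 := hh.values v hv
    rcases G_vals hh hu k with g | g <;> rcases hv3 with g' | g' <;> rcases hs with g'' | g'' <;>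
      rw [g, g', g''] at hG <;> rw [g, g', g''] <;> first | rfl | (exfalso; exact hG (by norm_num))

end Pool.Agent.Lib_helper11.CUB
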