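import Mathlib
import Pool.Agent.Lib_helper11.CUB.Bridge

/-!
The theorems on cyclic cubic fields, on pairs of generators and on exceptional classes, in terms of
minimal polynomials.
-/

namespace Pool.Agent.Lib_helper11.CUB

open Polynomial

variable {K : Type*} [Field K] [NumberField K]

/-- A conjugate on the side of the square. -/
theorem exists_conj [IsGalois ℚ K] (h3 : Module.finrank ℚ K = 3) {θ : K}
    (hθ : θ ∉ (⊥ : IntermediateField ℚ K)) :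
    ∃ (β : K) (a y z : ℚ), 0 < a ∧ θ ^ 2 = a * β + y * θ + z ∧ Ind θ β ∧
      ∀ (h : ℕ → ℤ) (n : ℚ), G h β n = G h θ n := by
  have hcard : Nat.card (K ≃ₐ[ℚ] K) = 3 := by rw [IsGalois.card_aut_eq_finrank, h3]
  have : Fact (Nat.Prime 3) := ⟨Nat.prime_three⟩
  have : Nontrivial (K ≃ₐ[ℚ] K) := by
    rw [← Finite.one_lt_card_iff_nontrivial, hcard]; norm_num
  obtain ⟨σ, hσ⟩ := exists_ne (1 : K ≃ₐ[ℚ] K)
  have hσ3 : σ ^ 3 = 1 := by rw [← hcard]; exact pow_card_eq_one'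
  have hs3 : ∀ x, σ (σ (σ x)) = x := by
    intro x
    have := congrArg (fun τ : K ≃ₐ[ℚ] K => τ x) hσ3
    simpa [pow_succ] using this
  have hrat : ∀ q : ℚ, σ (q : K) = (q : K) := by
    intro q
    have := σ.commutes q
    simpa using this
  -- fixed elements are rational
  have hfix : ∀ x : K, σ x = x → x ∈ (⊥ : IntermediateField ℚ K) := by
    intro x hx
    rw [IsGalois.mem_bot_iff_fixed]
    intro τ
    have hτ : τ ∈ Subgroup.zpowers σ := mem_zpowers_of_prime_card hcard hσ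
    obtain ⟨k, hk⟩ := Subgroup.mem_zpowers_iff.mp hτ
    have hstab : σ ∈ MulAction.stabilizer (K ≃ₐ[ℚ] K) x := by
      rw [MulAction.mem_stabilizer_iff]; exact hx
    have := (MulAction.stabilizer (K ≃ₐ[ℚ] K) x).zpow_mem hstab k
    rw [hk, MulAction.mem_stabilizer_iff] at this
    exact this
  have hI : Ind θ (σ θ) := by
    intro u v w e
    have hw : w = 0 := by
      by_contra hw
      have hwK : (w : K) ≠ 0 := by exact_mod_cast hw
      obtain ⟨r, hr⟩ : ∃ r : ℚ, r = -v / w := ⟨_, rfl⟩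
      obtain ⟨t, ht⟩ : ∃ t : ℚ, t = -u / w := ⟨_, rfl⟩
      have e1 : σ θ = r * θ + t := by
        rw [hr, ht]; push_cast; field_simp; linear_combination e
      have e2 : σ (σ θ) = r * (r * θ + t) + t := by
        have h0 := congrArg σ e1
        rw [map_add, map_mul, hrat, hrat] at h0
        rw [h0, e1]
      have e3 : θ = r * (r * (r * θ + t) + t) + t := by
        have h0 := congrArg σ e2
        rw [hs3] at h0
        simp only [map_add, map_mul, hrat, e1] at h0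
        exact h0
      have h4 := indep h3 hθ (u := 0) (v := r ^ 3 - 1) (w := (r ^ 2 + r + 1) * t) (by
        push_cast; linear_combination -e3)
      have hr1 : r = 1 := by
        have h5 : (r - 1) * (r ^ 2 + r + 1) = 0 := by linear_combination h4.2
        rcases mul_eq_zero.1 h5 with h6 | h6
        · linarith
        · nlinarith [sq_nonneg (r + 1 / 2)]
      rw [hr1] at e3
      have h7 : (t : K) = 0 := by push_cast at e3; linear_combination (-1 / 3) * e3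
      have h8 : t = 0 := by exact_mod_cast h7
      rw [hr1, h8] at e1
      push_cast at e1
      exact hθ (hfix θ (by rw [e1]; ring))
    have h1 := indep h3 hθ (u := 0) (v := v) (w := u) (by
      rw [hw] at e; push_cast at e ⊢; linear_combination e)
    refine ⟨?_, h1.2, hw⟩
    rw [hw, h1.2] at e
    have : (u : K) = 0 := by push_cast at e; linear_combination e
    exact_mod_cast this
  have hG : ∀ (h : ℕ → ℤ) (x : K) (n : ℚ), G h (σ x) n = G h x n := by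
    intro h x n
    unfold G
    have e : (n : K) - σ x = σ ((n : K) - x) := by rw [map_sub, hrat]
    rw [e, Algebra.norm_eq_of_algEquiv σ]
  obtain ⟨T, hT⟩ := mem_bot_iff.1 (hfix (θ + σ θ + σ (σ θ)) (by
    rw [map_add, map_add, hs3]; ring))
  obtain ⟨a, y, z, ha, e⟩ := exists_side h3 hI
  rcases lt_or_gt_of_ne ha with hneg | hpos
  · refine ⟨σ (σ θ), -a, y - a, z + a * T, by linarith, ?_, ?_, ?_⟩
    · rw [e]; push_cast; rw [hT]; ring
    · intro u v w e'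
      have e2 : σ (σ θ) = (T : K) - θ - σ θ := by rw [hT]; ring
      rw [e2] at e'
      have := hI (u + w * T) (v - w) (-w) (by push_cast; linear_combination e')
      have hw : w = 0 := by linarith [this.2.2]
      refine ⟨?_, by linarith [this.2.1], hw⟩
      have h1 := this.1
      rw [hw] at h1; linarith
    · intro h n; rw [hG, hG]
  · exact ⟨σ θ, a, y, z, hpos, e, hI, fun h n => hG h θ n⟩

theorem take_nat (h3 : Module.finrank ℚ K = 3) {h : ℕ → ℤ} (hh : CM h) {u : K}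
    (hu : u ∉ (⊥ : IntermediateField ℚ K)) (hint : IsIntegral ℤ u) {v D : ℕ} (hv : 1 ≤ v)
    (hD : D ∣ v) {x : ℕ} (hx : 1 ≤ x) {C : ℚ} {C' : ℕ} (hC : v * C ≤ C') {k : ℕ} {s : ℤ}
    (hs : s = 1 ∨ s = -1) (hne : ¬ ConstOn h D u (-(h v * s)) x (C * (x : ℚ) ^ k)) :
    ∃ n : ℕ, x ≤ n ∧ n ≤ C' * x ^ k ∧
      h ((minpoly ℤ ((v : K) * u)).eval (n : ℤ)).natAbs = s := by
  obtain ⟨n, h1, h2, h4⟩ := take_value h3 hh hu hint hv hD hx hs hne
  refine ⟨n, h1, ?_, h4⟩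
  have : (n : ℚ) ≤ ((C' * x ^ k : ℕ) : ℚ) := by
    refine h2.trans ?_
    push_cast
    rw [← mul_assoc]
    exact mul_le_mul_of_nonneg_right hC (by positivity)
  exact_mod_cast this

/-- Cyclic cubic fields. -/
theorem cyclic_final [IsGalois ℚ K] (h3 : Module.finrank ℚ K = 3) {θ : K}
    (hint : IsIntegral ℤ θ) (hθ : θ ∉ (⊥ : IntermediateField ℚ K)) {p : ℕ} (hp : p.Prime) :
    ∃ m : ℕ, 1 ≤ m ∧ ∀ v : ℕ, 1 ≤ v → m ∣ v → ∃ C : ℕ, ∀ h : ℕ → ℤ, CM h → h p = -1 →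
      ∀ x : ℕ, 1 ≤ x → ∀ s : ℤ, (s = 1 ∨ s = -1) → ∃ n : ℕ, x ≤ n ∧ n ≤ C * x ^ 2 ∧
        h ((minpoly ℤ ((v : K) * θ)).eval (n : ℤ)).natAbs = s := by
  obtain ⟨β, a, y, z, ha, e, hI, hconj⟩ := exists_conj h3 hθ
  obtain ⟨D, hD, C, hC, hmain⟩ := conj_main h3 hI ha e hconj (not_isSquare_prime hp)
  refine ⟨D, hD, fun v hv hDv => ?_⟩
  obtain ⟨C', hC'⟩ := exists_nat_ge ((v : ℚ) * C)
  refine ⟨C', fun h hh hhp x hx s hs => ?_⟩
  exact take_nat h3 hh hθ hint hv hDv hx hC' hs (hmain h hh hhp x (by exact_mod_cast hx) _)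

/-- Pairs of generators. -/
theorem pair_final (h3 : Module.finrank ℚ K = 3) {α β : K} (hα : IsIntegral ℤ α)
    (hβ : IsIntegral ℤ β) (hα0 : α ∉ (⊥ : IntermediateField ℚ K)) {a y z : ℚ} (ha : 0 < a)
    (e : α ^ 2 = a * β + y * α + z) {a' y' z' : ℚ} (ha' : 0 < a')
    (e' : β ^ 2 = a' * α + y' * β + z') {p : ℕ} (hp : p.Prime) :
    ∃ m : ℕ, 1 ≤ m ∧ ∀ v : ℕ, 1 ≤ v → m ∣ v → ∃ C : ℕ, ∀ h : ℕ → ℤ, CM h → h p = -1 →
      ∀ x : ℕ, 1 ≤ x → ∃ γ : K, (γ = α ∨ γ = β) ∧ ∀ s : ℤ, (s = 1 ∨ s = -1) →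
        ∃ n : ℕ, x ≤ n ∧ n ≤ C * x ^ 2 ∧
          h ((minpoly ℤ ((v : K) * γ)).eval (n : ℤ)).natAbs = s := by
  have haK : (a : K) ≠ 0 := by exact_mod_cast ha.ne'
  have hI : Ind α β := by
    intro u v w e1
    have h1 := indep h3 hα0 (u := w / a) (v := v - w * y / a) (w := u - w * z / a) (by
      have e2 : β = (α ^ 2 - y * α - z) / a := by
        field_simp; linear_combination -e
      rw [e2] at e1
      push_cast
      field_simp at e1 ⊢
      linear_combination e1)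
    have hw : w = 0 := by
      rcases div_eq_zero_iff.1 h1.1 with h | h
      · exact h
      · exact absurd h ha.ne'
    have hv : v = 0 := by have := h1.2; rw [hw] at this; simpa using this
    refine ⟨?_, hv, hw⟩
    rw [hw, hv] at e1
    have : (u : K) = 0 := by push_cast at e1; linear_combination e1
    exact_mod_cast this
  obtain ⟨r, hr, hpr⟩ := exists_other_prime p
  obtain ⟨D, hD, C, hC, hmain⟩ := pair_main h3 hI ha e ha' e' (not_isSquare_prime hr)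
    (not_square_of_prime_mul hp hr hpr)
  refine ⟨D, hD, fun v hv hDv => ?_⟩
  obtain ⟨C', hC'⟩ := exists_nat_ge ((v : ℚ) * C)
  refine ⟨C', fun h hh hhp x hx => ?_⟩
  have hne : h r ≠ h (p * r) := by
    rw [hh.mul p r hp.one_lt.le hr.one_lt.le, hhp]
    rcases hh.values r hr.one_lt.le with h1 | h1 <;> rw [h1] <;> norm_num
  have hxq : (1 : ℚ) ≤ x := by exact_mod_cast hx
  by_cases hc : ∃ ε : ℤ, ConstOn h D α ε x (C * (x : ℚ) ^ 2)
  · obtain ⟨ε, hc⟩ := hc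
    refine ⟨β, Or.inr rfl, fun s hs => ?_⟩
    exact take_nat h3 hh hI.right hβ hv hDv hx hC' hs (fun h2 => hmain h hh hne x hxq _ _ ⟨hc, h2⟩)
  · refine ⟨α, Or.inl rfl, fun s hs => ?_⟩
    exact take_nat h3 hh hα0 hα hv hDv hx hC' hs (fun h2 => hc ⟨_, h2⟩)

/-- A generator which is not exceptional. -/
theorem not_exc_final (h3 : Module.finrank ℚ K = 3) {h : ℕ → ℤ} (hh : CM h) {θ : K}
    (hint : IsIntegral ℤ θ) (hθ : θ ∉ (⊥ : IntermediateField ℚ K)) (hne : ¬ Exc h θ) :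
    ∃ m : ℕ, 1 ≤ m ∧ ∀ v : ℕ, 1 ≤ v → m ∣ v → ∀ N : ℕ, ∀ s : ℤ, (s = 1 ∨ s = -1) →
      ∃ n : ℕ, N ≤ n ∧ h ((minpoly ℤ ((v : K) * θ)).eval (n : ℤ)).natAbs = s := by
  unfold Exc at hne
  push Not at hne
  obtain ⟨D1, hD1, h1⟩ := hne 1
  obtain ⟨D2, hD2, h2⟩ := hne (-1)
  refine ⟨D1 * D2, Nat.mul_pos hD1 hD2, fun v hv hDv N s hs => ?_⟩
  have key : ∀ ε : ℤ, (ε = 1 ∨ ε = -1) → ∃ D : ℕ, D ∣ v ∧ ∀ X : ℚ, ∃ n : ℚ, (D : ℚ) * n ∈ ZZ ∧
      X ≤ n ∧ G h θ n ≠ ε := by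
    intro ε hε
    rcases hε with rfl | rfl
    · exact ⟨D1, (dvd_mul_right _ _).trans hDv, h1⟩
    · exact ⟨D2, (dvd_mul_left _ _).trans hDv, h2⟩
  have hvv := hh.values v hv
  obtain ⟨D, hD, h4⟩ := key (-(h v * s)) (by
    rcases hvv with g | g <;> rcases hs with g' | g' <;> rw [g, g'] <;> norm_num)
  obtain ⟨k, hk, hk2, hk3⟩ := h4 (max 1 (N : ℚ))
  have hk1 : (1 : ℚ) ≤ k := (le_max_left _ _).trans hk2
  have hkN : (N : ℚ) ≤ k := (le_max_right _ _).trans hk2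
  obtain ⟨m, hm⟩ := mem_ZZ.1 (mul_mem_ZZ_of_dvd hD hk)
  have hvq : (1 : ℚ) ≤ v := by exact_mod_cast hv
  have hmN : (N : ℚ) ≤ m := by rw [hm]; nlinarith
  have hm0 : 0 ≤ m := by
    have : (0 : ℚ) ≤ m := by rw [hm]; positivity
    exact_mod_cast this
  obtain ⟨n, rfl⟩ := Int.eq_ofNat_of_zero_le hm0
  refine ⟨n, by exact_mod_cast hmN, ?_⟩
  rw [G_scaled h3 hh hθ hint hv hm]
  rcases G_vals hh hθ k with g | g <;> rcases hvv with g' | g' <;> rcases hs with g'' | g'' <;>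
    rw [g, g', g''] at hk3 <;> rw [g, g', g''] <;> first | rfl | (exfalso; exact hk3 (by norm_num))

/-- At most two exceptional classes. -/
theorem classes_final (h3 : Module.finrank ℚ K = 3) {h : ℕ → ℤ} (hh : CM h) {p : ℕ}
    (hp : p.Prime) (hhp : h p = -1) :
    ∃ τ₁ τ₂ : K, ∀ θ : K, IsIntegral ℤ θ → θ ∉ (⊥ : IntermediateField ℚ K) →
      ¬ Same τ₁ θ → ¬ Same τ₂ θ →
      ∃ m : ℕ, 1 ≤ m ∧ ∀ v : ℕ, 1 ≤ v → m ∣ v → ∀ N : ℕ, ∀ s : ℤ, (s = 1 ∨ s = -1) →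
        ∃ n : ℕ, N ≤ n ∧ h ((minpoly ℤ ((v : K) * θ)).eval (n : ℤ)).natAbs = s := by
  by_cases hc : ∃ τ₁ τ₂ : K, τ₁ ∉ (⊥ : IntermediateField ℚ K) ∧
      τ₂ ∉ (⊥ : IntermediateField ℚ K) ∧ Exc h τ₁ ∧ Exc h τ₂ ∧ ¬ Same τ₁ τ₂
  · obtain ⟨τ₁, τ₂, n1, n2, e1, e2, hs⟩ := hc
    refine ⟨τ₁, τ₂, fun θ hint hθ s1 s2 => not_exc_final h3 hh hint hθ (fun he => ?_)⟩
    exact exc_classes h3 hh hp hhp n1 n2 hθ hs s1 s2 e1 e2 he
  · by_cases hc1 : ∃ τ : K, τ ∉ (⊥ : IntermediateField ℚ K) ∧ Exc h τ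
    · obtain ⟨τ, n1, e1⟩ := hc1
      refine ⟨τ, τ, fun θ hint hθ s1 _ => not_exc_final h3 hh hint hθ (fun he => ?_)⟩
      exact hc ⟨τ, θ, n1, hθ, e1, he, s1⟩
    · exact ⟨0, 0, fun θ hint hθ _ _ => not_exc_final h3 hh hint hθ (fun he => hc1 ⟨θ, hθ, he⟩)⟩

end Pool.Agent.Lib_helper11.CUB
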