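import Mathlib
import Pool.Agent.Lib_helper11.CUB.Final

/-!
Generators which are squares: if `(s - 1)^3 = b (s - 2)` then `s^2` is never exceptional.
-/

namespace Pool.Agent.Lib_helper11.CUB

open Polynomial

variable {K : Type*} [Field K] [NumberField K]

theorem norm_cubic (h3 : Module.finrank ℚ K = 3) {u : K} (hu : u ∉ (⊥ : IntermediateField ℚ K))
    {A B C : ℚ} (e : u ^ 3 + A * u ^ 2 + B * u + C = 0) (x : ℚ) :
    Algebra.norm ℚ ((x : K) - u) = x ^ 3 + A * x ^ 2 + B * x + C := by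
  rw [norm_sub_eq h3 hu]
  obtain ⟨p, hp⟩ : ∃ p : ℚ[X], p = X ^ 3 + Polynomial.C A * X ^ 2 + Polynomial.C B * X +
    Polynomial.C C := ⟨_, rfl⟩
  have hroot : aeval u p = 0 := by
    rw [hp]
    simp only [map_add, map_mul, map_pow, aeval_X, aeval_C, eq_ratCast]
    exact e
  have hdeg : p.natDegree = 3 := by rw [hp]; compute_degree!
  have hmon : p.Monic := by rw [hp]; monicity!
  have hm := minpoly.monic (Algebra.IsIntegral.isIntegral (R := ℚ) u)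
  have : p = minpoly ℚ u := eq_of_monic_of_dvd_of_natDegree_le hm hmon (minpoly.dvd ℚ u hroot)
    (by rw [hdeg, deg_three h3 hu])
  rw [← this, hp]
  simp

theorem norm_s (h3 : Module.finrank ℚ K = 3) {s : K} (hs : s ∉ (⊥ : IntermediateField ℚ K))
    {b : ℚ} (e : g (b : K) s = 0) (x : ℚ) : Algebra.norm ℚ ((x : K) - s) = g b x := by
  rw [norm_cubic h3 hs (A := -3) (B := 3 - b) (C := 2 * b - 1) (by
    unfold g at e; push_cast; linear_combination e)]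
  unfold g; ring

theorem NR_of_s (h3 : Module.finrank ℚ K = 3) {s : K} (hs : s ∉ (⊥ : IntermediateField ℚ K))
    {b : ℚ} (e : g (b : K) s = 0) : NR b := by
  intro x
  rw [← norm_s h3 hs e]
  exact norm_ne (sub_ne_zero_of hs x)

theorem F_root {s : K} {b : ℚ} (e : g (b : K) s = 0) : F (b : K) 1 (s ^ 2) = 0 := by
  have := id1 (b : K) 1 s
  rw [e, zero_mul, mul_zero, one_mul] at this
  exact this

theorem sq_not_mem (h3 : Module.finrank ℚ K = 3) {s : K} (hs : s ∉ (⊥ : IntermediateField ℚ K))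
    {b : ℚ} (e : g (b : K) s = 0) : s ^ 2 ∉ (⊥ : IntermediateField ℚ K) := by
  intro hm
  obtain ⟨t, ht⟩ := mem_bot_iff.1 hm
  have := (indep h3 hs (u := 1) (v := 0) (w := -t) (by push_cast; rw [ht]; ring)).1
  norm_num at this

theorem norm_phi (h3 : Module.finrank ℚ K = 3) {s : K} (hs : s ∉ (⊥ : IntermediateField ℚ K))
    {b : ℚ} (e : g (b : K) s = 0) (x : ℚ) :
    Algebra.norm ℚ ((x : K) - s ^ 2) = F b 1 x := by
  have h0 := F_root e
  rw [norm_cubic h3 (sq_not_mem h3 hs e) (A := -(2 * b + 3)) (B := b ^ 2 + 6 * b + 3)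
    (C := -(2 * b - 1) ^ 2) (by
    unfold F at h0; push_cast; linear_combination h0)]
  unfold F; ring

theorem Ind_sq (h3 : Module.finrank ℚ K = 3) {s : K} (hs : s ∉ (⊥ : IntermediateField ℚ K)) :
    Ind (s ^ 2) s := by
  intro u v w e
  have h1 := indep h3 hs (u := v) (v := w) (w := u) (by linear_combination e)
  refine ⟨?_, h1.1, h1.2⟩
  rw [h1.1, h1.2] at e
  have : (u : K) = 0 := by push_cast at e; linear_combination e
  exact_mod_cast this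

/-- Constancy along `s^2` gives both sides of `s`. -/
theorem stepS (h3 : Module.finrank ℚ K = 3) {s : K} (hs : s ∉ (⊥ : IntermediateField ℚ K))
    {b : ℚ} (e : g (b : K) s = 0) {D : ℕ} (hD : 1 ≤ D) :
    ∃ D' : ℕ, 1 ≤ D' ∧ D ∣ D' ∧ ∃ C : ℚ, 1 ≤ C ∧ ∀ h : ℕ → ℤ, CM h → ∀ x X : ℚ, 1 ≤ x →
      ∀ ε : ℤ, ConstOn h D' (s ^ 2) ε x X → ∀ n : ℚ, (D : ℚ) * n ∈ ZZ → C * x ≤ n →
        C * n ^ 3 ≤ X → G h s n = h 2 ∧ G h (-s) n = ε * h 2 := by
  obtain ⟨E, hE, hl⟩ := common_den [b]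
  have hb := NR_of_s h3 hs e
  have hbn := abs_nonneg b
  refine ⟨2 * (D * D * D) * E,
    Nat.mul_pos (Nat.mul_pos two_pos (Nat.mul_pos (Nat.mul_pos hD hD) hD)) hE,
    ⟨2 * (D * D) * E, by ring⟩, 5 + |b|, by linarith, ?_⟩
  intro h hh x X hx ε hc n hn h1 h2
  have l1 := hl b (by simp)
  have hDD : ((D : ℤ) : ℚ) ∈ ZZ := int_mem _
  have hEE : ((E : ℤ) : ℚ) ∈ ZZ := int_mem _
  rw [Int.cast_natCast] at hDD hEE
  have i2 : (2 : ℚ) ∈ ZZ := by exact_mod_cast int_mem 2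
  have i3 : (3 : ℚ) ∈ ZZ := by exact_mod_cast int_mem 3
  have i8 : (8 : ℚ) ∈ ZZ := by exact_mod_cast int_mem 8
  have hnb : 5 + |b| ≤ n := by
    have : (5 + |b|) * 1 ≤ (5 + |b|) * x := mul_le_mul_of_nonneg_left hx (by linarith)
    linarith
  have hn2 : 2 + |b| ≤ n := by linarith
  have hxn : x ≤ n := by
    have : 1 * x ≤ (5 + |b|) * x := mul_le_mul_of_nonneg_right (by linarith) (by linarith)
    linarith
  have hn1 : 1 ≤ n := by linarith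
  have hnn : n ≤ n ^ 2 := by nlinarith
  have hnn3 : n ^ 2 ≤ n ^ 3 := by nlinarith [sq_nonneg n]
  have hn3 : 5 * n ^ 3 ≤ X := by
    refine le_trans ?_ h2
    exact mul_le_mul_of_nonneg_right (by linarith) (by positivity)
  have hn31 : 1 ≤ n ^ 3 := one_le_pow₀ hn1
  have m0 : ((2 * (D * D * D) * E : ℕ) : ℚ) * n ^ 2 ∈ ZZ := by
    have : ((2 * (D * D * D) * E : ℕ) : ℚ) * n ^ 2 = 2 * D * E * (D * n) ^ 2 := by push_cast; ring
    rw [this]
    exact mul_mem (mul_mem (mul_mem i2 hDD) hEE) (pow_mem hn 2)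
  have m1 : ((2 * (D * D * D) * E : ℕ) : ℚ) * (n ^ 2 + 4) ∈ ZZ := by
    rw [mul_add]
    refine add_mem m0 ?_
    have : ((2 * (D * D * D) * E : ℕ) : ℚ) * 4 = 8 * (D * D * D) * E := by push_cast; ring
    rw [this]
    exact mul_mem (mul_mem i8 (mul_mem (mul_mem hDD hDD) hDD)) hEE
  have m2 : ((2 * (D * D * D) * E : ℕ) : ℚ) * (n ^ 2 + g b n / 2) ∈ ZZ := by
    rw [mul_add]
    refine add_mem m0 ?_
    have : ((2 * (D * D * D) * E : ℕ) : ℚ) * (g b n / 2) =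
        E * (D * n - D) ^ 3 - (E * b) * (D * D) * (D * n - 2 * D) := by
      push_cast; unfold g; ring
    rw [this]
    refine sub_mem (mul_mem hEE (pow_mem (sub_mem hn hDD) 3))
      (mul_mem (mul_mem l1 (mul_mem hDD hDD)) (sub_mem hn (mul_mem i2 hDD)))
  have gl := g_lower hn2
  have gu := g_upper hn2
  have G0 := hc (n ^ 2) m0 (by linarith) (by linarith)
  have G1 := hc (n ^ 2 + 4) m1 (by linarith) (by linarith)
  have G2 := hc (n ^ 2 + g b n / 2) m2 (by linarith) (by linarith)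
  unfold G at G0 G1 G2
  rw [norm_phi h3 hs e] at G0 G1 G2
  have gs : G h s n = H h (g b n) := by unfold G; rw [norm_s h3 hs e]
  have gs' : G h (-s) n = H h (g b (-n)) := by
    have := G_neg h3 h s (-n)
    rw [neg_neg] at this
    rw [this]; unfold G; rw [norm_s h3 hs e]
  rw [gs, gs']
  have hε : ε * ε = 1 := by rw [← G0]; exact H_sq hh (hb.F_ne _)
  have c1 := congrArg (H h) (id2 b 1 n)
  rw [show (1 : ℚ) * n ^ 2 + 1 / 2 * g b n = n ^ 2 + g b n / 2 by ring, one_mul,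
    H_mul hh (by norm_num) (hb.F_ne _), H_mul hh (hb n) (hb.F_ne _), G1, G2, H_eight hh] at c1
  have k1 : H h (g b n) = h 2 := by linear_combination (-ε) * c1 + (h 2 - H h (g b n)) * hε
  refine ⟨k1, ?_⟩
  have c2 := congrArg (H h) (id1 b 1 n)
  rw [one_mul, G0, show (-1 ^ 3 * (g b n * g b (-n)) : ℚ) = -(g b n * g b (-n)) by ring, H_neg,
    H_mul hh (hb _) (hb _), k1] at c2
  have s2 := hh.sq (show 1 ≤ 2 by norm_num)
  linear_combination (-h 2) * c2 - H h (g b (-n)) * s2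

/-- The squares are not exceptional. -/
theorem square_main (h3 : Module.finrank ℚ K = 3) {s : K}
    (hs : s ∉ (⊥ : IntermediateField ℚ K)) {b : ℚ} (e : g (b : K) s = 0) {q q' : ℕ}
    (hq : ¬ IsSquare (q : ℤ)) (hq' : ¬ IsSquare (q' : ℤ)) :
    ∃ D : ℕ, 1 ≤ D ∧ ∃ C : ℚ, 1 ≤ C ∧ ∀ h : ℕ → ℤ, CM h → h q ≠ h q' → ∀ x : ℚ, 1 ≤ x →
      ∀ ε : ℤ, ¬ ConstOn h D (s ^ 2) ε x (C * x ^ 6) := by
  have hI := Ind_sq h3 hs
  have hb := NR_of_s h3 hs e
  have hb8 := hb.ne8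
  -- the side of the square
  obtain ⟨β, a, ha, hIβ, hβ, eβ⟩ : ∃ (β : K) (a : ℚ), 0 < a ∧ Ind (s ^ 2) β ∧
      (β = s ∨ β = -s) ∧ (s ^ 2) ^ 2 = a * β + ((b + 6 : ℚ) : K) * s ^ 2 + ((3 - 6 * b : ℚ) : K) := by
    have e4 : (s ^ 2) ^ 2 = ((b - 8 : ℚ) : K) * s + ((b + 6 : ℚ) : K) * s ^ 2 +
        ((3 - 6 * b : ℚ) : K) := by
      unfold g at e; push_cast; linear_combination (s + 3) * e
    rcases lt_or_gt_of_ne hb8 with h | h
    · exact ⟨-s, 8 - b, by linarith, hI.neg, Or.inr rfl, by rw [e4]; push_cast; ring⟩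
    · exact ⟨s, b - 8, by linarith, hI, Or.inl rfl, e4⟩
  obtain ⟨D1, hD1, C1, hC1, hT1⟩ := typeI h3 hI hq
  obtain ⟨D2, hD2, C2, hC2, hT2⟩ := typeI h3 hI hq'
  obtain ⟨D3, hD3, hdvd3, C3, hC3, hR⟩ := stepR h3 hIβ ha eβ (Nat.mul_pos hD1 hD2)
  obtain ⟨D4, hD4, hdvd4, C4, hC4, hS⟩ := stepS h3 hs e hD3
  obtain ⟨B, hB⟩ : ∃ B : ℚ, B = C1 * C2 * (C3 * C4) := ⟨_, rfl⟩
  have h34 : 1 ≤ C3 * C4 := by nlinarith
  have h12 : 1 ≤ C1 * C2 := by nlinarith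
  have hB1 : 1 ≤ B := by rw [hB]; nlinarith
  have hB0 : 0 < B := by linarith
  have hC34B : C3 * C4 ≤ B := by
    rw [hB]
    have : 1 * (C3 * C4) ≤ C1 * C2 * (C3 * C4) := mul_le_mul_of_nonneg_right h12 (by linarith)
    linarith
  have hC3B : C3 ≤ B := by
    have : C3 ≤ C3 * C4 := by nlinarith
    linarith
  have hC4B : C4 ≤ B := by
    have : C4 ≤ C3 * C4 := by nlinarith
    linarith
  refine ⟨D4, hD4, B ^ 10, one_le_pow₀ hB1, ?_⟩
  intro h hh hne x hx ε hc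
  have hx0 : 0 ≤ x := by linarith
  have hx2 : x ≤ x ^ 2 := by nlinarith
  have hx3 : x ^ 2 ≤ x ^ 6 := pow_le_pow_right₀ hx (by norm_num)
  -- the signs along `s` and `-s`
  have hlow : ∀ n : ℚ, C4 * x ≤ n → x ≤ n := by
    intro n hn; nlinarith
  obtain ⟨X1, hX1⟩ : ∃ X1 : ℚ, X1 = B ^ 3 * x ^ 2 := ⟨_, rfl⟩
  have hX1' : B ^ 10 * x ^ 6 = B * X1 ^ 3 := by rw [hX1]; ring
  have hX10 : 0 ≤ X1 := by rw [hX1]; positivity
  have hX11 : 1 ≤ X1 := by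
    rw [hX1]
    have h1 : 1 ≤ B ^ 3 := one_le_pow₀ hB1
    have h2 : 1 ≤ x ^ 2 := one_le_pow₀ hx
    nlinarith
  have hS' : ∀ n : ℚ, (D3 : ℚ) * n ∈ ZZ → C4 * x ≤ n → n ≤ X1 →
      G h s n = h 2 ∧ G h (-s) n = ε * h 2 := by
    intro n hn h1 h2
    refine hS h hh x _ hx ε hc n hn h1 ?_
    rw [hX1']
    have hn0 : 0 ≤ n := by nlinarith
    exact mul_le_mul hC4B (pow_le_pow_left₀ hn0 h2 3) (by positivity) hB0.le
  have hcφ : ConstOn h D3 (s ^ 2) ε (C4 * x) X1 := by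
    refine hc.mono hdvd4 (by nlinarith) ?_
    rw [hX1']
    have h1 : X1 ≤ X1 ^ 3 := le_self_pow₀ hX11 (by norm_num)
    have h2 : 1 * X1 ^ 3 ≤ B * X1 ^ 3 := mul_le_mul_of_nonneg_right hB1 (by positivity)
    linarith
  obtain ⟨ε', hcβ⟩ : ∃ ε' : ℤ, ConstOn h D3 β ε' (C4 * x) X1 := by
    rcases hβ with rfl | rfl
    · exact ⟨h 2, fun n hn h1 h2 => (hS' n hn h1 h2).1⟩
    · exact ⟨ε * h 2, fun n hn h1 h2 => (hS' n hn h1 h2).2⟩
  have one : ∀ (q : ℕ) (D C : ℚ) (E : ℕ), (E : ℚ) = D → E ∣ D1 * D2 → 1 ≤ C → C ≤ C1 * C2 →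
      (∀ T : ℚ, 1 ≤ T → ∃ n n' m m' : ℚ,
      (D * n ∈ ZZ ∧ D * n' ∈ ZZ ∧ D * m ∈ ZZ ∧ D * m' ∈ ZZ) ∧
      (T ≤ n ∧ n ≤ C * T) ∧ (T ≤ n' ∧ n' ≤ C * T) ∧ (T ≤ m ∧ m ≤ C * T) ∧
      (T ≤ m' ∧ m' ≤ C * T) ∧
      ∀ h : ℕ → ℤ, CM h → G h (s ^ 2) n * G h (-s ^ 2) n' = h q * (G h s m * G h (-s) m')) →
      h q = H h a * ε * ε' := by
    intro q D C E hE hdE hC hC12 hT
    obtain ⟨n, n', m, m', ⟨l1, l2, l3, l4⟩, ⟨a1, a2⟩, ⟨b1, b2⟩, ⟨c1, c2⟩, ⟨d1, d2⟩, hrel⟩ :=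
      hT (C3 * C4 * x) (by nlinarith)
    rw [← hE] at l1 l2 l3 l4
    have hCB : C * (C3 * C4 * x) ≤ B * x := by
      have : C * (C3 * C4) ≤ C1 * C2 * (C3 * C4) :=
        mul_le_mul_of_nonneg_right hC12 (by linarith)
      have h5 := mul_le_mul_of_nonneg_right this hx0
      rw [hB]; linarith
    have hB3 : B ≤ B ^ 3 := le_self_pow₀ hB1 (by norm_num)
    have hBx : B * x ≤ X1 := by
      rw [hX1]
      calc B * x ≤ B ^ 3 * x := mul_le_mul_of_nonneg_right hB3 hx0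
        _ ≤ B ^ 3 * x ^ 2 := mul_le_mul_of_nonneg_left hx2 (by positivity)
    have hC4x : C4 * x ≤ C3 * C4 * x := by
      have : 1 * C4 ≤ C3 * C4 := mul_le_mul_of_nonneg_right hC3 (by linarith)
      have := mul_le_mul_of_nonneg_right this hx0
      linarith
    have hdE' : E ∣ D3 := hdE.trans hdvd3
    have g1 : G h (s ^ 2) n = ε := hcφ n (mul_mem_ZZ_of_dvd hdE' l1) (by linarith) (by linarith)
    have g2 := (hS' m (mul_mem_ZZ_of_dvd hdE' l3) (by linarith) (by linarith)).1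
    have g4 := (hS' m' (mul_mem_ZZ_of_dvd hdE' l4) (by linarith) (by linarith)).2
    have g3 : G h (-s ^ 2) n' = H h a * ε * ε' := by
      refine hR h hh (C4 * x) X1 (by nlinarith) ε ε' hcφ hcβ n' (mul_mem_ZZ_of_dvd hdE l2)
        (by linarith) ?_
      have h1 : n' ^ 2 ≤ (B * x) ^ 2 := pow_le_pow_left₀ (by nlinarith) (b2.trans hCB) 2
      calc C3 * n' ^ 2 ≤ B * (B * x) ^ 2 := mul_le_mul hC3B h1 (by positivity) hB0.le
        _ = X1 := by rw [hX1]; ring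
    have key := hrel h hh
    rw [g1, g2, g3, g4] at key
    have hε : ε * ε = 1 := by rw [← g1]; exact G_sq hh hI.left _
    have s2 := hh.sq (show 1 ≤ 2 by norm_num)
    -- `ε (Ha ε ε') = hq (h2 (ε h2))`
    linear_combination (-ε) * key + H h a * ε * ε' * hε - h q * h 2 * h 2 * hε - h q * s2
  have o1 := one q D1 C1 D1 rfl (dvd_mul_right _ _) hC1 (by nlinarith) hT1
  have o2 := one q' D2 C2 D2 rfl (dvd_mul_left _ _) hC2 (by nlinarith) hT2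
  exact hne (by rw [o1, o2])

end Pool.Agent.Lib_helper11.CUB
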