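import Mathlib
import Pool.Agent.Lib_helper11.CUB.Square

/-!
The generators `κ (P x + S)^2`, `x^3 = P x - S`, of a cubic field.
-/

namespace Pool.Agent.Lib_helper11.CUB

open Polynomial

variable {K : Type*} [Field K] [NumberField K]

/-- The minimal polynomial of `κ (P x + S)^2`, `x^3 = P x - S`. -/
noncomputable def cub2 (P S κ : ℤ) : ℤ[X] :=
  X ^ 3 - C (κ * (2 * P ^ 3 + 3 * S ^ 2)) * X ^ 2 +
    C (κ ^ 2 * (P ^ 6 + 6 * P ^ 3 * S ^ 2 + 3 * S ^ 4)) * X -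
    C (κ ^ 3 * S ^ 2 * (2 * P ^ 3 - S ^ 2) ^ 2)

theorem cub2_natDegree (P S κ : ℤ) : (cub2 P S κ).natDegree = 3 := by
  unfold cub2; compute_degree!

theorem cub2_monic (P S κ : ℤ) : (cub2 P S κ).Monic := by
  unfold cub2; monicity!

theorem cub2_root {P S : ℤ} {x : K} (hx : x ^ 3 - P * x + S = 0) (κ : ℤ) :
    aeval ((κ : K) * (P * x + S) ^ 2) (cub2 P S κ) = 0 := by
  unfold cub2
  simp only [map_sub, map_add, map_mul, map_pow, aeval_X, eq_intCast, map_intCast, map_ofNat]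
  have e : ((P : K) * x + S) ^ 6 - (2 * (P : K) ^ 3 + 3 * (S : K) ^ 2) * ((P : K) * x + S) ^ 4 +
      ((P : K) ^ 6 + 6 * (P : K) ^ 3 * (S : K) ^ 2 + 3 * (S : K) ^ 4) * ((P : K) * x + S) ^ 2 -
      (S : K) ^ 2 * (2 * (P : K) ^ 3 - (S : K) ^ 2) ^ 2 = 0 := by
    linear_combination ((P : K) ^ 6 * x ^ 3 + 6 * (P : K) ^ 5 * S * x ^ 2 +
      (12 * (P : K) ^ 4 * (S : K) ^ 2 - (P : K) ^ 7) * x +
      (8 * (P : K) ^ 3 * (S : K) ^ 3 - 3 * (P : K) ^ 6 * S)) * hx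
  linear_combination (κ : K) ^ 3 * e

theorem scale_const (h3 : Module.finrank ℚ K = 3) {u : K} (hu : u ∉ (⊥ : IntermediateField ℚ K))
    {r : ℚ} (hr : 0 < r) {D : ℕ} (hD : 1 ≤ D) {C : ℚ} (hC : 1 ≤ C) (k : ℕ) :
    ∃ D' : ℕ, 1 ≤ D' ∧ ∃ C' : ℚ, ∀ h : ℕ → ℤ, CM h →
      (∀ x : ℚ, 1 ≤ x → ∀ ε : ℤ, ¬ ConstOn h D u ε x (C * x ^ k)) →
      ∀ x : ℚ, 1 ≤ x → ∀ ε : ℤ, ¬ ConstOn h D' ((r : K) * u) ε x (C' * x ^ k) := by
  have hir : 0 < 1 / r := by positivity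
  refine ⟨D * r.den, Nat.mul_pos hD r.den_pos, r * (C * (1 + 1 / r) ^ k), ?_⟩
  intro h hh hmain x hx ε hc
  refine hmain ((1 + 1 / r) * x) (by nlinarith) (H h r * ε) ?_
  intro n hn h1 h2
  have e := G_scale h3 hh hu hr.ne' n
  have hrn : G h ((r : K) * u) (r * n) = ε := by
    apply hc
    · have : ((D * r.den : ℕ) : ℚ) * (r * n) = (r * r.den) * (D * n) := by push_cast; ring
      rw [this, Rat.mul_den_eq_num r]
      exact mul_mem (int_mem _) hn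
    · have h4 : r * ((1 + 1 / r) * x) ≤ r * n := mul_le_mul_of_nonneg_left h1 hr.le
      have h5 : r * ((1 + 1 / r) * x) = r * x + x := by field_simp
      have h6 : 0 ≤ r * x := by positivity
      linarith
    · have h4 : r * n ≤ r * (C * ((1 + 1 / r) * x) ^ k) := mul_le_mul_of_nonneg_left h2 hr.le
      have h5 : r * (C * ((1 + 1 / r) * x) ^ k) = r * (C * (1 + 1 / r) ^ k) * x ^ k := by
        rw [mul_pow]; ring
      linarith
  rw [hrn] at e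
  have hr2 := H_sq hh hr.ne'
  linear_combination (-(H h r)) * e - G h u n * hr2

/-- `κ (P x + S)^2` has both signs. -/
theorem square_final (h3 : Module.finrank ℚ K = 3) {P S : ℤ} {x : K}
    (hx : x ^ 3 - P * x + S = 0) (hx0 : x ∉ (⊥ : IntermediateField ℚ K)) (hP : P ≠ 0) :
    (∀ κ : ℤ, κ ≠ 0 → minpoly ℤ ((κ : K) * (P * x + S) ^ 2) = cub2 P S κ ∧
      IntermediateField.adjoin ℚ {(κ : K) * (P * x + S) ^ 2} = (⊤ : IntermediateField ℚ K)) ∧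
    ∀ p : ℕ, p.Prime →
      ∃ m : ℕ, 1 ≤ m ∧ ∀ κ : ℕ, 1 ≤ κ → m ∣ κ → ∃ C : ℕ, ∀ h : ℕ → ℤ, CM h → h p = -1 →
        ∀ X : ℕ, 1 ≤ X → ∀ s : ℤ, (s = 1 ∨ s = -1) → ∃ n : ℕ, X ≤ n ∧ n ≤ C * X ^ 6 ∧
          h ((cub2 P S κ).eval (n : ℤ)).natAbs = s := by
  have hS := S_ne (no_root h3 hx0 hx)
  have hSK : (S : K) ≠ 0 := by exact_mod_cast hS
  have hSQ : (S : ℚ) ≠ 0 := by exact_mod_cast hS
  have hPK : (P : K) ≠ 0 := by exact_mod_cast hP
  obtain ⟨b, hb⟩ : ∃ b : ℚ, b = (P : ℚ) ^ 3 / (S : ℚ) ^ 2 := ⟨_, rfl⟩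
  have hbK : (b : K) = (P : K) ^ 3 / (S : K) ^ 2 := by rw [hb]; push_cast; ring
  obtain ⟨s, hs⟩ : ∃ s : K, s = 1 + P * x / S := ⟨_, rfl⟩
  have hs0 : s ∉ (⊥ : IntermediateField ℚ K) := by
    intro hm
    obtain ⟨t, ht⟩ := mem_bot_iff.1 hm
    apply hx0
    refine mem_bot_iff.2 ⟨(t - 1) * S / P, ?_⟩
    push_cast; rw [ht, hs]; field_simp; ring
  have hg : g (b : K) s = 0 := by
    rw [hs, hbK]; unfold g
    field_simp
    linear_combination (P : K) ^ 3 * hx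
  have hsq0 := sq_not_mem h3 hs0 hg
  have hu : (((S : ℚ) ^ 2 : ℚ) : K) * s ^ 2 = (P * x + S) ^ 2 := by
    rw [hs]; push_cast; field_simp; ring
  have hu0 : (P * x + S : K) ^ 2 ∉ (⊥ : IntermediateField ℚ K) := by
    rw [← hu]
    intro hm
    obtain ⟨t, ht⟩ := mem_bot_iff.1 hm
    apply hsq0
    refine mem_bot_iff.2 ⟨t / S ^ 2, ?_⟩
    push_cast at ht ⊢; rw [ht]; field_simp
  have hmin : ∀ κ : ℤ, κ ≠ 0 → minpoly ℤ ((κ : K) * (P * x + S) ^ 2) = cub2 P S κ ∧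
      IntermediateField.adjoin ℚ {(κ : K) * (P * x + S) ^ 2} = (⊤ : IntermediateField ℚ K) := by
    intro κ hκ
    have hκK : (κ : K) ≠ 0 := by exact_mod_cast hκ
    have hroot := cub2_root hx κ
    have hint : IsIntegral ℤ ((κ : K) * (P * x + S) ^ 2) := ⟨_, cub2_monic _ _ _, hroot⟩
    have hρ0 : (κ : K) * (P * x + S) ^ 2 ∉ (⊥ : IntermediateField ℚ K) := by
      intro hm
      obtain ⟨t, ht⟩ := mem_bot_iff.1 hm
      apply hu0
      refine mem_bot_iff.2 ⟨t / κ, ?_⟩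
      push_cast; rw [ht]; field_simp
    refine ⟨?_, adjoin_top h3 hρ0⟩
    have hdeg : (minpoly ℤ ((κ : K) * (P * x + S) ^ 2)).natDegree = 3 := by
      have e1 := minpoly.isIntegrallyClosed_eq_field_fractions' ℚ hint
      have e2 := deg_three h3 hρ0
      rw [e1, (minpoly.monic hint).natDegree_map] at e2
      exact e2
    have hdvd : minpoly ℤ ((κ : K) * (P * x + S) ^ 2) ∣ cub2 P S κ :=
      minpoly.isIntegrallyClosed_dvd hint hroot
    exact (eq_of_monic_of_dvd_of_natDegree_le (minpoly.monic hint) (cub2_monic _ _ _) hdvd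
      (by rw [cub2_natDegree, hdeg])).symm
  refine ⟨hmin, fun p hp => ?_⟩
  obtain ⟨r, hr, hpr⟩ := exists_other_prime p
  obtain ⟨D, hD, C, hC, hmain⟩ := square_main h3 hs0 hg (not_isSquare_prime hr)
    (not_square_of_prime_mul hp hr hpr)
  obtain ⟨D', hD', C', hmain'⟩ := scale_const h3 hsq0 (r := (S : ℚ) ^ 2) (by positivity) hD hC 6
  have hint1 : IsIntegral ℤ ((P * x + S : K) ^ 2) := by
    have := cub2_root hx 1
    refine ⟨_, cub2_monic P S 1, ?_⟩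
    have e : ((1 : ℤ) : K) * (P * x + S) ^ 2 = (P * x + S) ^ 2 := by push_cast; ring
    rw [e] at this
    exact this
  refine ⟨D', hD', fun κ hκ hDκ => ?_⟩
  obtain ⟨C'', hC''⟩ := exists_nat_ge ((κ : ℚ) * C')
  refine ⟨C'', fun h hh hhp X hX t ht => ?_⟩
  have hne : h r ≠ h (p * r) := by
    rw [hh.mul p r hp.one_lt.le hr.one_lt.le, hhp]
    rcases hh.values r hr.one_lt.le with h1 | h1 <;> rw [h1] <;> norm_num
  have hm := hmain' h hh (fun x hx ε => hmain h hh hne x hx ε) X (by exact_mod_cast hX)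
    (-(h κ * t))
  rw [hu] at hm
  obtain ⟨n, h1, h2, h4⟩ := take_nat h3 hh hu0 hint1 hκ hDκ hX hC'' ht hm
  refine ⟨n, h1, h2, ?_⟩
  have e := (hmin κ (by exact_mod_cast (by omega : κ ≠ 0))).1
  rw [Int.cast_natCast] at e
  rw [← e]; exact h4

end Pool.Agent.Lib_helper11.CUB
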